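import Pool.Agent.Helper784QW.Spec

/-!
JOB QW-V2 (owner helper784, MP_47effe_an). Files Helper784QW/{Defs,Base,Spec}.lean and W661/RC/Defs.lean, W683/RC/Bas.lean are on origin/main.
The action of G on the group von Neumann algebra of N.

PROOF. Vop is multiplicative in g (permOp_mul, permOp_one), star (Vop g) = Vop g⁻¹ (star_permOp), Vop g (dl 1) = dl 1, and
Vop g * lamL n * Vop g⁻¹ = lamL (ψ g n). So conjugation by Vop g is a *-automorphism of B(ℓ²(N)) which maps range lamL onto itself, hence also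
its double centralizer LN N (coe_LN). The other items are computations.
-/

set_option autoImplicit false

open scoped InnerProductSpace ComplexOrder

namespace Pool.Agent.Helper784QW

open Matrix Pool.Agent.W661.RC Pool.Agent.W683.RC

lemma alp_action_mul {G N : Type} [Group G] [Group N] (ψ : G →* MulAut N) (g h : G) :
    Vop ψ (g * h) = Vop ψ g * Vop ψ h := by
  unfold Vop
  rw [← permOp_mul, map_mul]
  rfl

lemma alp_action_one {G N : Type} [Group G] [Group N] (ψ : G →* MulAut N) :
    Vop ψ (1 : G) = 1 := by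
  unfold Vop
  rw [map_one]
  exact permOp_one

lemma alp_action_inv {G N : Type} [Group G] [Group N] (ψ : G →* MulAut N) (g : G) :
    Vop ψ g * Vop ψ g⁻¹ = 1 := by
  rw [← alp_action_mul, mul_inv_cancel, alp_action_one]

lemma alp_action_inv' {G N : Type} [Group G] [Group N] (ψ : G →* MulAut N) (g : G) :
    Vop ψ g⁻¹ * Vop ψ g = 1 := by
  rw [← alp_action_mul, inv_mul_cancel, alp_action_one]

lemma alp_action_star {G N : Type} [Group G] [Group N] (ψ : G →* MulAut N) (g : G) :
    star (Vop ψ g) = Vop ψ g⁻¹ := by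
  unfold Vop
  rw [star_permOp, map_inv]
  rfl

lemma alp_action_dl {G N : Type} [Group G] [Group N] (ψ : G →* MulAut N) (g : G) (x : N) :
    Vop ψ g (dl x) = dl (ψ g x) := permOp_dl _ _

lemma alp_action_lamL {G N : Type} [Group G] [Group N] (ψ : G →* MulAut N) (g : G) (n : N) :
    Vop ψ g * lamL n = lamL (ψ g n) * Vop ψ g := by
  unfold Vop lamL
  rw [← permOp_mul, ← permOp_mul]
  congr 1
  ext x
  simp

/-- TARGET -/
theorem alp_action {G N : Type} [Group G] [Group N] (ψ : G →* MulAut N) :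
    IsAction G (LN N) (dl 1) (alp ψ) := by
  refine ⟨?_, ?_, ?_, ?_, ?_, ?_, ?_, ?_, ?_⟩
  · intro g x hx
    rw [← SetLike.mem_coe, coe_LN, Set.mem_centralizer_iff] at hx ⊢
    intro y hy
    have h1 : Vop ψ g⁻¹ * y * Vop ψ g ∈
        Set.centralizer (Set.range (lamL : N → L2N N →L[ℂ] L2N N)) := by
      rw [Set.mem_centralizer_iff] at hy ⊢
      rintro _ ⟨n, rfl⟩
      have h2 := hy (lamL (ψ g n)) ⟨_, rfl⟩
      have h3 : lamL n * Vop ψ g⁻¹ = Vop ψ g⁻¹ * lamL (ψ g n) := by
        calc lamL n * Vop ψ g⁻¹ = Vop ψ g⁻¹ * (Vop ψ g * lamL n) * Vop ψ g⁻¹ := by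
              rw [← mul_assoc, alp_action_inv', one_mul]
          _ = Vop ψ g⁻¹ * lamL (ψ g n) * (Vop ψ g * Vop ψ g⁻¹) := by
              rw [alp_action_lamL]
              simp only [mul_assoc]
          _ = Vop ψ g⁻¹ * lamL (ψ g n) := by rw [alp_action_inv, mul_one]
      calc lamL n * (Vop ψ g⁻¹ * y * Vop ψ g) = (lamL n * Vop ψ g⁻¹) * y * Vop ψ g := by
            simp only [mul_assoc]
        _ = Vop ψ g⁻¹ * (lamL (ψ g n) * y) * Vop ψ g := by
            rw [h3]
            simp only [mul_assoc]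
        _ = Vop ψ g⁻¹ * y * (lamL (ψ g n) * Vop ψ g) := by
            rw [h2]
            simp only [mul_assoc]
        _ = Vop ψ g⁻¹ * y * Vop ψ g * lamL n := by
            rw [← alp_action_lamL]
            simp only [mul_assoc]
    have h4 := hx _ h1
    unfold alp
    calc y * (Vop ψ g * x * Vop ψ g⁻¹)
        = (Vop ψ g * Vop ψ g⁻¹) * y * Vop ψ g * x * Vop ψ g⁻¹ := by
          rw [alp_action_inv, one_mul]
          simp only [mul_assoc]
      _ = Vop ψ g * (Vop ψ g⁻¹ * y * Vop ψ g * x) * Vop ψ g⁻¹ := by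
          simp only [mul_assoc]
      _ = Vop ψ g * x * Vop ψ g⁻¹ * y * (Vop ψ g * Vop ψ g⁻¹) := by
          rw [h4]
          simp only [mul_assoc]
      _ = Vop ψ g * x * Vop ψ g⁻¹ * y := by rw [alp_action_inv, mul_one]
  · intro x _
    unfold alp
    rw [inv_one, alp_action_one, one_mul, mul_one]
  · intro g h x _
    unfold alp
    rw [_root_.mul_inv_rev, alp_action_mul, alp_action_mul]
    simp only [mul_assoc]
  · intro g
    unfold alp
    rw [mul_one, alp_action_inv]
  · intro g x _ y _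
    unfold alp
    rw [mul_add, add_mul]
  · intro g c x _
    unfold alp
    rw [mul_smul_comm, smul_mul_assoc]
  · intro g x _ y _
    unfold alp
    calc Vop ψ g * (x * y) * Vop ψ g⁻¹ = Vop ψ g * x * 1 * y * Vop ψ g⁻¹ := by
          rw [mul_one]
          simp only [mul_assoc]
      _ = Vop ψ g * x * Vop ψ g⁻¹ * (Vop ψ g * y * Vop ψ g⁻¹) := by
          rw [← alp_action_inv' ψ g]
          simp only [mul_assoc]
  · intro g x _
    unfold alp
    rw [star_mul, star_mul, alp_action_star, alp_action_star, inv_inv, mul_assoc]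
  · intro g x _
    unfold alp
    have e : (Vop ψ g * x * Vop ψ g⁻¹) (dl (1 : N)) = Vop ψ g (x (dl 1)) := by
      show Vop ψ g (x (Vop ψ g⁻¹ (dl 1))) = _
      rw [alp_action_dl, map_one]
    rw [e]
    have e2 : ⟪dl (1 : N), Vop ψ g (x (dl 1))⟫_ℂ = ⟪star (Vop ψ g) (dl (1 : N)), x (dl 1)⟫_ℂ := by
      rw [ContinuousLinearMap.star_eq_adjoint, ContinuousLinearMap.adjoint_inner_left]
    rw [e2, alp_action_star, alp_action_dl, map_one]

end Pool.Agent.Helper784QW
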