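import Pool.Agent.Helper784QW.Base
import Pool.Agent.W683.RC.Bas

/-!
# Specifications of the modules (MP_47effe_an)
-/

set_option autoImplicit false

open scoped InnerProductSpace ComplexOrder

namespace Pool.Agent.Helper784QW

open Matrix Pool.Agent.W661.RC Pool.Agent.W683.RC

/-! ## Groups -/

/-- every conjugacy class except `{1}` is infinite -/
def ICC (N : Type) [Group N] : Prop := ∀ n : N, n ≠ 1 → (Set.range fun m : N => m * n * m⁻¹).Infinite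

/-- locally finite groups -/
def LocFin (N : Type) [Group N] : Prop :=
  ∀ s : Finset N, ∃ F : Subgroup N, (F : Set N).Finite ∧ (s : Set N) ⊆ F

/-- the unitary of `ℓ²(N)` implementing an automorphism -/
noncomputable def Vop {G N : Type} [Group G] [Group N] (ψ : G →* MulAut N) (g : G) :
    L2N N →L[ℂ] L2N N := permOp (ψ g).toEquiv

/-- the action on operators of `ℓ²(N)` -/
noncomputable def alp {G N : Type} [Group G] [Group N] (ψ : G →* MulAut N) (g : G)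
    (x : L2N N →L[ℂ] L2N N) : L2N N →L[ℂ] L2N N := Vop ψ g * x * Vop ψ g⁻¹

open Classical in
/-- the trace vector of the crossed product -/
noncomputable def eta (G N : Type) [Group G] [Group N] : L2H G (L2N N) := lp.single 2 (1 : G) (dl (1 : N))

/-- the set of permutations of `A` which agree with a translation outside a finite set -/
def NearTrans (A : Type) [AddCommGroup A] : Set (Equiv.Perm A) := {π | ∃ a : A, {x | π x ≠ a + x}.Finite}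

/-! ## From QWEP to matrices -/

section

variable {K : Type} [NormedAddCommGroup K] [InnerProductSpace ℂ K] [CompleteSpace K]

/-- `∑ i, ‖k c v_i - a_i c v_i‖²` for `k = ∑ j, a_j |v_j⟩⟨v_j|` -/
noncomputable def Dq {N : ℕ} (v : Fin N → K) (a : Fin N → ℝ) (c : K →L[ℂ] K) : ℝ :=
  ∑ i, ‖(∑ j, ((a j : ℂ) * ⟪v j, c (v i)⟫_ℂ) • v j) - (a i : ℂ) • c (v i)‖ ^ 2

/-- the direct sum over `s` of the compressions to the span of `{v_i | s < n_i}` -/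
noncomputable def th {N : ℕ} (v : Fin N → K) (n : Fin N → ℕ) (T : K →L[ℂ] K) :
    Matrix (Σ i : Fin N, Fin (n i)) (Σ i : Fin N, Fin (n i)) ℂ :=
  Matrix.of fun a b => if (a.2 : ℕ) = (b.2 : ℕ) then ⟪v a.1, T (v b.1)⟫_ℂ else 0

end

/-- K12: the hypertrace -/
def S12 : Prop := ∀ (L : Type) [NormedAddCommGroup L] [InnerProductSpace ℂ L] [CompleteSpace L]
  (M : Set (L →L[ℂ] L)), Set.centralizer (Set.centralizer M) = M → ∀ η : L, ‖η‖ = 1 →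
  (∀ x ∈ M, ∀ y ∈ M, ⟪η, (x * y) η⟫_ℂ = ⟪η, (y * x) η⟫_ℂ) → QWEP M →
  ∃ (B : Type) (_ : CStarAlgebra B) (q : B →⋆ₐ[ℂ] (L →L[ℂ] L)) (K : Type) (_ : NormedAddCommGroup K)
    (_ : InnerProductSpace ℂ K) (_ : CompleteSpace K) (ι : B →⋆ₐ[ℂ] (K →L[ℂ] K))
    (ψ : (K →L[ℂ] K) →ₗ[ℂ] ℂ), Set.range q = M ∧ (∀ T, 0 ≤ ψ (star T * T)) ∧ ψ 1 = 1 ∧
      (∀ b T, ψ (ι b * T) = ψ (T * ι b)) ∧ ∀ b, ψ (ι b) = ⟪η, q b η⟫_ℂ

/-- K3: approximation of a state by normal states, with small commutators in the trace norm -/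
def S3 : Prop := ∀ (K : Type) [NormedAddCommGroup K] [InnerProductSpace ℂ K] [CompleteSpace K]
  (ψ : (K →L[ℂ] K) →ₗ[ℂ] ℂ), (∀ T, 0 ≤ ψ (star T * T)) → ψ 1 = 1 →
  ∀ (E X : Finset (K →L[ℂ] K)), (∀ e ∈ E, ∀ T, ψ (e * T) = ψ (T * e)) → ∀ ε : ℝ, 0 < ε →
  ∃ (m : ℕ) (t : Fin m → ℝ) (ζ : Fin m → K), (∀ k, 0 ≤ t k) ∧ ∑ k, t k = 1 ∧ (∀ k, ‖ζ k‖ = 1) ∧
    (∀ e ∈ E, ∀ T : K →L[ℂ] K,
      ‖∑ k, (t k : ℂ) * (⟪ζ k, e (T (ζ k))⟫_ℂ - ⟪ζ k, T (e (ζ k))⟫_ℂ)‖ ≤ ε * ‖T‖) ∧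
    ∀ x ∈ X, ‖∑ k, (t k : ℂ) * ⟪ζ k, x (ζ k)⟫_ℂ - ψ x‖ ≤ ε

/-- K4a: diagonalisation of a density matrix -/
def S4a : Prop := ∀ (K : Type) [NormedAddCommGroup K] [InnerProductSpace ℂ K] [CompleteSpace K]
  (m : ℕ) (t : Fin m → ℝ) (ζ : Fin m → K), (∀ k, 0 ≤ t k) → ∑ k, t k = 1 → (∀ k, ‖ζ k‖ = 1) →
  ∃ (N : ℕ) (v : Fin N → K) (l : Fin N → ℝ), Orthonormal ℂ v ∧ (∀ i, 0 ≤ l i) ∧ ∑ i, l i = 1 ∧
    ∀ T : K →L[ℂ] K, ∑ k, (t k : ℂ) * ⟪ζ k, T (ζ k)⟫_ℂ = ∑ i, (l i : ℂ) * ⟪v i, T (v i)⟫_ℂ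

/-- K4b: the Powers-Størmer inequality -/
def S4b : Prop := ∀ (K : Type) [NormedAddCommGroup K] [InnerProductSpace ℂ K] [CompleteSpace K]
  (N : ℕ) (v : Fin N → K) (l : Fin N → ℝ), Orthonormal ℂ v → (∀ i, 0 ≤ l i) → ∑ i, l i = 1 →
  ∀ e ∈ unitary (K →L[ℂ] K), ∀ ε : ℝ, (∀ T : K →L[ℂ] K,
    ‖∑ i, (l i : ℂ) * (⟪v i, e (T (v i))⟫_ℂ - ⟪v i, T (e (v i))⟫_ℂ)‖ ≤ ε * ‖T‖) →
  Dq v (fun i => √(l i)) e ≤ ε

/-- K5: the compression maps `th v n` -/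
def S5 : Prop := ∀ (K : Type) [NormedAddCommGroup K] [InnerProductSpace ℂ K] [CompleteSpace K]
  (N : ℕ) (v : Fin N → K), Orthonormal ℂ v → ∀ n : Fin N → ℕ,
  (∀ T : K →L[ℂ] K, th v n (star T) = (th v n T)ᴴ) ∧ th v n 1 = 1 ∧
  (∀ T : K →L[ℂ] K, Matrix.trace (th v n T) = ∑ i, (n i : ℂ) * ⟪v i, T (v i)⟫_ℂ) ∧
  (∀ T : K →L[ℂ] K, hs (th v n T) ≤ (Matrix.trace (th v n (star T * T))).re) ∧
  ∀ b c : K →L[ℂ] K, hs (th v n (b * c) - th v n b * th v n c) ≤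
    ‖b‖ ^ 2 * (Dq v (fun i => √(n i)) c + 2 * ‖c‖ * √((∑ i, (n i : ℝ)) * Dq v (fun i => √(n i)) c))

/-- K5b: from weights to multiplicities -/
def S5b : Prop := ∀ (K : Type) [NormedAddCommGroup K] [InnerProductSpace ℂ K] [CompleteSpace K]
  (N : ℕ) (v : Fin N → K) (l : Fin N → ℝ), Orthonormal ℂ v → (∀ i, 0 ≤ l i) → ∑ i, l i = 1 →
  ∀ (E : Finset (K →L[ℂ] K)) (ε : ℝ), 0 < ε → ∃ n : Fin N → ℕ, 0 < ∑ i, n i ∧ ∀ T ∈ E,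
    Dq v (fun i => √(n i)) T ≤ (Dq v (fun i => √(l i)) T + ε) * ∑ i, (n i : ℝ) ∧
    ‖∑ i, (n i : ℂ) * ⟪v i, T (v i)⟫_ℂ - (∑ i, (n i : ℂ)) * ∑ i, (l i : ℂ) * ⟪v i, T (v i)⟫_ℂ‖ ≤
      ε * ∑ i, (n i : ℝ)

/-- K5c: near unitaries -/
def S5c : Prop := ∀ (n : Type) [Fintype n] [DecidableEq n] (x : Matrix n n ℂ),
  ∃ u : Matrix n n ℂ, uᴴ * u = 1 ∧ hs (x - u) ≤ hs (xᴴ * x - 1)

/-- K6: unitaries of a QWEP tracial von Neumann algebra -/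
def S6 : Prop := ∀ (L : Type) [NormedAddCommGroup L] [InnerProductSpace ℂ L] [CompleteSpace L]
  (M : Set (L →L[ℂ] L)), Set.centralizer (Set.centralizer M) = M → ∀ η : L, ‖η‖ = 1 →
  (∀ x ∈ M, ∀ y ∈ M, ⟪η, (x * y) η⟫_ℂ = ⟪η, (y * x) η⟫_ℂ) → QWEP M →
  ∀ (Γ : Type) [Group Γ] (u : Γ → (L →L[ℂ] L)), (∀ g, u g ∈ M) → u 1 = 1 →
  (∀ g h, u (g * h) = u g * u h) → (∀ g, star (u g) = u g⁻¹) → (∀ g, g ≠ 1 → ⟪η, u g η⟫_ℂ = 0) →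
  Hyperlinear Γ

end Pool.Agent.Helper784QW
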