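import Pool.Agent.Helper418_HL.NoMdl

set_option autoImplicit false

namespace Pool.Agent.Helper784QW

open Matrix Filter Topology Pool.Agent.W661.RC Pool.Agent.W683.RC Helper418HL

/-- TARGET -/
theorem no_model {H : Type} [Group H] [Countable H] {ι ι' : Type} [Fintype ι] [Fintype ι']
    {p D p' D' : ℕ} {s : ι → H} {k : ι' → H} (hs : Helper418.IsTSystem p D s)
    (hk : Helper418.IsTSystem p' D' k) (hkG : ∀ j, k j ∈ Subgroup.closure (Set.range s))
    (P : Set H) (hP : P ⊆ Subgroup.closure (Set.range s)) (hPs : ∀ i, s i ∈ Subgroup.closure P)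
    (hPk : ∀ v ∈ P, ∀ j, v * k j * v⁻¹ ∈ Subgroup.closure (Set.range k)) {v z w : H} (hv : v ∈ P)
    (hzG : z ∈ Subgroup.closure (Set.range s)) (hz : ∀ j, Commute z (v * k j * v⁻¹))
    (hw : w ∈ Subgroup.closure (Set.range k)) {𝒰 : Ultrafilter ℕ} (hU : (𝒰 : Filter ℕ) ≤ cofinite)
    (M : Mdl H 𝒰) {c0 : ℝ} (hc0 : 0 < c0)
    (hM : ∀ᶠ n in (𝒰 : Filter ℕ), c0 * M.d n ≤ Pool.Agent.W661.RC.hs (M.U (z * w * z⁻¹ * w⁻¹) n - 1)) :
    False := by
  set G : Subgroup H := Subgroup.closure (Set.range s) with hG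
  have hinjG : Function.Injective G.subtype := Subgroup.subtype_injective G
  have hmapG : Function.Injective (Subgroup.map G.subtype) := Subgroup.map_injective hinjG
  -- the system `s` in `G`
  let s' : ι → G := fun i => ⟨s i, Subgroup.subset_closure ⟨i, rfl⟩⟩
  have hs' : Helper418.IsTSystem p D s' := Helper418.Alg2.tsystem_comap G.subtype hinjG hs
  have hs'2 : Subgroup.closure (Set.range s') = ⊤ := by
    apply hmapG
    rw [MonoidHom.map_closure, ← Set.range_comp, ← MonoidHom.range_eq_map, Subgroup.range_subtype]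
    rfl
  have hTG : HasT G := hasT_of_tsystem hs' hs'2
  -- the system `k` in `G`
  let k' : ι' → G := fun j => ⟨k j, hkG j⟩
  have hk' : Helper418.IsTSystem p' D' k' := Helper418.Alg2.tsystem_comap G.subtype hinjG hk
  have hmapK : Subgroup.map G.subtype (Subgroup.closure (Set.range k')) =
      Subgroup.closure (Set.range k) := by
    rw [MonoidHom.map_closure, ← Set.range_comp]
    rfl
  have hmemK : ∀ x : G, (x : H) ∈ Subgroup.closure (Set.range k) →
      x ∈ Subgroup.closure (Set.range k') := by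
    intro x hx
    rw [← hmapK, Subgroup.mem_map] at hx
    obtain ⟨y, hy, hyx⟩ := hx
    have : y = x := Subtype.ext hyx
    rwa [← this]
  let e : Fin (Fintype.card ι) ≃ ι := (Fintype.equivFin ι).symm
  let e' : Fin (Fintype.card ι') ≃ ι' := (Fintype.equivFin ι').symm
  have hrs : Set.range (s' ∘ e) = Set.range s' := e.surjective.range_comp s'
  have hrk : Set.range (k' ∘ e') = Set.range k' := e'.surjective.range_comp k'
  have hTK : HasT (Subgroup.closure (Set.range (k' ∘ e'))) := by
    rw [hrk]
    let k'' : ι' → Subgroup.closure (Set.range k') := fun j =>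
      ⟨k' j, Subgroup.subset_closure ⟨j, rfl⟩⟩
    have hk'' : Helper418.IsTSystem p' D' k'' :=
      Helper418.Alg2.tsystem_comap (Subgroup.subtype _) (Subgroup.subtype_injective _) hk'
    have hk2 : Subgroup.closure (Set.range k'') = ⊤ := by
      apply Subgroup.map_injective (Subgroup.subtype_injective (Subgroup.closure (Set.range k')))
      rw [MonoidHom.map_closure, ← Set.range_comp, ← MonoidHom.range_eq_map, Subgroup.range_subtype]
      rfl
    exact hasT_of_tsystem hk'' hk2
  -- the generating set `P`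
  let P' : Set G := G.subtype ⁻¹' P
  have hP' : Subgroup.closure P' = ⊤ := by
    apply hmapG
    rw [MonoidHom.map_closure, ← MonoidHom.range_eq_map, Subgroup.range_subtype]
    have e1 : G.subtype '' P' = P := by
      rw [Set.image_preimage_eq_iff]
      intro x hx
      exact ⟨⟨x, hP hx⟩, rfl⟩
    rw [e1]
    apply le_antisymm
    · rw [Subgroup.closure_le]; exact hP
    · rw [hG, Subgroup.closure_le]
      rintro _ ⟨i, rfl⟩
      exact hPs i
  have hsG : ∀ x ∈ Subgroup.closure (Set.range k), x ∈ G := by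
    intro x hx
    have : Subgroup.closure (Set.range k) ≤ G := by
      rw [Subgroup.closure_le]
      rintro _ ⟨j, rfl⟩
      exact hkG j
    exact this hx
  refine not_faithful hU (M.res G) (s' ∘ e) (by rw [hrs]; exact hs'2) hTG (k' ∘ e') hTK P' hP' ?_
    (⟨v, hP hv⟩ : G) hv (⟨z, hzG⟩ : G) (⟨w, hsG w hw⟩ : G) ?_ ?_ hc0 hM
  · intro u hu j
    rw [hrk]
    exact hmemK _ (hPk (u : H) hu (e' j))
  · intro j
    apply Subtype.ext
    exact hz (e' j)
  · rw [hrk]
    exact hmemK _ hw

end Pool.Agent.Helper784QW
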