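import Pool.Agent.Helper784QW.Grp2
import Pool.Agent.Helper418_Sofic.Alg2

/-!
# T-systems in `A ⋊ St` (job QW-G1c)
-/

set_option autoImplicit false

namespace Pool.Agent.Helper784QW

open Helper418 Matrix

/-- positions of the family `s6`, the translation `z0` at `(6, 0)` -/
def posS : ((Fin 3 × Fin 5) ⊕ (Fin 3 × Fin 3) ⊕ Unit) ⊕ Unit → Fin 7 × Fin 7
  | Sum.inl i => ((BTsys.posB i).1.castSucc, (BTsys.posB i).2.castSucc)
  | Sum.inr _ => (6, 0)

set_option maxRecDepth 100000 in
theorem posS_deg : ∀ i, (Finset.univ.filter fun j =>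
    (posS i).2 = (posS j).1 ∨ (posS j).2 = (posS i).1).card ≤ 11 := by decide

/-- coefficients of the family `sB` -/
noncomputable def coefB : (Fin 3 × Fin 5) ⊕ (Fin 3 × Fin 3) ⊕ Unit → RR
  | Sum.inl i => r5 i.2
  | Sum.inr (Sum.inl i) => r3 i.2
  | Sum.inr (Sum.inr _) => 1

theorem sB_eq (i : (Fin 3 × Fin 5) ⊕ (Fin 3 × Fin 3) ⊕ Unit) :
    sB i = EE (BTsys.posB i).1 (BTsys.posB i).2 (coefB i) := by
  rcases i with i | i | i <;> rfl

theorem tra_zero : tra 0 = 1 := tra_eq_one.2 Wp.zero_mem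

theorem tra_commute (v w : W6) : Commute (tra v) (tra w) := by
  show tra v * tra w = tra w * tra v
  rw [← tra_add, ← tra_add, add_comm]

theorem tra_nsmul (n : ℕ) (w : W6) : tra (n • w) = tra w ^ n := by
  induction n with
  | zero => rw [zero_smul, pow_zero, tra_zero]
  | succ n ih => rw [succ_nsmul, tra_add, ih, pow_succ]

theorem z0_pow : z0 ^ 127 = 1 := by
  have h : (127 : ℕ) • (Pi.single 0 1 : W6) = 0 := by
    funext i
    rw [Pi.smul_apply, nsmul_eq_mul, BTsys.cast_zero, zero_mul]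
    rfl
  unfold z0
  rw [← tra_nsmul, h, tra_zero]

theorem inr_tra_EE (g : St) {a b : Fin 6} (hab : a ≠ b) (r : RR) (hg : (g : U6) = EE a b r)
    (w : W6) : (SemidirectProduct.inr g : T6) * tra w * (SemidirectProduct.inr g : T6)⁻¹ =
      tra (w + Pi.single b (w a * -r)) := by
  rw [inr_tra, hg, vec_EE_inv w hab]

theorem inr_commute_tra (g : St) {a b : Fin 6} (hab : a ≠ b) (r : RR) (hg : (g : U6) = EE a b r)
    {w : W6} (hw : w a = 0) : Commute (SemidirectProduct.inr g : T6) (tra w) := by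
  have h := inr_tra_EE g hab r hg w
  rw [hw, zero_mul, Pi.single_zero, add_zero] at h
  exact mul_inv_eq_iff_eq_mul.1 h

theorem inr_cm_z0 (g : St) {b : Fin 6} (hb : (0 : Fin 6) ≠ b) (r : RR)
    (hg : (g : U6) = EE 0 b r) :
    cm (SemidirectProduct.inr g : T6) z0 = tra (Pi.single b (-r)) := by
  have h := inr_tra_EE g hb r hg (Pi.single 0 1)
  rw [Pi.single_eq_same, one_mul, add_comm, tra_add] at h
  unfold cm z0
  rw [h, mul_assoc, mul_inv_cancel, mul_one]

theorem s6_commute {i j : ((Fin 3 × Fin 5) ⊕ (Fin 3 × Fin 3) ⊕ Unit) ⊕ Unit}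
    (h : ¬ ((posS i).2 = (posS j).1 ∨ (posS j).2 = (posS i).1)) : Commute (s6 i) (s6 j) := by
  have key : ∀ i : (Fin 3 × Fin 5) ⊕ (Fin 3 × Fin 3) ⊕ Unit, (BTsys.posB i).1 ≠ 0 →
      Commute (s6 (Sum.inl i)) z0 := by
    intro i hi
    exact inr_commute_tra ⟨sB i, sB_mem_St i⟩ (BTsys.posB_ne i) (coefB i) (sB_eq i)
      (Pi.single_eq_of_ne hi _)
  rcases i with i | i
  · rcases j with j | j
    · have h1 : Commute (⟨sB i, sB_mem_St i⟩ : St) ⟨sB j, sB_mem_St j⟩ := by
        have h2 : Commute (sB i) (sB j) := by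
          rw [sB_eq i, sB_eq j]
          refine EE_commute (BTsys.posB_ne i) (BTsys.posB_ne j) (fun e => h (Or.inl ?_))
            (fun e => h (Or.inr ?_)) _ _
          · show (BTsys.posB i).2.castSucc = (BTsys.posB j).1.castSucc
            rw [e]
          · show (BTsys.posB j).2.castSucc = (BTsys.posB i).1.castSucc
            rw [e]
        exact Subtype.ext h2
      exact h1.map (SemidirectProduct.inr : St →* T6)
    · refine key i fun e => h (Or.inr ?_)
      show (0 : Fin 7) = (BTsys.posB i).1.castSucc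
      rw [e]
      rfl
  · rcases j with j | j
    · refine (key j fun e => h (Or.inl ?_)).symm
      show (0 : Fin 7) = (BTsys.posB j).1.castSucc
      rw [e]
      rfl
    · exact Commute.refl _

/-- the T-system of the elements of `St` -/
theorem sB6_tsystem : Helper418.IsTSystem 127 11 (fun i => s6 (Sum.inl i)) := by
  have h : Helper418.IsTSystem 127 11 (fun i => (⟨sB i, sB_mem_St i⟩ : St)) :=
    Helper418.Alg2.tsystem_comap St.subtype (Subgroup.subtype_injective _) sB_tsystem
  exact Helper418.Alg2.tsystem_map h (SemidirectProduct.inr : St →* T6)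

theorem s6_cm_comm (i : (Fin 3 × Fin 5) ⊕ (Fin 3 × Fin 3) ⊕ Unit) :
    Commute (cm (s6 (Sum.inl i)) z0) (s6 (Sum.inl i)) ∧ Commute (cm (s6 (Sum.inl i)) z0) z0 := by
  by_cases hi : (BTsys.posB i).1 = 0
  · have hne := BTsys.posB_ne i
    have he := sB_eq i
    rw [hi] at hne he
    have h1 : cm (s6 (Sum.inl i)) z0 = tra (Pi.single (BTsys.posB i).2 (-(coefB i))) :=
      inr_cm_z0 ⟨sB i, sB_mem_St i⟩ hne (coefB i) he
    rw [h1]
    refine ⟨?_, tra_commute _ _⟩
    exact (inr_commute_tra ⟨sB i, sB_mem_St i⟩ hne (coefB i) he (Pi.single_eq_of_ne hne _)).symm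
  · have h1 : Commute (s6 (Sum.inl i)) z0 :=
      inr_commute_tra ⟨sB i, sB_mem_St i⟩ (BTsys.posB_ne i) (coefB i) (sB_eq i)
        (Pi.single_eq_of_ne hi _)
    rw [BTsys.cm_commute h1]
    exact ⟨Commute.one_left _, Commute.one_left _⟩

/-- TARGET -/
theorem s6_tsystem : Helper418.IsTSystem 127 11 s6 where
  prime := sB_tsystem.prime
  hD := sB_tsystem.hD
  pow := by
    rintro (i | i)
    · exact sB6_tsystem.pow i
    · exact z0_pow
  comm := by
    rintro (i | i) (j | j)
    · exact sB6_tsystem.comm i j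
    · exact (s6_cm_comm i).1
    · show Commute (cm z0 (s6 (Sum.inl j))) z0
      rw [BTsys.cm_inv]
      exact (s6_cm_comm j).2.inv_left
    · show Commute (cm z0 z0) z0
      rw [BTsys.cm_commute (Commute.refl z0)]
      exact Commute.one_left _
  deg i := by
    classical
    refine le_trans (Finset.card_le_card ?_) (posS_deg i)
    intro j hj
    rw [Finset.mem_filter] at hj ⊢
    refine ⟨hj.1, ?_⟩
    by_contra h
    exact hj.2 (s6_commute h)

/-- TARGET -/
theorem k6_tsystem : Helper418.IsTSystem 127 11 k6 := by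
  have h : Helper418.IsTSystem 127 11 (fun i => (⟨kB i, kB_mem_St i⟩ : St)) :=
    Helper418.Alg2.tsystem_comap St.subtype (Subgroup.subtype_injective _) kB_tsystem
  exact Helper418.Alg2.tsystem_map h (SemidirectProduct.inr : St →* T6)

end Pool.Agent.Helper784QW
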