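import Pool.Agent.Helper784QW.Grp2

/-!
# The data for the obstruction in `A ⋊ St`
-/

set_option autoImplicit false

namespace Pool.Agent.Helper784QW

open Helper418 Matrix

namespace G1d

theorem countable_RR : Countable RR := by
  have hM : Countable (Matrix (Fin 2) (Fin 2) ℤ) := by
    unfold Matrix
    infer_instance
  have : Countable (Matrix.SpecialLinearGroup (Fin 2) ℤ) := Subtype.val_injective.countable
  have : Countable (Matrix.SpecialLinearGroup (Fin 2) ℤ →₀ ZMod 127) := inferInstance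
  exact (MonoidAlgebra.coeff_injective (R := ZMod 127)
    (M := Matrix.SpecialLinearGroup (Fin 2) ℤ)).countable

theorem countable_T6 : Countable T6 := by
  have := countable_RR
  have hW : Countable W6 := inferInstance
  have hA : Countable A6 := Quotient.countable
  have hA' : Countable (Multiplicative A6) := hA
  have hM : Countable (Matrix (Fin 6) (Fin 6) RR) := by
    unfold Matrix
    infer_instance
  have hU : Countable U6 := (Units.val_injective (α := Matrix (Fin 6) (Fin 6) RR)).countable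
  have hS : Countable St := inferInstance
  exact (SemidirectProduct.equivProd (φ := mact)).injective.countable

theorem infinite_SL : Infinite (Matrix.SpecialLinearGroup (Fin 2) ℤ) := by
  refine Infinite.of_injective (fun n : ℤ =>
    (⟨!![1, n; 0, 1], by simp [Matrix.det_fin_two]⟩ : Matrix.SpecialLinearGroup (Fin 2) ℤ)) ?_
  intro m n h
  have h1 := congrFun (congrFun (congrArg Subtype.val h) 0) 1
  simpa using h1

theorem infinite_RR : Infinite RR := by
  have := infinite_SL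
  have : Nontrivial (ZMod 127) := ZMod.nontrivial_iff.2 (by norm_num)
  exact Infinite.of_injective (MonoidAlgebra.of (ZMod 127) (Matrix.SpecialLinearGroup (Fin 2) ℤ))
    MonoidAlgebra.of_injective

theorem infinite_A6 : Infinite A6 := by
  have := infinite_RR
  refine Infinite.of_injective (fun x : RR => ((Pi.single 0 x : W6) : A6)) ?_
  intro x y h
  have h1 : -(Pi.single 0 x : W6) + (Pi.single 0 y : W6) ∈ Wp := QuotientAddGroup.eq.1 h
  have h2 := h1.1
  have h3 : -x + y = 0 := by simpa using h2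
  exact (neg_add_eq_zero.1 h3)

theorem torsion (a : A6) : 127 • a = 0 := by
  induction a using QuotientAddGroup.induction_on with
  | H w =>
    show ((127 • w : W6) : A6) = 0
    have : (127 • w : W6) = 0 := by
      funext i
      show 127 • w i = 0
      rw [nsmul_eq_mul, BTsys.cast_zero, zero_mul]
    rw [this]
    rfl

theorem closure_sB_le : Subgroup.closure (Set.range sB) ≤ St := by
  rw [Subgroup.closure_le]
  rintro _ ⟨i, rfl⟩
  exact sB_mem_St i

theorem lift_mem {S : Set U6} (hS : ∀ s ∈ S, s ∈ St) (H : Subgroup T6)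
    (h : ∀ s (hs : s ∈ S), (SemidirectProduct.inr ⟨s, hS s hs⟩ : T6) ∈ H) (g : St)
    (hg : (g : U6) ∈ Subgroup.closure S) : (SemidirectProduct.inr g : T6) ∈ H := by
  have h1 : Subgroup.closure S ≤
      (H.comap (SemidirectProduct.inr : St →* T6)).map St.subtype := by
    rw [Subgroup.closure_le]
    intro s hs
    exact ⟨⟨s, hS s hs⟩, h s hs, rfl⟩
  obtain ⟨g', hg', e⟩ := h1 hg
  have : g' = g := Subtype.ext e
  rw [← this]
  exact hg'

theorem inr_mem_s6 (g : St) (hg : (g : U6) ∈ Subgroup.closure (Set.range sB)) :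
    (SemidirectProduct.inr g : T6) ∈ Subgroup.closure (Set.range s6) := by
  refine lift_mem (S := Set.range sB) ?_ _ ?_ g hg
  · rintro _ ⟨i, rfl⟩
    exact sB_mem_St i
  · rintro _ ⟨i, rfl⟩
    exact Subgroup.subset_closure ⟨Sum.inl i, rfl⟩

theorem inr_mem_k6 (g : St) (hg : (g : U6) ∈ Subgroup.closure (Set.range kB)) :
    (SemidirectProduct.inr g : T6) ∈ Subgroup.closure (Set.range k6) := by
  refine lift_mem (S := Set.range kB) ?_ _ ?_ g hg
  · rintro _ ⟨i, rfl⟩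
    exact kB_mem_St i
  · rintro _ ⟨i, rfl⟩
    exact Subgroup.subset_closure ⟨i, rfl⟩

theorem z0_mem : z0 ∈ Subgroup.closure (Set.range s6) :=
  Subgroup.subset_closure ⟨Sum.inr (), rfl⟩

/-- the elements which conjugate `K` into itself -/
def PP : Set T6 := {x | x = z0 ∨ ∃ g : St, x = SemidirectProduct.inr g ∧
  (g : U6) ∈ Subgroup.closure (Set.range sB) ∧
  ∀ l, (g : U6) * kB l * (g : U6)⁻¹ ∈ Subgroup.closure (Set.range kB)}

theorem tra_add_mem {u s : W6} (hs : s ∈ Wp) : tra (u + s) = tra u := by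
  rw [tra_add, tra_eq_one.2 hs, mul_one]

theorem conj_EE {a b : Fin 6} (hab : a ≠ b) (r : RR) (h : EE a b r ∈ St)
    (hs : (Pi.single b ((Pi.single 0 1 : W6) a * -r) : W6) ∈ Wp) :
    Commute z0 (SemidirectProduct.inr ⟨EE a b r, h⟩ : T6) := by
  have h1 := inr_tra ⟨EE a b r, h⟩ (Pi.single 0 1)
  have h2 : (Pi.single 0 1 : W6) ᵥ* ((((⟨EE a b r, h⟩ : St) : U6)⁻¹ : U6) :
      Matrix (Fin 6) (Fin 6) RR) = Pi.single 0 1 + Pi.single b ((Pi.single 0 1 : W6) a * -r) :=
    vec_EE_inv _ hab r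
  rw [h2, tra_add_mem hs] at h1
  show z0 * _ = _ * z0
  rw [mul_inv_eq_iff_eq_mul] at h1
  exact h1.symm

theorem z0_comm (j : (Fin 3 × Fin 3) ⊕ Fin 3) : Commute z0 (k6 j) := by
  rcases j with ⟨i, k⟩ | i
  · refine conj_EE (lo_ne_succ i) (r3 k) _ ?_
    have h0 : (Pi.single 0 1 : W6) (lo i) = 0 := by
      apply Pi.single_eq_of_ne
      revert i; decide
    rw [h0, zero_mul]
    exact single_mem_Wp (le_lo _) Rp.zero_mem
  · refine conj_EE (up_ne_three i) 1 _ ?_
    refine single_mem_Wp le_rfl ?_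
    by_cases h : up i = 0
    · rw [h, Pi.single_eq_same, one_mul]
      exact Rp.neg_mem Rp.one_mem
    · rw [Pi.single_eq_of_ne h, zero_mul]
      exact Rp.zero_mem

theorem PP_conj (v : T6) (hv : v ∈ PP) (j : (Fin 3 × Fin 3) ⊕ Fin 3) :
    v * k6 j * v⁻¹ ∈ Subgroup.closure (Set.range k6) := by
  rcases hv with rfl | ⟨g, rfl, -, hg⟩
  · rw [(z0_comm j).eq, mul_inv_cancel_right]
    exact Subgroup.subset_closure ⟨j, rfl⟩
  · have h1 : (SemidirectProduct.inr g : T6) * k6 j * (SemidirectProduct.inr g : T6)⁻¹ =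
        SemidirectProduct.inr (g * ⟨kB j, kB_mem_St j⟩ * g⁻¹) := by
      rw [map_mul, map_mul, map_inv]
      rfl
    rw [h1]
    exact inr_mem_k6 _ (hg j)

theorem dB_St : dB ∈ St := closure_sB_le dB_mem

/-- the diagonal element -/
noncomputable def vv : T6 := SemidirectProduct.inr ⟨dB, dB_St⟩

theorem zz_eq : vv * z0 * vv⁻¹ = tra (Pi.single 0 (ofG mU⁻¹)) := by
  have h1 := inr_tra ⟨dB, dB_St⟩ (Pi.single 0 1)
  have h2 : (Pi.single 0 1 : W6) ᵥ* ((((⟨dB, dB_St⟩ : St) : U6)⁻¹ : U6) :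
      Matrix (Fin 6) (Fin 6) RR) = Pi.single 0 (ofG mU⁻¹) := by
    show (Pi.single 0 1 : W6) ᵥ* (Matrix.diagonal ![ofG mU⁻¹, ofG mL⁻¹, 1, 1, 1, 1]) = _
    rw [Matrix.single_one_vecMul]
    funext i
    by_cases h : i = 0
    · subst h
      simp
    · simp [h, Matrix.diagonal_apply_ne _ (Ne.symm h)]
  rw [h2] at h1
  exact h1

theorem comm_ne (z w : T6) (hz : z = tra (Pi.single 0 (ofG mU⁻¹))) (hw : w = k6 (Sum.inr 0)) :
    z * w * z⁻¹ * w⁻¹ ≠ 1 := by
  intro h
  have h0 : w * z * w⁻¹ = z := by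
    have : z * w * z⁻¹ * w⁻¹ = z * (w * z * w⁻¹)⁻¹ := by group
    rw [this, mul_inv_eq_one] at h
    exact h.symm
  subst hz hw
  have h1 := inr_tra ⟨kB (Sum.inr 0), kB_mem_St (Sum.inr 0)⟩ (Pi.single 0 (ofG mU⁻¹))
  have h2 : (Pi.single 0 (ofG mU⁻¹) : W6) ᵥ* ((((⟨kB (Sum.inr 0), kB_mem_St (Sum.inr 0)⟩ : St) :
      U6)⁻¹ : U6) : Matrix (Fin 6) (Fin 6) RR) =
      Pi.single 0 (ofG mU⁻¹) + Pi.single 3 ((Pi.single 0 (ofG mU⁻¹) : W6) 0 * -1) :=
    vec_EE_inv _ (by decide) 1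
  rw [h2, tra_add] at h1
  have h3 : tra (Pi.single 0 (ofG mU⁻¹)) = tra (Pi.single 0 (ofG mU⁻¹)) *
      tra (Pi.single 3 ((Pi.single 0 (ofG mU⁻¹) : W6) 0 * -1)) := h0.symm.trans h1
  have h4 := (mul_eq_left.1 h3.symm)
  rw [tra_eq_one] at h4
  have h5 := h4.2.2.2 3
  rw [Pi.single_eq_same, Pi.single_eq_same, mul_neg_one] at h5
  have h6 := Rp.neg_mem h5
  rw [neg_neg] at h6
  refine ofG_not_mem_Rp (g := mU⁻¹) (i := 0) (j := 1) ?_ h6
  decide

end G1d

open G1d

/-- TARGET -/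
theorem t6_data : Countable T6 ∧ Infinite A6 ∧ (∀ a : A6, 127 • a = 0) ∧
    ∃ (P : Set T6) (v z w : T6), P ⊆ Subgroup.closure (Set.range s6) ∧
      (∀ i, s6 i ∈ Subgroup.closure P) ∧ (∀ j, k6 j ∈ Subgroup.closure (Set.range s6)) ∧
      (∀ v ∈ P, ∀ j, v * k6 j * v⁻¹ ∈ Subgroup.closure (Set.range k6)) ∧ v ∈ P ∧
      z ∈ Subgroup.closure (Set.range s6) ∧ (∀ j, Commute z (v * k6 j * v⁻¹)) ∧
      w ∈ Subgroup.closure (Set.range k6) ∧ z * w * z⁻¹ * w⁻¹ ≠ 1 := by
  refine ⟨countable_T6, infinite_A6, torsion, PP, vv, vv * z0 * vv⁻¹, k6 (Sum.inr 0), ?_, ?_, ?_,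
    PP_conj, ?_, ?_, ?_, Subgroup.subset_closure ⟨_, rfl⟩, comm_ne _ _ zz_eq rfl⟩
  · rintro x (rfl | ⟨g, rfl, hg, -⟩)
    · exact z0_mem
    · exact inr_mem_s6 g hg
  · rintro (i | i)
    · refine lift_mem (S := {v : (Matrix (Fin 6) (Fin 6) RR)ˣ |
        v ∈ Subgroup.closure (Set.range sB) ∧
        ∀ l, v * kB l * v⁻¹ ∈ Subgroup.closure (Set.range kB)})
        (fun s hs => closure_sB_le hs.1) _ ?_ ⟨sB i, sB_mem_St i⟩ (sB_mem_P i)
      intro s hs
      exact Subgroup.subset_closure (Or.inr ⟨⟨s, closure_sB_le hs.1⟩, rfl, hs.1, hs.2⟩)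
    · exact Subgroup.subset_closure (Or.inl rfl)
  · intro j
    exact inr_mem_s6 ⟨kB j, kB_mem_St j⟩ (kB_mem j)
  · exact Or.inr ⟨⟨dB, dB_St⟩, rfl, dB_mem, dB_conj⟩
  · have hv : vv ∈ Subgroup.closure (Set.range s6) := inr_mem_s6 ⟨dB, dB_St⟩ dB_mem
    exact Subgroup.mul_mem _ (Subgroup.mul_mem _ hv z0_mem) (Subgroup.inv_mem _ hv)
  · intro j
    rw [Commute.conj_iff]
    exact z0_comm j

end Pool.Agent.Helper784QW
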