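import Pool.Agent.Helper784QW.Spec

/-!
# A locally finite ICC group containing a given elementary abelian group equivariantly

`N` is the group of the permutations of `A` which agree with a translation outside a finite set.
-/

set_option autoImplicit false

open scoped InnerProductSpace ComplexOrder

namespace Pool.Agent.Helper784QW

open Matrix Pool.Agent.W661.RC Pool.Agent.W683.RC

namespace G2

/-- the group of near translations -/
def NT (A : Type) [AddCommGroup A] : Subgroup (Equiv.Perm A) where
  carrier := NearTrans A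
  mul_mem' := by
    rintro π σ ⟨a, ha⟩ ⟨b, hb⟩
    refine ⟨a + b, ?_⟩
    refine (hb.union (ha.preimage (f := fun x => b + x) ((add_right_injective b).injOn))).subset ?_
    intro x hx
    simp only [Set.mem_setOf_eq, Set.mem_union, Set.mem_preimage] at hx ⊢
    by_contra hcon
    push Not at hcon
    apply hx
    rw [Equiv.Perm.mul_apply, hcon.1, hcon.2, add_assoc]
  one_mem' := ⟨0, by simp⟩
  inv_mem' := by
    rintro π ⟨a, ha⟩
    refine ⟨-a, ?_⟩
    refine (ha.preimage (f := fun x => -a + x) ((add_right_injective (-a)).injOn)).subset ?_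
    intro x hx
    simp only [Set.mem_setOf_eq, Set.mem_preimage] at hx ⊢
    intro h
    apply hx
    rw [Equiv.Perm.inv_eq_iff_eq, h]
    simp

variable {A : Type} [AddCommGroup A]

theorem mem_NT {π : Equiv.Perm A} : π ∈ NT A ↔ ∃ a : A, {x | π x ≠ a + x}.Finite := Iff.rfl

/-- the translations -/
def tr : Multiplicative A →* NT A where
  toFun a := ⟨Equiv.addLeft a.toAdd, ⟨a.toAdd, by simp⟩⟩
  map_one' := by
    apply Subtype.ext
    ext x
    simp
  map_mul' a b := by
    apply Subtype.ext
    ext x
    simp [add_assoc]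

theorem tr_apply (a : Multiplicative A) (x : A) : ((tr a : NT A) : Equiv.Perm A) x = a.toAdd + x := rfl

theorem tr_inj : Function.Injective (tr : Multiplicative A →* NT A) := by
  intro a b hab
  have h := congrArg (fun π : NT A => (π : Equiv.Perm A) 0) hab
  simp only [tr_apply, add_zero] at h
  exact Multiplicative.toAdd.injective h

section conj

variable {G : Type} [Group G] (φ : G →* MulAut (Multiplicative A))

/-- the automorphisms as permutations of `A` -/
def ph (g : G) : Equiv.Perm A := (Multiplicative.ofAdd.trans (φ g).toEquiv).trans Multiplicative.toAdd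

theorem ph_apply (g : G) (x : A) : ph φ g x = (φ g (Multiplicative.ofAdd x)).toAdd := rfl

theorem ph_add (g : G) (x y : A) : ph φ g (x + y) = ph φ g x + ph φ g y := by
  simp [ph_apply]

theorem ph_mul (g h : G) : ph φ (g * h) = ph φ g * ph φ h := by
  ext x
  simp [ph_apply]

theorem ph_one : ph φ 1 = 1 := by
  ext x
  simp [ph_apply]

theorem ph_inv (g : G) : ph φ g⁻¹ = (ph φ g)⁻¹ := by
  rw [eq_inv_iff_mul_eq_one, ← ph_mul, inv_mul_cancel, ph_one]

theorem conj_mem (g : G) {π : Equiv.Perm A} (hπ : π ∈ NT A) : ph φ g * π * (ph φ g)⁻¹ ∈ NT A := by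
  obtain ⟨a, ha⟩ := hπ
  refine ⟨ph φ g a, (ha.image (ph φ g)).subset ?_⟩
  intro x hx
  refine ⟨(ph φ g)⁻¹ x, ?_, by simp⟩
  intro h
  apply hx
  rw [Equiv.Perm.mul_apply, Equiv.Perm.mul_apply, h, ph_add]
  simp

/-- conjugation -/
def psi : G →* MulAut (NT A) where
  toFun g :=
    { toFun := fun π => ⟨ph φ g * π * (ph φ g)⁻¹, conj_mem φ g π.2⟩
      invFun := fun π => ⟨ph φ g⁻¹ * π * (ph φ g⁻¹)⁻¹, conj_mem φ g⁻¹ π.2⟩
      left_inv := by
        intro π
        apply Subtype.ext
        simp only [ph_inv]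
        group
      right_inv := by
        intro π
        apply Subtype.ext
        simp only [ph_inv]
        group
      map_mul' := by
        intro π σ
        apply Subtype.ext
        simp only [Subgroup.coe_mul]
        group }
  map_one' := by
    ext1 π
    apply Subtype.ext
    simp [ph_one]
  map_mul' g h := by
    ext1 π
    apply Subtype.ext
    simp only [ph_mul, MulAut.mul_apply, MulEquiv.coe_mk, Equiv.coe_fn_mk]
    group

theorem psi_coe (g : G) (π : NT A) :
    ((psi φ g π : NT A) : Equiv.Perm A) = ph φ g * π * (ph φ g)⁻¹ := rfl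

theorem psi_tr (g : G) (a : Multiplicative A) : psi φ g (tr a) = tr (φ g a) := by
  apply Subtype.ext
  rw [psi_coe]
  ext x
  rw [Equiv.Perm.mul_apply, Equiv.Perm.mul_apply, tr_apply, tr_apply, ph_add]
  simp [ph_apply]

end conj

theorem countable_NT [Countable A] : Countable (NT A) := by
  classical
  choose a ha using fun π : NT A => π.2
  let f : NT A → A × (A →₀ A) := fun π => (a π, Finsupp.ofSupportFinite
    (fun x => (π : Equiv.Perm A) x - (a π + x)) (by
      refine (ha π).subset ?_
      intro x hx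
      simp only [Function.mem_support, ne_eq, sub_eq_zero] at hx
      exact hx))
  apply Function.Injective.countable (f := f)
  intro π σ h
  have h1 : a π = a σ := congrArg Prod.fst h
  have h2 := congrArg Prod.snd h
  apply Subtype.ext
  ext x
  have h3 := DFunLike.congr_fun h2 x
  simp only [f, Finsupp.ofSupportFinite_coe, h1] at h3
  simpa using h3

theorem swap_mem [DecidableEq A] (a b : A) : Equiv.swap a b ∈ NT A := by
  refine ⟨0, (Set.toFinite ({a, b} : Set A)).subset ?_⟩
  intro x hx
  by_contra hcon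
  simp only [Set.mem_insert_iff, Set.mem_singleton_iff, not_or] at hcon
  apply hx
  rw [Equiv.swap_apply_of_ne_of_ne hcon.1 hcon.2, zero_add]

theorem icc_NT [Infinite A] : ICC (NT A) := by
  classical
  intro π hπ hfin
  have hx : ∃ x, (π : Equiv.Perm A) x ≠ x := by
    by_contra hcon
    push Not at hcon
    apply hπ
    apply Subtype.ext
    ext x
    simpa using hcon x
  obtain ⟨x, hx⟩ := hx
  have hfin2 := hfin.image (fun ρ : NT A => (ρ : Equiv.Perm A) x)
  have hinf : ({x, (π : Equiv.Perm A) x} : Set A)ᶜ.Infinite := (Set.toFinite _).infinite_compl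
  apply hinf
  refine hfin2.subset ?_
  intro y hy
  simp only [Set.mem_compl_iff, Set.mem_insert_iff, Set.mem_singleton_iff, not_or] at hy
  refine ⟨_, ⟨⟨Equiv.swap ((π : Equiv.Perm A) x) y, swap_mem _ _⟩, rfl⟩, ?_⟩
  simp only [Subgroup.coe_mul, InvMemClass.coe_inv, Equiv.swap_inv, Equiv.Perm.mul_apply]
  rw [Equiv.swap_apply_of_ne_of_ne (Ne.symm hx) (Ne.symm hy.1), Equiv.swap_apply_left]

/-- permutations which are translations by elements of `B` outside `F` -/
def KK (B : AddSubgroup A) (F : Set A) (hF : ∀ b ∈ B, ∀ x ∈ F, b + x ∈ F) : Subgroup (NT A) where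
  carrier := {π | ∃ b ∈ B, ∀ x ∉ F, (π : Equiv.Perm A) x = b + x}
  mul_mem' := by
    rintro π σ ⟨b, hb, h1⟩ ⟨c, hc, h2⟩
    refine ⟨b + c, add_mem hb hc, fun x hx => ?_⟩
    have h3 : c + x ∉ F := by
      intro h
      apply hx
      have := hF (-c) (neg_mem hc) _ h
      simpa using this
    rw [Subgroup.coe_mul, Equiv.Perm.mul_apply, h2 x hx, h1 _ h3, add_assoc]
  one_mem' := ⟨0, zero_mem _, by simp⟩
  inv_mem' := by
    rintro π ⟨b, hb, h1⟩
    refine ⟨-b, neg_mem hb, fun x hx => ?_⟩
    have h3 : -b + x ∉ F := by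
      intro h
      apply hx
      have := hF b hb _ h
      simpa using this
    have h4 := h1 _ h3
    rw [InvMemClass.coe_inv, Equiv.Perm.inv_eq_iff_eq, h4]
    simp

theorem KK_fin (B : AddSubgroup A) (F : Set A) (hF : ∀ b ∈ B, ∀ x ∈ F, b + x ∈ F)
    (hB : (B : Set A).Finite) (hF2 : F.Finite) : ((KK B F hF : Subgroup (NT A)) : Set (NT A)).Finite := by
  classical
  haveI : Finite B := hB
  haveI : Finite F := hF2
  choose b hb h1 using fun π : KK B F hF => π.2
  have hpres : ∀ (π : KK B F hF) (x : F), ((π : NT A) : Equiv.Perm A) x ∈ F := by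
    intro π x
    by_contra hcon
    have h3 : -b π + ((π : NT A) : Equiv.Perm A) x ∉ F := by
      intro h
      apply hcon
      have := hF (b π) (hb π) _ h
      simpa using this
    have h4 := h1 π _ h3
    rw [add_neg_cancel_left] at h4
    have h5 := ((π : NT A) : Equiv.Perm A).injective h4
    rw [h5] at h3
    exact h3 x.2
  have : Finite (KK B F hF) := by
    apply Finite.of_injective (fun π : KK B F hF => ((⟨b π, hb π⟩ : B),
      (fun x : F => (⟨((π : NT A) : Equiv.Perm A) x, hpres π x⟩ : F))))
    intro π σ h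
    have h2 : b π = b σ := congrArg (fun q => (q.1 : A)) h
    have h3 := congrArg Prod.snd h
    apply Subtype.ext
    apply Subtype.ext
    ext x
    by_cases hx : x ∈ F
    · have h4 := congrFun h3 ⟨x, hx⟩
      exact congrArg Subtype.val h4
    · rw [h1 π x hx, h1 σ x hx, h2]
  exact this

theorem locFin_NT (p : ℕ) (hp : 0 < p) (hA : ∀ a : A, p • a = 0) : LocFin (NT A) := by
  classical
  intro s
  choose a ha using fun π : NT A => π.2
  let B : AddSubgroup A := AddSubgroup.closure (s.image a : Set A)
  have hB : (B : Set A).Finite := by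
    haveI : AddGroup.FG B := by
      rw [AddGroup.fg_iff_addSubgroup_fg]
      exact ⟨s.image a, rfl⟩
    have : Finite B := by
      apply AddCommGroup.finite_of_fg_torsion
      intro x
      rw [isOfFinAddOrder_iff_nsmul_eq_zero]
      refine ⟨p, hp, ?_⟩
      apply Subtype.ext
      simpa using hA x
    exact this
  let F0 : Set A := ⋃ π ∈ s, {x | (π : Equiv.Perm A) x ≠ a π + x}
  have hF0 : F0.Finite := s.finite_toSet.biUnion (fun π _ => ha π)
  let F : Set A := Set.image2 (fun b x => b + x) (B : Set A) F0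
  have hF : F.Finite := Set.Finite.image2 _ hB hF0
  have hinv : ∀ b ∈ B, ∀ x ∈ F, b + x ∈ F := by
    rintro b hb x ⟨c, hc, y, hy, rfl⟩
    exact ⟨b + c, add_mem hb hc, y, hy, by simp [add_assoc]⟩
  refine ⟨KK B F hinv, KK_fin B F hinv hB hF, ?_⟩
  intro π hπ
  refine ⟨a π, AddSubgroup.subset_closure (Finset.mem_coe.2 (Finset.mem_image_of_mem a (Finset.mem_coe.1 hπ))), ?_⟩
  intro x hx
  by_contra hcon
  apply hx
  refine ⟨0, zero_mem B, x, ?_, by simp⟩
  exact Set.mem_biUnion (show π ∈ (s : Set (NT A)) from hπ) hcon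

end G2

theorem exists_N {A : Type} [AddCommGroup A] [Countable A] [Infinite A] (p : ℕ) (hp : 0 < p)
    (hA : ∀ a : A, p • a = 0) {G : Type} [Group G] (φ : G →* MulAut (Multiplicative A)) :
    ∃ (N : Type) (_ : Group N) (ψ : G →* MulAut N) (i : Multiplicative A →* N), Countable N ∧
      Infinite N ∧ ICC N ∧ LocFin N ∧ Function.Injective i ∧ ∀ g a, ψ g (i a) = i (φ g a) :=
  ⟨G2.NT A, inferInstance, G2.psi φ, G2.tr, G2.countable_NT,
    Infinite.of_injective (G2.tr : Multiplicative A →* G2.NT A) G2.tr_inj, G2.icc_NT,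
    G2.locFin_NT p hp hA, G2.tr_inj, G2.psi_tr φ⟩

end Pool.Agent.Helper784QW
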