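import Pool.Agent.Helper784QW.Spec

set_option autoImplicit false

open scoped InnerProductSpace ComplexOrder

namespace Pool.Agent.Helper784QW

open Matrix Pool.Agent.W661.RC Pool.Agent.W683.RC

/-- permutation matrix of left multiplication -/
noncomputable def lmat {P : Type} [Group P] {n : ℕ} (e : P ≃ Fin n) (x : P) : Matrix (Fin n) (Fin n) ℂ :=
  open Classical in Matrix.of fun i j => if x * e.symm j = e.symm i then 1 else 0

theorem lmat_mul {P : Type} [Group P] {n : ℕ} (e : P ≃ Fin n) (x y : P) :
    lmat e (x * y) = lmat e x * lmat e y := by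
  classical
  ext i j
  rw [Matrix.mul_apply, Finset.sum_eq_single (e (y * e.symm j))]
  · simp [lmat, mul_assoc]
  · intro k _ hk
    have : ¬ (y * e.symm j = e.symm k) := by
      intro h
      apply hk
      rw [h]; simp
    simp [lmat, this]
  · intro h
    exact absurd (Finset.mem_univ _) h

theorem lmat_one {P : Type} [Group P] {n : ℕ} (e : P ≃ Fin n) : lmat e 1 = 1 := by
  classical
  ext i j
  by_cases h : i = j
  · subst h
    simp [lmat]
  · have : ¬ (j = i) := fun hh => h hh.symm
    simp [lmat, h, this]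

theorem lmat_star {P : Type} [Group P] {n : ℕ} (e : P ≃ Fin n) (x : P) :
    star (lmat e x) = lmat e x⁻¹ := by
  classical
  ext i j
  simp only [Matrix.star_apply, lmat, Matrix.of_apply]
  have : (x * e.symm i = e.symm j) ↔ (x⁻¹ * e.symm j = e.symm i) := by
    rw [inv_mul_eq_iff_eq_mul]
    exact eq_comm
  by_cases h : x * e.symm i = e.symm j
  · rw [if_pos h, if_pos (this.1 h)]; simp
  · rw [if_neg h, if_neg (fun hh => h (this.2 hh))]; simp

theorem lmat_trace {P : Type} [Group P] {n : ℕ} (e : P ≃ Fin n) (x : P) (hx : x ≠ 1) :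
    Matrix.trace (lmat e x) = 0 := by
  classical
  rw [Matrix.trace]
  apply Finset.sum_eq_zero
  intro i _
  have : ¬ (x * e.symm i = e.symm i) := by
    intro h
    exact hx (mul_eq_right.1 h)
  simp [lmat, this]

theorem lmat_unitary {P : Type} [Group P] {n : ℕ} (e : P ≃ Fin n) (x : P) :
    lmat e x ∈ Matrix.unitaryGroup (Fin n) ℂ := by
  rw [Matrix.mem_unitaryGroup_iff]
  rw [lmat_star, ← lmat_mul, mul_inv_cancel, lmat_one]

/-- TARGET -/
theorem hyperlinear_of_RF {G : Type} [Group G] (h : ResiduallyFinite G) : Hyperlinear G := by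
  classical
  intro A ε hε
  choose Q gQ fQ f hf using h
  let I : Type := {a : G // a ∈ A ∧ a ≠ 1}
  have : Finite I := by
    have : Finite {a : G // a ∈ A} := inferInstance
    exact Finite.of_injective (fun a : I => (⟨a.1, a.2.1⟩ : {a : G // a ∈ A})) (by
      intro a b hab
      apply Subtype.ext
      exact congrArg (fun z : {a : G // a ∈ A} => z.1) hab)
  let R : I → Type := fun a => Q a.1 a.2.2
  letI gR : ∀ a : I, Group (R a) := fun a => gQ a.1 a.2.2
  have fR : ∀ a : I, Finite (R a) := fun a => fQ a.1 a.2.2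
  let P : Type := ∀ a : I, R a
  have : Finite P := Pi.finite
  let F : G →* P := MonoidHom.pi (fun a : I => (f a.1 a.2.2 : G →* R a))
  let e : P ≃ Fin (Nat.card P) := Finite.equivFin P
  refine ⟨Nat.card P, fun g => ⟨lmat e (F g), lmat_unitary e (F g)⟩, ?_, ?_, ?_⟩
  · exact Nat.card_pos
  · intro a _ b _
    have : lmat e (F (a * b)) - lmat e (F a) * lmat e (F b) = 0 := by
      rw [map_mul, lmat_mul, sub_self]
    change nrm (lmat e (F (a * b)) - lmat e (F a) * lmat e (F b)) < ε
    rw [this]
    simpa [nrm] using hε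
  · intro a ha ha1
    have h1 : F a ≠ 1 := by
      intro h
      have := congrFun h (⟨a, ha, ha1⟩ : I)
      exact hf a ha1 this
    change ‖Matrix.trace (lmat e (F a))‖ < ε * (Nat.card P : ℕ)
    rw [lmat_trace e _ h1, norm_zero]
    have : (0 : ℝ) < (Nat.card P : ℕ) := by exact_mod_cast Nat.card_pos
    positivity

end Pool.Agent.Helper784QW
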