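import Pool.Agent.Helper784QW.Spec

/-!
# K3: approximation of a state by normal states with small commutators in trace norm
-/

set_option autoImplicit false
set_option linter.unusedSectionVars false

open scoped InnerProductSpace ComplexOrder

namespace Pool.Agent.Helper784QW

open Matrix Pool.Agent.W661.RC Pool.Agent.W683.RC

section S3aux

variable {K : Type} [NormedAddCommGroup K] [InnerProductSpace ℂ K] [CompleteSpace K]

/-- the functional `T ↦ ⟪α, T β⟫` -/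
noncomputable def s3om (α β : K) : (K →L[ℂ] K) →L[ℂ] ℂ :=
  (innerSL ℂ α) ∘L (ContinuousLinearMap.apply ℂ K β)

lemma s3om_apply (α β : K) (T : K →L[ℂ] K) : s3om α β T = ⟪α, T β⟫_ℂ := rfl

lemma s3om_norm (α β : K) : ‖s3om α β‖ ≤ ‖α‖ * ‖β‖ := by
  refine ContinuousLinearMap.opNorm_le_bound _ (by positivity) fun T => ?_
  rw [s3om_apply]
  calc ‖⟪α, T β⟫_ℂ‖ ≤ ‖α‖ * ‖T β‖ := norm_inner_le_norm _ _
    _ ≤ ‖α‖ * (‖T‖ * ‖β‖) := by gcongr; exact T.le_opNorm β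
    _ = ‖α‖ * ‖β‖ * ‖T‖ := by ring

lemma s3om_add_left (a b c : K) : s3om (a + b) c = s3om a c + s3om b c := by
  ext T; simp [s3om_apply]

lemma s3om_add_right (a b c : K) : s3om a (b + c) = s3om a b + s3om a c := by
  ext T; simp [s3om_apply]

lemma s3om_smul_left (z : ℂ) (a b : K) : s3om (z • a) b = (starRingEnd ℂ z) • s3om a b := by
  ext T; simp [s3om_apply, mul_comm]

lemma s3om_smul_right (z : ℂ) (a b : K) : s3om a (z • b) = z • s3om a b := by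
  ext T; simp [s3om_apply]

/-- representation of a functional on rank-one normal functionals by an operator -/
lemma s3rep (F : ((K →L[ℂ] K) →L[ℂ] ℂ) →L[ℂ] ℂ) :
    ∃ S : K →L[ℂ] K, ∀ α β : K, F (s3om α β) = ⟪α, S β⟫_ℂ := by
  let B : K →L⋆[ℂ] K →L[ℂ] ℂ := LinearMap.mkContinuous₂
    (LinearMap.mk₂'ₛₗ (starRingEnd ℂ) (RingHom.id ℂ) (fun α β => F (s3om α β))
      (fun a b c => by rw [s3om_add_left, map_add])
      (fun c a b => by rw [s3om_smul_left, map_smul])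
      (fun a b c => by rw [s3om_add_right, map_add])
      (fun c a b => by rw [s3om_smul_right, map_smul]; rfl)) ‖F‖ (fun a b => by
        show ‖F (s3om a b)‖ ≤ _
        calc ‖F (s3om a b)‖ ≤ ‖F‖ * ‖s3om a b‖ := F.le_opNorm _
          _ ≤ ‖F‖ * (‖a‖ * ‖b‖) := by gcongr; exact s3om_norm a b
          _ = ‖F‖ * ‖a‖ * ‖b‖ := by ring)
  refine ⟨ContinuousLinearMap.adjoint (InnerProductSpace.continuousLinearMapOfBilin B),
    fun α β => ?_⟩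
  rw [ContinuousLinearMap.adjoint_inner_right, InnerProductSpace.continuousLinearMapOfBilin_apply]
  rfl

/-- a positive functional is monotone on self-adjoint elements -/
lemma s3pos (ψ : (K →L[ℂ] K) →ₗ[ℂ] ℂ) (hp : ∀ T, 0 ≤ ψ (star T * T)) (Z : K →L[ℂ] K) (hZ : 0 ≤ Z) :
    0 ≤ ψ Z := by
  obtain ⟨W, hW⟩ := CStarAlgebra.nonneg_iff_eq_star_mul_self.mp hZ
  rw [hW]
  exact hp W

lemma s3real (ψ : (K →L[ℂ] K) →ₗ[ℂ] ℂ) (hp : ∀ T, 0 ≤ ψ (star T * T)) (h1 : ψ 1 = 1)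
    (A : K →L[ℂ] K) (hA : IsSelfAdjoint A) : (ψ A).im = 0 := by
  have h := s3pos ψ hp _ (sub_nonneg.mpr (IsSelfAdjoint.le_algebraMap_norm_self hA))
  rw [map_sub, Algebra.algebraMap_eq_smul_one] at h
  have h2 : ψ (‖A‖ • (1 : K →L[ℂ] K)) = (‖A‖ : ℂ) := by
    have : (‖A‖ • (1 : K →L[ℂ] K)) = ((‖A‖ : ℂ)) • (1 : K →L[ℂ] K) := by
      ext x; simp
    rw [this, map_smul, h1, smul_eq_mul, mul_one]
  rw [h2] at h
  have h3 := (Complex.le_def.mp h).2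
  simpa using h3

/-- lower bound for a state from a lower bound of the numerical range -/
lemma s3lower (ψ : (K →L[ℂ] K) →ₗ[ℂ] ℂ) (hp : ∀ T, 0 ≤ ψ (star T * T)) (h1 : ψ 1 = 1)
    (Y : K →L[ℂ] K) (u : ℝ) (hY : ∀ ζ : K, ‖ζ‖ = 1 → u ≤ (⟪ζ, Y ζ⟫_ℂ).re) : u ≤ (ψ Y).re := by
  have hY2 : ∀ ζ : K, u * ‖ζ‖ ^ 2 ≤ (⟪ζ, Y ζ⟫_ℂ).re := by
    intro ζ
    by_cases hz : ζ = 0
    · subst hz; simp
    have hn : ‖ζ‖ ≠ 0 := norm_ne_zero_iff.mpr hz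
    have h := hY ((‖ζ‖⁻¹ : ℂ) • ζ) (by
      rw [norm_smul, norm_inv, Complex.norm_real, norm_norm, inv_mul_cancel₀ hn])
    rw [map_smul, inner_smul_left, inner_smul_right] at h
    have h4 : (starRingEnd ℂ) (‖ζ‖⁻¹ : ℂ) * ((‖ζ‖⁻¹ : ℂ) * ⟪ζ, Y ζ⟫_ℂ)
        = (((‖ζ‖⁻¹) ^ 2 : ℝ) : ℂ) * ⟪ζ, Y ζ⟫_ℂ := by
      rw [map_inv₀, Complex.conj_ofReal]
      push_cast
      ring
    rw [h4, Complex.re_ofReal_mul] at h
    have h5 : u * ‖ζ‖ ^ 2 ≤ ((‖ζ‖⁻¹) ^ 2 * (⟪ζ, Y ζ⟫_ℂ).re) * ‖ζ‖ ^ 2 := by gcongr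
    calc u * ‖ζ‖ ^ 2 ≤ ((‖ζ‖⁻¹) ^ 2 * (⟪ζ, Y ζ⟫_ℂ).re) * ‖ζ‖ ^ 2 := h5
      _ = (⟪ζ, Y ζ⟫_ℂ).re := by field_simp
  set A : K →L[ℂ] K := (realPart Y : K →L[ℂ] K) with hA
  set B : K →L[ℂ] K := (imaginaryPart Y : K →L[ℂ] K) with hB
  have hAs : IsSelfAdjoint A := (realPart Y).2
  have hBs : IsSelfAdjoint B := (imaginaryPart Y).2
  have hdec : Y = A + Complex.I • B := (realPart_add_I_smul_imaginaryPart Y).symm
  have hinner : ∀ (C : K →L[ℂ] K), IsSelfAdjoint C → ∀ ζ : K, (⟪ζ, C ζ⟫_ℂ).im = 0 := by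
    intro C hC ζ
    have h : ⟪C ζ, ζ⟫_ℂ = ⟪ζ, C ζ⟫_ℂ := hC.isSymmetric ζ ζ
    rw [← inner_conj_symm] at h
    exact Complex.conj_eq_iff_im.mp h
  have hre : ∀ ζ : K, (⟪ζ, Y ζ⟫_ℂ).re = (⟪ζ, A ζ⟫_ℂ).re := by
    intro ζ
    conv_lhs => rw [hdec]
    rw [_root_.add_apply, _root_.smul_apply, inner_add_right,
      inner_smul_right, Complex.add_re, Complex.I_mul_re, hinner B hBs, neg_zero, add_zero]
  have hpos : 0 ≤ A - (u : ℂ) • (1 : K →L[ℂ] K) := by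
    rw [ContinuousLinearMap.nonneg_iff_isPositive, ContinuousLinearMap.isPositive_def']
    constructor
    · refine hAs.sub ?_
      rw [isSelfAdjoint_iff, star_smul, star_one]
      simp
    · intro ζ
      show 0 ≤ (⟪(A - (u : ℂ) • (1 : K →L[ℂ] K)) ζ, ζ⟫_ℂ).re
      rw [← inner_conj_symm, Complex.conj_re, _root_.sub_apply, _root_.smul_apply, inner_sub_right,
        inner_smul_right, Complex.sub_re, ← hre ζ]
      have h8 : ((u : ℂ) * ⟪ζ, (1 : K →L[ℂ] K) ζ⟫_ℂ).re = u * ‖ζ‖ ^ 2 := by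
        rw [Complex.re_ofReal_mul, one_apply_eq_self, inner_self_eq_norm_sq_to_K]
        norm_cast
      rw [h8]
      linarith [hY2 ζ]
  have h := s3pos ψ hp _ hpos
  rw [map_sub, map_smul, h1, smul_eq_mul, mul_one] at h
  have h6 := (Complex.le_def.mp h).1
  simp only [Complex.zero_re, Complex.sub_re, Complex.ofReal_re, sub_nonneg] at h6
  have h7 : (ψ Y).re = (ψ A).re := by
    rw [hdec, map_add, map_smul, smul_eq_mul, Complex.add_re, Complex.I_mul_re,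
      s3real ψ hp h1 B hBs, neg_zero, add_zero]
  rw [h7]; exact h6

/-- the vector of defects of a vector state -/
noncomputable def s3cv (ψ : (K →L[ℂ] K) →ₗ[ℂ] ℂ) (E X : Finset (K →L[ℂ] K)) (ζ : K) :
    (↥E → ((K →L[ℂ] K) →L[ℂ] ℂ)) × (↥X → ℂ) :=
  (fun e => s3om (star (e : K →L[ℂ] K) ζ) ζ - s3om ζ ((e : K →L[ℂ] K) ζ),
   fun x => ⟪ζ, (x : K →L[ℂ] K) ζ⟫_ℂ - ψ x)

lemma s3zero (ψ : (K →L[ℂ] K) →ₗ[ℂ] ℂ) (hp : ∀ T, 0 ≤ ψ (star T * T)) (h1 : ψ 1 = 1)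
    (E X : Finset (K →L[ℂ] K)) (hE : ∀ e ∈ E, ∀ T, ψ (e * T) = ψ (T * e)) :
    (0 : (↥E → ((K →L[ℂ] K) →L[ℂ] ℂ)) × (↥X → ℂ)) ∈
      closure (convexHull ℝ (s3cv ψ E X '' {ζ | ‖ζ‖ = 1})) := by
  classical
  by_contra hcon
  obtain ⟨F, u, h0, hu⟩ := RCLike.geometric_hahn_banach_point_closed (𝕜 := ℂ)
    (convex_convexHull ℝ _).closure isClosed_closure hcon
  rw [map_zero] at h0
  have hrep : ∀ e : ↥E, ∃ S : K →L[ℂ] K, ∀ α β : K,
      F (Pi.single e (s3om α β), 0) = ⟪α, S β⟫_ℂ := by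
    intro e
    exact s3rep (F ∘L (ContinuousLinearMap.inl ℂ (↥E → ((K →L[ℂ] K) →L[ℂ] ℂ)) (↥X → ℂ)) ∘L
      (ContinuousLinearMap.single ℂ (fun _ : ↥E => ((K →L[ℂ] K) →L[ℂ] ℂ)) e))
  choose S hS using hrep
  let lam : ↥X → ℂ := fun x => F (0, Pi.single x 1)
  have hF : ∀ (v : ↥E → ((K →L[ℂ] K) →L[ℂ] ℂ)) (w : ↥X → ℂ),
      F (v, w) = ∑ e, F (Pi.single e (v e), 0) + ∑ x, lam x * w x := by
    intro v w
    have e1 : (v, w) = ((v, 0) : (↥E → ((K →L[ℂ] K) →L[ℂ] ℂ)) × (↥X → ℂ)) + (0, w) := by simp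
    have e2 : ((v, 0) : (↥E → ((K →L[ℂ] K) →L[ℂ] ℂ)) × (↥X → ℂ))
        = ∑ e, (Pi.single e (v e), 0) := by
      rw [Prod.ext_iff]
      constructor
      · rw [Prod.fst_sum]
        exact (Finset.univ_sum_single v).symm
      · simp [Prod.snd_sum]
    have e3 : ((0, w) : (↥E → ((K →L[ℂ] K) →L[ℂ] ℂ)) × (↥X → ℂ))
        = ∑ x, w x • ((0, Pi.single x 1) : (↥E → ((K →L[ℂ] K) →L[ℂ] ℂ)) × (↥X → ℂ)) := by
      rw [Prod.ext_iff]
      constructor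
      · rw [Prod.fst_sum]
        exact (Finset.sum_eq_zero fun x _ => smul_zero _).symm
      · rw [Prod.snd_sum]
        funext y
        simp [Finset.sum_apply, Pi.single_apply]
    rw [e1, map_add, e2, map_sum, e3, map_sum]
    congr 1
    refine Finset.sum_congr rfl fun x _ => ?_
    rw [map_smul, smul_eq_mul, mul_comm]
  let Y : K →L[ℂ] K := ∑ e : ↥E, ((e : K →L[ℂ] K) * S e - S e * (e : K →L[ℂ] K))
    + ∑ x : ↥X, lam x • (x : K →L[ℂ] K)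
  have hψY : ψ Y = ∑ x : ↥X, lam x * ψ x := by
    show ψ (∑ e : ↥E, ((e : K →L[ℂ] K) * S e - S e * (e : K →L[ℂ] K))
      + ∑ x : ↥X, lam x • (x : K →L[ℂ] K)) = _
    rw [map_add, map_sum, map_sum, Finset.sum_eq_zero, zero_add]
    · refine Finset.sum_congr rfl fun x _ => ?_
      rw [map_smul, smul_eq_mul]
    · intro e _
      rw [map_sub, hE e e.2, sub_self]
  have hval : ∀ ζ : K, F (s3cv ψ E X ζ) = ⟪ζ, Y ζ⟫_ℂ - ψ Y := by
    intro ζ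
    rw [hψY]
    unfold s3cv
    rw [hF]
    have h3 : ⟪ζ, Y ζ⟫_ℂ = ∑ e : ↥E, (⟪star (e : K →L[ℂ] K) ζ, S e ζ⟫_ℂ
        - ⟪ζ, S e ((e : K →L[ℂ] K) ζ)⟫_ℂ) + ∑ x : ↥X, lam x * ⟪ζ, (x : K →L[ℂ] K) ζ⟫_ℂ := by
      show ⟪ζ, (∑ e : ↥E, ((e : K →L[ℂ] K) * S e - S e * (e : K →L[ℂ] K))
        + ∑ x : ↥X, lam x • (x : K →L[ℂ] K)) ζ⟫_ℂ = _
      rw [_root_.add_apply, inner_add_right, _root_.sum_apply, _root_.sum_apply,
        inner_sum, inner_sum]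
      congr 1
      · refine Finset.sum_congr rfl fun e _ => ?_
        rw [_root_.sub_apply, inner_sub_right, ContinuousLinearMap.star_eq_adjoint,
          ContinuousLinearMap.adjoint_inner_left]
        rfl
      · refine Finset.sum_congr rfl fun x _ => ?_
        rw [_root_.smul_apply, inner_smul_right]
    rw [h3]
    have h4 : ∀ e : ↥E, F (Pi.single e (s3om (star (e : K →L[ℂ] K) ζ) ζ
        - s3om ζ ((e : K →L[ℂ] K) ζ)), 0) = ⟪star (e : K →L[ℂ] K) ζ, S e ζ⟫_ℂ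
        - ⟪ζ, S e ((e : K →L[ℂ] K) ζ)⟫_ℂ := by
      intro e
      rw [← hS, ← hS, ← map_sub]
      congr 1
      rw [Pi.single_sub, Prod.mk_sub_mk, sub_zero]
    rw [Finset.sum_congr rfl fun e _ => h4 e, add_sub_assoc, ← Finset.sum_sub_distrib]
    congr 1
    refine Finset.sum_congr rfl fun x _ => ?_
    ring
  have hlow := s3lower ψ hp h1 Y (u + (ψ Y).re) (fun ζ hζ => by
    have h5 := hu _ (subset_closure (subset_convexHull ℝ _ ⟨ζ, hζ, rfl⟩))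
    rw [hval] at h5
    have h6 : (RCLike.re (⟪ζ, Y ζ⟫_ℂ - ψ Y) : ℝ) = (⟪ζ, Y ζ⟫_ℂ).re - (ψ Y).re := by
      show (⟪ζ, Y ζ⟫_ℂ - ψ Y).re = _
      rw [Complex.sub_re]
    rw [h6] at h5
    linarith)
  have h7 : (0 : ℝ) < u := by simpa using h0
  linarith

end S3aux

/-- TARGET -/
theorem s3 : S3 := by
  intro K _ _ _ ψ hp h1 E X hE ε hε
  have h0 := s3zero ψ hp h1 E X hE
  rw [Metric.mem_closure_iff] at h0
  obtain ⟨c, hc, hd⟩ := h0 ε hε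
  rw [dist_zero_left] at hd
  rw [mem_convexHull_iff_exists_fintype] at hc
  obtain ⟨ι, _, w, z, hw, hw1, hz, rfl⟩ := hc
  choose ζ hζ hzζ using hz
  let eq := (Fintype.equivFin ι).symm
  refine ⟨Fintype.card ι, fun k => w (eq k), fun k => ζ (eq k), fun k => hw _, ?_, fun k => hζ _,
    ?_, ?_⟩
  · rw [← hw1]; exact Equiv.sum_comp eq w
  · intro e he T
    have h2 : ‖(∑ i, w i • z i).1 ⟨e, he⟩‖ ≤ ε :=
      (norm_le_pi_norm _ _).trans ((norm_fst_le _).trans hd.le)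
    have h3 : (∑ i, w i • z i).1 ⟨e, he⟩ T = ∑ k, (w (eq k) : ℂ) *
        (⟪ζ (eq k), e (T (ζ (eq k)))⟫_ℂ - ⟪ζ (eq k), T (e (ζ (eq k)))⟫_ℂ) := by
      rw [Equiv.sum_comp eq (fun i => (w i : ℂ) *
        (⟪ζ i, e (T (ζ i))⟫_ℂ - ⟪ζ i, T (e (ζ i))⟫_ℂ)), Prod.fst_sum, Finset.sum_apply,
        _root_.sum_apply]
      refine Finset.sum_congr rfl fun i _ => ?_
      rw [← hzζ i]
      show (w i • (s3om (star e (ζ i)) (ζ i) - s3om (ζ i) (e (ζ i)))) T = _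
      rw [_root_.smul_apply, _root_.sub_apply, s3om_apply, s3om_apply,
        ContinuousLinearMap.star_eq_adjoint, ContinuousLinearMap.adjoint_inner_left]
      simp
    rw [← h3]
    exact (ContinuousLinearMap.le_opNorm _ _).trans (by gcongr)
  · intro x hx
    have h2 : ‖(∑ i, w i • z i).2 ⟨x, hx⟩‖ ≤ ε :=
      (norm_le_pi_norm _ _).trans ((norm_snd_le _).trans hd.le)
    have h3 : (∑ i, w i • z i).2 ⟨x, hx⟩ = ∑ k, (w (eq k) : ℂ) *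
        ⟪ζ (eq k), x (ζ (eq k))⟫_ℂ - ψ x := by
      rw [Equiv.sum_comp eq (fun i => (w i : ℂ) * ⟪ζ i, x (ζ i)⟫_ℂ), Prod.snd_sum, Finset.sum_apply]
      have h4 : ∀ i, (w i • z i).2 ⟨x, hx⟩ = (w i : ℂ) * ⟪ζ i, x (ζ i)⟫_ℂ - (w i : ℂ) * ψ x := by
        intro i
        rw [← hzζ i]
        show w i • (⟪ζ i, x (ζ i)⟫_ℂ - ψ x) = _
        rw [Complex.real_smul, mul_sub]
      rw [Finset.sum_congr rfl fun i _ => h4 i, Finset.sum_sub_distrib, ← Finset.sum_mul,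
        ← Complex.ofReal_sum, hw1]
      simp
    rw [← h3]
    exact h2

end Pool.Agent.Helper784QW
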