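import Pool.Agent.Helper784QW.Spec

/-!
JOB QW-K4a (owner helper784, MP_47effe_an). Files Helper784QW/{Defs,Base,Spec}.lean and W661/RC/Defs.lean, W683/RC/Bas.lean are on origin/main.
Diagonalisation of a density matrix.

PROOF. Let F be the span of the ζ_k, finite-dimensional, h : F → F, h x = Σ t_k ⟪ζ_k, x⟫ ζ_k, self-adjoint and positive. Take an orthonormal eigenbasis
 (LinearMap.IsSymmetric.eigenvectorBasis) v_i with eigenvalues l_i ≥ 0, i < N = finrank F. For T: Σ_k t_k ⟪ζ_k, T ζ_k⟫ = Σ_k t_k Σ_i ⟪ζ_k, T v_i⟫ ⟪v_i, ζ_k⟫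
 (expand the second ζ_k in the basis v_i) = Σ_i ⟪Σ_k t_k ⟪ζ_k, v_i⟫ ζ_k, T v_i⟫ (t_k real; careful with conjugations) = Σ_i l_i ⟪v_i, T v_i⟫. T = 1 gives Σ l_i = Σ t_k = 1.
-/

set_option autoImplicit false

open scoped InnerProductSpace ComplexOrder

namespace Pool.Agent.Helper784QW

open Matrix Pool.Agent.W661.RC Pool.Agent.W683.RC

theorem s4a_aux (K : Type) [NormedAddCommGroup K] [InnerProductSpace ℂ K]
  (m : ℕ) (t : Fin m → ℝ) (ζ : Fin m → K) (ht : ∀ k, 0 ≤ t k) (h1 : ∑ k, t k = 1)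
  (hζ : ∀ k, ‖ζ k‖ = 1) :
  ∃ (N : ℕ) (v : Fin N → K) (l : Fin N → ℝ), Orthonormal ℂ v ∧ (∀ i, 0 ≤ l i) ∧ ∑ i, l i = 1 ∧
    ∀ T : K →L[ℂ] K, ∑ k, (t k : ℂ) * ⟪ζ k, T (ζ k)⟫_ℂ = ∑ i, (l i : ℂ) * ⟪v i, T (v i)⟫_ℂ := by
  classical
  let F : Submodule ℂ K := Submodule.span ℂ (Set.range ζ)
  have : FiniteDimensional ℂ F := FiniteDimensional.span_of_finite ℂ (Set.finite_range ζ)
  let z : Fin m → F := fun k => ⟨ζ k, Submodule.subset_span ⟨k, rfl⟩⟩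
  let A : F →ₗ[ℂ] F := ∑ k, (t k : ℂ) • (innerₛₗ ℂ (z k)).smulRight (z k)
  have hA : ∀ x : F, A x = ∑ k, ((t k : ℂ) * ⟪z k, x⟫_ℂ) • z k := by
    intro x
    simp only [A, LinearMap.sum_apply, LinearMap.smul_apply, LinearMap.smulRight_apply,
      innerₛₗ_apply_apply, smul_smul]
  have hsym : A.IsSymmetric := by
    intro x y
    rw [hA, hA, sum_inner, inner_sum]
    refine Finset.sum_congr rfl fun k _ => ?_
    rw [inner_smul_left, inner_smul_right, map_mul, inner_conj_symm, Complex.conj_ofReal]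
    ring
  let b := hsym.eigenvectorBasis (n := Module.finrank ℂ F) rfl
  let l := hsym.eigenvalues (n := Module.finrank ℂ F) rfl
  have hb : ∀ i, A (b i) = (l i : ℂ) • b i := fun i => hsym.apply_eigenvectorBasis rfl i
  have key : ∀ i (w : K), ∑ k, (t k : ℂ) * (⟪(b i : K), ζ k⟫_ℂ * ⟪ζ k, w⟫_ℂ) =
      (l i : ℂ) * ⟪(b i : K), w⟫_ℂ := by
    intro i w
    have h2 : ((A (b i) : F) : K) = (l i : ℂ) • (b i : K) := by rw [hb]; rfl
    rw [hA] at h2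
    have h3 : (((∑ k, ((t k : ℂ) * ⟪z k, b i⟫_ℂ) • z k : F)) : K) =
        ∑ k, ((t k : ℂ) * ⟪ζ k, (b i : K)⟫_ℂ) • ζ k := by
      rw [Submodule.coe_sum]; rfl
    rw [h3] at h2
    have h4 := congrArg (fun u => ⟪u, w⟫_ℂ) h2
    simp only [sum_inner, inner_smul_left, map_mul, Complex.conj_ofReal, inner_conj_symm] at h4
    rw [← h4]
    exact Finset.sum_congr rfl fun k _ => by ring
  have hexp : ∀ k, ζ k = ∑ i, ⟪(b i : K), ζ k⟫_ℂ • (b i : K) := by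
    intro k
    have h5 := (b.sum_repr' (z k)).symm
    have h6 := congrArg (Subtype.val) h5
    rw [Submodule.coe_sum] at h6
    exact h6
  have htr : ∀ T : K →L[ℂ] K, ∑ k, (t k : ℂ) * ⟪ζ k, T (ζ k)⟫_ℂ =
      ∑ i, (l i : ℂ) * ⟪(b i : K), T (b i)⟫_ℂ := by
    intro T
    have h7 : ∀ k, ⟪ζ k, T (ζ k)⟫_ℂ = ∑ i, ⟪(b i : K), ζ k⟫_ℂ * ⟪ζ k, T (b i)⟫_ℂ := by
      intro k
      conv_lhs => rw [show T (ζ k) = T (∑ i, ⟪(b i : K), ζ k⟫_ℂ • (b i : K)) by rw [← hexp k]]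
      rw [map_sum, inner_sum]
      exact Finset.sum_congr rfl fun i _ => by rw [map_smul, inner_smul_right]
    simp only [h7, Finset.mul_sum]
    rw [Finset.sum_comm]
    exact Finset.sum_congr rfl fun i _ => key i (T (b i))
  have hnorm : ∀ i, ⟪(b i : K), (b i : K)⟫_ℂ = 1 := by
    intro i
    have h8 : ‖(b i : K)‖ = 1 := b.orthonormal.1 i
    rw [inner_self_eq_norm_sq_to_K, h8]; simp
  refine ⟨Module.finrank ℂ F, fun i => (b i : K), l, ?_, ?_, ?_, htr⟩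
  · exact b.orthonormal.comp_linearIsometry F.subtypeₗᵢ
  · intro i
    have h9 := key i (b i)
    rw [hnorm, mul_one] at h9
    have h10 : ∀ k, ⟪(b i : K), ζ k⟫_ℂ * ⟪ζ k, (b i : K)⟫_ℂ = ((‖⟪ζ k, (b i : K)⟫_ℂ‖ ^ 2 : ℝ) : ℂ) := by
      intro k
      rw [← inner_conj_symm, Complex.conj_mul']
      push_cast; rfl
    have h11 : (l i : ℂ) = ((∑ k, t k * ‖⟪ζ k, (b i : K)⟫_ℂ‖ ^ 2 : ℝ) : ℂ) := by
      rw [← h9]; push_cast
      exact Finset.sum_congr rfl fun k _ => by rw [h10]; push_cast; rfl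
    have h12 : l i = ∑ k, t k * ‖⟪ζ k, (b i : K)⟫_ℂ‖ ^ 2 := by exact_mod_cast h11
    rw [h12]
    exact Finset.sum_nonneg fun k _ => mul_nonneg (ht k) (by positivity)
  · have h13 := htr (ContinuousLinearMap.id ℂ K)
    simp only [ContinuousLinearMap.id_apply, hnorm, mul_one] at h13
    have h14 : ∀ k, ⟪ζ k, ζ k⟫_ℂ = 1 := by
      intro k
      rw [inner_self_eq_norm_sq_to_K, hζ]; simp
    simp only [h14, mul_one] at h13
    have : ((∑ k, t k : ℝ) : ℂ) = ((∑ i, l i : ℝ) : ℂ) := by push_cast; exact h13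
    have h15 : ∑ k, t k = ∑ i, l i := by exact_mod_cast this
    rw [← h15, h1]

/-- TARGET -/
theorem s4a : S4a := by
  intro K _ _ _ m t ζ ht h1 hζ
  exact s4a_aux K m t ζ ht h1 hζ

end Pool.Agent.Helper784QW
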