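import Pool.Agent.Helper784QW.Spec

/-!
# The Powers-Størmer inequality (MP_47effe_an, module K4b)
-/

set_option autoImplicit false

open scoped InnerProductSpace ComplexOrder

namespace Pool.Agent.Helper784QW

open Matrix Pool.Agent.W661.RC Pool.Agent.W683.RC

section PS

variable {K : Type} [NormedAddCommGroup K] [InnerProductSpace ℂ K]

/-- an orthonormal eigenbasis of a symmetric operator on a finite-dimensional invariant subspace -/
theorem ps_eig (F : Submodule ℂ K) [FiniteDimensional ℂ F] (x : K →ₗ[ℂ] K)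
    (hx : x.IsSymmetric) (hF : ∀ z, x z ∈ F) :
    ∃ (n : ℕ) (f : Fin n → K) (μ : Fin n → ℝ), Orthonormal ℂ f ∧ (∀ b, x (f b) = (μ b : ℂ) • f b) ∧
      ∀ z ∈ F, ∑ b, ⟪f b, z⟫_ℂ • f b = z := by
  have hinv : ∀ z ∈ F, x z ∈ F := fun z _ => hF z
  have hs : (x.restrict hinv).IsSymmetric := hx.restrict_invariant hinv
  let B := hs.eigenvectorBasis (rfl : Module.finrank ℂ F = Module.finrank ℂ F)
  refine ⟨Module.finrank ℂ F, fun b => (B b : K), hs.eigenvalues rfl, ?_, ?_, ?_⟩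
  · have := B.orthonormal
    exact this.comp_linearIsometry F.subtypeₗᵢ
  · intro b
    exact congrArg (Subtype.val) (hs.apply_eigenvectorBasis rfl b)
  · intro z hz
    have := B.sum_repr' (⟨z, hz⟩ : F)
    have h2 := congrArg (Subtype.val) this
    simpa using h2

/-- `∑ i, a i |v i⟩⟨v i|` -/
noncomputable def psop {N : ℕ} (v : Fin N → K) (a : Fin N → ℝ) : K →L[ℂ] K :=
  ∑ i, (a i : ℂ) • ((innerSL ℂ (v i)).smulRight (v i))

theorem psop_apply {N : ℕ} (v : Fin N → K) (a : Fin N → ℝ) (z : K) :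
    psop v a z = ∑ i, ((a i : ℂ) * ⟪v i, z⟫_ℂ) • v i := by
  simp only [psop, _root_.sum_apply, _root_.smul_apply,
    ContinuousLinearMap.smulRight_apply, innerSL_apply_apply, smul_smul]

theorem psop_symm {N : ℕ} (v : Fin N → K) (a : Fin N → ℝ) (y z : K) :
    ⟪psop v a y, z⟫_ℂ = ⟪y, psop v a z⟫_ℂ := by
  rw [psop_apply, psop_apply, sum_inner, inner_sum]
  refine Finset.sum_congr rfl fun i _ => ?_
  rw [inner_smul_left, inner_smul_right, map_mul, Complex.conj_ofReal, inner_conj_symm]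
  ring

theorem ps_nsq (x : K) : ((‖x‖ ^ 2 : ℝ) : ℂ) = ⟪x, x⟫_ℂ := by
  rw [Complex.ofReal_pow]; exact (inner_self_eq_norm_sq_to_K x).symm

/-- the squared norm of a linear combination of orthonormal vectors -/
theorem ps_norm_sum {N : ℕ} (f : Fin N → K) (hf : Orthonormal ℂ f) (c : Fin N → ℂ) :
    ‖∑ i, c i • f i‖ ^ 2 = ∑ i, ‖c i‖ ^ 2 := by
  have h2 : ((‖∑ i, c i • f i‖ ^ 2 : ℝ) : ℂ) = ((∑ i, ‖c i‖ ^ 2 : ℝ) : ℂ) := by
    rw [ps_nsq, hf.inner_sum]
    push_cast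
    exact Finset.sum_congr rfl fun i _ => Complex.conj_mul' (c i)
  exact_mod_cast h2

/-- norm of a diagonal operator with entries of modulus at most one -/
theorem psop_norm {N : ℕ} (f : Fin N → K) (hf : Orthonormal ℂ f) (s : Fin N → ℝ)
    (hs : ∀ b, s b ^ 2 ≤ 1) : ‖psop f s‖ ≤ 1 := by
  refine ContinuousLinearMap.opNorm_le_bound _ zero_le_one fun z => ?_
  rw [one_mul]
  refine le_of_sq_le_sq ?_ (norm_nonneg _)
  rw [psop_apply, ps_norm_sum f hf]
  calc ∑ b, ‖(s b : ℂ) * ⟪f b, z⟫_ℂ‖ ^ 2 ≤ ∑ b, ‖⟪f b, z⟫_ℂ‖ ^ 2 := by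
        refine Finset.sum_le_sum fun b _ => ?_
        rw [norm_mul, mul_pow, Complex.norm_real, Real.norm_eq_abs, sq_abs]
        exact mul_le_of_le_one_left (sq_nonneg _) (hs b)
    _ ≤ ‖z‖ ^ 2 := hf.sum_inner_products_le z

/-- Parseval in the span of `f` -/
theorem ps_pars {n : ℕ} (f : Fin n → K) (y z : K) (hz : ∑ b, ⟪f b, z⟫_ℂ • f b = z) :
    ∑ b, ⟪y, f b⟫_ℂ * ⟪f b, z⟫_ℂ = ⟪y, z⟫_ℂ := by
  conv_rhs => rw [← hz, inner_sum]
  refine Finset.sum_congr rfl fun b _ => ?_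
  rw [inner_smul_right, mul_comm]

/-- the main computation: for two orthonormal systems `v`, `w` with weights `a i`, `∑ a i ^ 2 = 1` -/
theorem ps_core {N n : ℕ} (v w : Fin N → K) (a : Fin N → ℝ) (ha : ∀ i, 0 ≤ a i)
    (ha1 : ∑ i, a i ^ 2 = 1) (hv : Orthonormal ℂ v) (hw : Orthonormal ℂ w)
    (f : Fin n → K) (μ : Fin n → ℝ) (hf : Orthonormal ℂ f)
    (hμ : ∀ b, psop v a (f b) - psop w a (f b) = (μ b : ℂ) • f b)
    (hfv : ∀ i, ∑ b, ⟪f b, v i⟫_ℂ • f b = v i) (hfw : ∀ i, ∑ b, ⟪f b, w i⟫_ℂ • f b = w i) :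
    2 - 2 * ∑ i, ∑ j, a i * a j * ‖⟪v j, w i⟫_ℂ‖ ^ 2 ≤
      ∑ b, (SignType.sign (μ b) : ℝ) *
        (∑ i, a i ^ 2 * ‖⟪v i, f b⟫_ℂ‖ ^ 2 - ∑ i, a i ^ 2 * ‖⟪w i, f b⟫_ℂ‖ ^ 2) := by
  set KK : Fin n → ℝ := fun b => ∑ i, a i * ‖⟪v i, f b⟫_ℂ‖ ^ 2 with hKK
  set KL : Fin n → ℝ := fun b => ∑ i, a i * ‖⟪w i, f b⟫_ℂ‖ ^ 2 with hKL
  set m : Fin n → ℂ := fun b => ∑ i, ∑ j,
    (a i : ℂ) * (a j : ℂ) * (⟪f b, v j⟫_ℂ * ⟪v j, w i⟫_ℂ * ⟪w i, f b⟫_ℂ) with hm
  have hsq : ∀ x y : K, ⟪x, y⟫_ℂ * ⟪y, x⟫_ℂ = ((‖⟪x, y⟫_ℂ‖ ^ 2 : ℝ) : ℂ) := by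
    intro x y
    rw [← inner_conj_symm y x, Complex.mul_conj']
    push_cast
    rfl
  have hin : ∀ (u : Fin N → K) (y z : K), ⟪y, psop u a z⟫_ℂ
      = ∑ i, (a i : ℂ) * ⟪u i, z⟫_ℂ * ⟪y, u i⟫_ℂ := by
    intro u y z
    rw [psop_apply, inner_sum]
    exact Finset.sum_congr rfl fun i _ => by rw [inner_smul_right]
  have hdiag : ∀ (u : Fin N → K), Orthonormal ℂ u → ∀ (j : Fin N) (z : K), ⟪u j, psop u a z⟫_ℂ
      = (a j : ℂ) * ⟪u j, z⟫_ℂ := by
    intro u hu j z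
    rw [psop_apply, hu.inner_right_sum _ (Finset.mem_univ j)]
  have hff : ∀ b, ⟪f b, f b⟫_ℂ = 1 := by
    intro b
    rw [← ps_nsq, hf.1 b]
    simp
  have E1 : ∀ b, KK b - KL b = μ b := by
    intro b
    have h := congrArg (fun z => ⟪f b, z⟫_ℂ) (hμ b)
    simp only [inner_sub_right, inner_smul_right, hff, hin] at h
    have h' : ((KK b - KL b : ℝ) : ℂ) = ((μ b : ℝ) : ℂ) := by
      rw [mul_one] at h
      rw [← h, hKK, hKL]
      push_cast
      congr 1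
      · refine Finset.sum_congr rfl fun i _ => ?_
        rw [mul_assoc, hsq]
        push_cast
        rfl
      · refine Finset.sum_congr rfl fun i _ => ?_
        rw [mul_assoc, hsq]
        push_cast
        rfl
    exact_mod_cast h'
  have E2 : ∀ b, ∑ i, a i ^ 2 * ‖⟪v i, f b⟫_ℂ‖ ^ 2 - (m b).re = μ b * KK b := by
    intro b
    have h : ((∑ i, a i ^ 2 * ‖⟪v i, f b⟫_ℂ‖ ^ 2 : ℝ) : ℂ) - m b = ((μ b * KK b : ℝ) : ℂ) := by
      have h1 : ∀ j, (a j : ℂ) * ⟪v j, f b⟫_ℂ - ∑ i, (a i : ℂ) * ⟪w i, f b⟫_ℂ * ⟪v j, w i⟫_ℂ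
          = (μ b : ℂ) * ⟪v j, f b⟫_ℂ := by
        intro j
        have h := congrArg (fun z => ⟪v j, z⟫_ℂ) (hμ b)
        simp only [inner_sub_right, inner_smul_right, hdiag v hv] at h
        rw [← h, hin]
      have h2 : ∑ j, (a j : ℂ) * ⟪f b, v j⟫_ℂ * ((a j : ℂ) * ⟪v j, f b⟫_ℂ
            - ∑ i, (a i : ℂ) * ⟪w i, f b⟫_ℂ * ⟪v j, w i⟫_ℂ)
          = ∑ j, (a j : ℂ) * ⟪f b, v j⟫_ℂ * ((μ b : ℂ) * ⟪v j, f b⟫_ℂ) :=
        Finset.sum_congr rfl fun j _ => by rw [h1 j]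
      have h3 : ∑ j, (a j : ℂ) * ⟪f b, v j⟫_ℂ * ((μ b : ℂ) * ⟪v j, f b⟫_ℂ)
          = ((μ b * KK b : ℝ) : ℂ) := by
        rw [hKK]
        push_cast
        rw [Finset.mul_sum]
        refine Finset.sum_congr rfl fun j _ => ?_
        have := hsq (v j) (f b)
        push_cast at this
        rw [← this]
        ring
      have h4 : ∑ j, (a j : ℂ) * ⟪f b, v j⟫_ℂ * ((a j : ℂ) * ⟪v j, f b⟫_ℂ
            - ∑ i, (a i : ℂ) * ⟪w i, f b⟫_ℂ * ⟪v j, w i⟫_ℂ)
          = ((∑ i, a i ^ 2 * ‖⟪v i, f b⟫_ℂ‖ ^ 2 : ℝ) : ℂ) - m b := by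
        simp only [mul_sub, Finset.sum_sub_distrib]
        congr 1
        · push_cast
          refine Finset.sum_congr rfl fun j _ => ?_
          have := hsq (v j) (f b)
          push_cast at this
          rw [← this]
          ring
        · rw [hm]
          simp only [Finset.mul_sum]
          rw [Finset.sum_comm]
          refine Finset.sum_congr rfl fun i _ => Finset.sum_congr rfl fun j _ => ?_
          ring
      rw [← h4, h2, h3]
    have h5 := congrArg Complex.re h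
    rw [Complex.sub_re, Complex.ofReal_re, Complex.ofReal_re] at h5
    exact h5
  have E3 : ∀ b, (m b).re - ∑ i, a i ^ 2 * ‖⟪w i, f b⟫_ℂ‖ ^ 2 = μ b * KL b := by
    intro b
    have h : (starRingEnd ℂ) (m b) - ((∑ i, a i ^ 2 * ‖⟪w i, f b⟫_ℂ‖ ^ 2 : ℝ) : ℂ)
        = ((μ b * KL b : ℝ) : ℂ) := by
      have h1 : ∀ j, ∑ i, (a i : ℂ) * ⟪v i, f b⟫_ℂ * ⟪w j, v i⟫_ℂ - (a j : ℂ) * ⟪w j, f b⟫_ℂ
          = (μ b : ℂ) * ⟪w j, f b⟫_ℂ := by
        intro j
        have h := congrArg (fun z => ⟪w j, z⟫_ℂ) (hμ b)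
        simp only [inner_sub_right, inner_smul_right, hdiag w hw] at h
        rw [← h, hin]
      have h2 : ∑ j, (a j : ℂ) * ⟪f b, w j⟫_ℂ * (∑ i, (a i : ℂ) * ⟪v i, f b⟫_ℂ * ⟪w j, v i⟫_ℂ
            - (a j : ℂ) * ⟪w j, f b⟫_ℂ)
          = ∑ j, (a j : ℂ) * ⟪f b, w j⟫_ℂ * ((μ b : ℂ) * ⟪w j, f b⟫_ℂ) :=
        Finset.sum_congr rfl fun j _ => by rw [h1 j]
      have h3 : ∑ j, (a j : ℂ) * ⟪f b, w j⟫_ℂ * ((μ b : ℂ) * ⟪w j, f b⟫_ℂ)
          = ((μ b * KL b : ℝ) : ℂ) := by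
        rw [hKL]
        push_cast
        rw [Finset.mul_sum]
        refine Finset.sum_congr rfl fun j _ => ?_
        have := hsq (w j) (f b)
        push_cast at this
        rw [← this]
        ring
      have h4 : ∑ j, (a j : ℂ) * ⟪f b, w j⟫_ℂ * (∑ i, (a i : ℂ) * ⟪v i, f b⟫_ℂ * ⟪w j, v i⟫_ℂ
            - (a j : ℂ) * ⟪w j, f b⟫_ℂ)
          = (starRingEnd ℂ) (m b) - ((∑ i, a i ^ 2 * ‖⟪w i, f b⟫_ℂ‖ ^ 2 : ℝ) : ℂ) := by
        simp only [mul_sub, Finset.sum_sub_distrib]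
        congr 1
        · rw [hm]
          simp only [map_sum, map_mul, Complex.conj_ofReal, inner_conj_symm, Finset.mul_sum]
          refine Finset.sum_congr rfl fun i _ => Finset.sum_congr rfl fun j _ => ?_
          ring
        · push_cast
          refine Finset.sum_congr rfl fun j _ => ?_
          have := hsq (w j) (f b)
          push_cast at this
          rw [← this]
          ring
      rw [← h4, h2, h3]
    have h5 := congrArg Complex.re h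
    rw [Complex.sub_re, Complex.ofReal_re, Complex.ofReal_re, Complex.conj_re] at h5
    exact h5
  -- the traces
  have hP : ∀ (u : Fin N → K), Orthonormal ℂ u → (∀ i, ∑ b, ⟪f b, u i⟫_ℂ • f b = u i) →
      ∑ b, ∑ i, a i ^ 2 * ‖⟪u i, f b⟫_ℂ‖ ^ 2 = 1 := by
    intro u hu hfu
    rw [Finset.sum_comm, ← ha1]
    refine Finset.sum_congr rfl fun i _ => ?_
    rw [← Finset.mul_sum]
    have h : ((∑ b, ‖⟪u i, f b⟫_ℂ‖ ^ 2 : ℝ) : ℂ) = ((1 : ℝ) : ℂ) := by
      have := ps_pars f (u i) (u i) (hfu i)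
      rw [← ps_nsq, hu.1 i] at this
      push_cast
      rw [one_pow, Complex.ofReal_one] at this
      rw [← this]
      refine Finset.sum_congr rfl fun b _ => ?_
      have := hsq (u i) (f b)
      push_cast at this
      exact this.symm
    have h' : ∑ b, ‖⟪u i, f b⟫_ℂ‖ ^ 2 = (1 : ℝ) := by exact_mod_cast h
    rw [h', mul_one]
  have hM : ∑ b, (m b).re = ∑ i, ∑ j, a i * a j * ‖⟪v j, w i⟫_ℂ‖ ^ 2 := by
    have h : ∑ b, m b = ((∑ i, ∑ j, a i * a j * ‖⟪v j, w i⟫_ℂ‖ ^ 2 : ℝ) : ℂ) := by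
      rw [hm]
      simp only
      rw [Finset.sum_comm]
      push_cast
      refine Finset.sum_congr rfl fun i _ => ?_
      rw [Finset.sum_comm]
      refine Finset.sum_congr rfl fun j _ => ?_
      rw [← Finset.mul_sum]
      congr 1
      have h1 := ps_pars f (w i) (v j) (hfv j)
      have h2 := hsq (v j) (w i)
      push_cast at h2
      rw [← h2, ← h1, Finset.mul_sum]
      refine Finset.sum_congr rfl fun b _ => ?_
      ring
    have h' := congrArg Complex.re h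
    rw [Complex.re_sum, Complex.ofReal_re] at h'
    exact h'
  have hsum : ∑ b, μ b ^ 2 = 2 - 2 * ∑ i, ∑ j, a i * a j * ‖⟪v j, w i⟫_ℂ‖ ^ 2 := by
    have : ∀ b, μ b ^ 2 = (∑ i, a i ^ 2 * ‖⟪v i, f b⟫_ℂ‖ ^ 2) - (m b).re - (m b).re
        + ∑ i, a i ^ 2 * ‖⟪w i, f b⟫_ℂ‖ ^ 2 := by
      intro b
      have h1 := E1 b
      have h2 := E2 b
      have h3 := E3 b
      have : μ b ^ 2 = μ b * KK b - μ b * KL b := by rw [← mul_sub, h1, sq]
      rw [this, ← h2, ← h3]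
      ring
    simp only [this, Finset.sum_add_distrib, Finset.sum_sub_distrib, hM, hP v hv hfv, hP w hw hfw]
    ring
  rw [← hsum]
  refine Finset.sum_le_sum fun b _ => ?_
  have h1 := E1 b
  have h2 := E2 b
  have h3 := E3 b
  have hD : ∑ i, a i ^ 2 * ‖⟪v i, f b⟫_ℂ‖ ^ 2 - ∑ i, a i ^ 2 * ‖⟪w i, f b⟫_ℂ‖ ^ 2
      = μ b * (KK b + KL b) := by linarith
  rw [hD, ← mul_assoc, sign_mul_self]
  have hK0 : 0 ≤ KK b := Finset.sum_nonneg fun i _ => mul_nonneg (ha i) (sq_nonneg _)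
  have hL0 : 0 ≤ KL b := Finset.sum_nonneg fun i _ => mul_nonneg (ha i) (sq_nonneg _)
  rw [← sq_abs, sq]
  refine mul_le_mul_of_nonneg_left ?_ (abs_nonneg _)
  rw [← h1]
  exact abs_le.2 ⟨by linarith, by linarith⟩

end PS

/-- the Powers-Størmer inequality -/
theorem s4b : S4b := by
  intro K _ _ _ N v l hv hl hsum e he ε hT
  set a : Fin N → ℝ := fun i => √(l i) with ha
  have ha0 : ∀ i, 0 ≤ a i := fun i => Real.sqrt_nonneg _
  have ha2 : ∀ i, a i ^ 2 = l i := fun i => Real.sq_sqrt (hl i)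
  have ha1 : ∑ i, a i ^ 2 = 1 := by simp only [ha2, hsum]
  have hee : ∀ z, (star e) (e z) = z := by
    intro z
    have := (Unitary.mem_iff.1 he).1
    exact congrArg (fun T : K →L[ℂ] K => T z) this
  have hee' : ∀ z, e ((star e) z) = z := by
    intro z
    have := (Unitary.mem_iff.1 he).2
    exact congrArg (fun T : K →L[ℂ] K => T z) this
  have hiso : ∀ x y : K, ⟪e x, e y⟫_ℂ = ⟪x, y⟫_ℂ := by
    intro x y
    rw [← ContinuousLinearMap.adjoint_inner_right, ← ContinuousLinearMap.star_eq_adjoint, hee]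
  set w : Fin N → K := fun i => e (v i) with hw
  have hwo : Orthonormal ℂ w := by
    rw [orthonormal_iff_ite] at hv ⊢
    intro i j
    rw [hw]
    simp only
    rw [hiso]
    exact hv i j
  -- the first bound
  have h1 : Dq v a e ≤ 2 - 2 * ∑ i, ∑ j, a i * a j * ‖⟪v j, w i⟫_ℂ‖ ^ 2 := by
    have hterm : ∀ i, ‖(∑ j, ((a j : ℂ) * ⟪v j, e (v i)⟫_ℂ) • v j) - (a i : ℂ) • e (v i)‖ ^ 2
        = ∑ j, a j ^ 2 * ‖⟪v j, w i⟫_ℂ‖ ^ 2 - 2 * ∑ j, a i * a j * ‖⟪v j, w i⟫_ℂ‖ ^ 2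
          + a i ^ 2 := by
      intro i
      rw [norm_sub_sq (𝕜 := ℂ), ps_norm_sum v hv]
      congr 1
      · congr 1
        · refine Finset.sum_congr rfl fun j _ => ?_
          rw [norm_mul, mul_pow, Complex.norm_real, Real.norm_eq_abs, sq_abs]
        · congr 1
          have h : ⟪∑ j, ((a j : ℂ) * ⟪v j, e (v i)⟫_ℂ) • v j, (a i : ℂ) • e (v i)⟫_ℂ
              = ((∑ j, a i * a j * ‖⟪v j, w i⟫_ℂ‖ ^ 2 : ℝ) : ℂ) := by
            rw [sum_inner]
            push_cast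
            refine Finset.sum_congr rfl fun j _ => ?_
            rw [inner_smul_left, inner_smul_right, map_mul, Complex.conj_ofReal,
              ← Complex.conj_mul']
            ring
          rw [h]
          exact Complex.ofReal_re _
      · rw [norm_smul, mul_pow, Complex.norm_real, Real.norm_eq_abs, sq_abs]
        have := hwo.1 i
        rw [hw] at this
        simp only at this
        rw [this]
        ring
    have hD : Dq v a e = ∑ i, ∑ j, a j ^ 2 * ‖⟪v j, w i⟫_ℂ‖ ^ 2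
        - 2 * ∑ i, ∑ j, a i * a j * ‖⟪v j, w i⟫_ℂ‖ ^ 2 + 1 := by
      unfold Dq
      rw [Finset.sum_congr rfl fun i _ => hterm i, Finset.sum_add_distrib,
        Finset.sum_sub_distrib, ha1, Finset.mul_sum]
    have hB : ∑ i, ∑ j, a j ^ 2 * ‖⟪v j, w i⟫_ℂ‖ ^ 2 ≤ 1 := by
      rw [Finset.sum_comm, ← ha1]
      refine Finset.sum_le_sum fun j _ => ?_
      rw [← Finset.mul_sum]
      refine mul_le_of_le_one_right (sq_nonneg _) ?_
      have := hwo.sum_inner_products_le (s := Finset.univ) (v j)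
      rw [hv.1 j, one_pow] at this
      refine le_trans (le_of_eq ?_) this
      exact Finset.sum_congr rfl fun i _ => by rw [norm_inner_symm]
    rw [hD]
    linarith
  -- the eigenbasis
  let F : Submodule ℂ K := Submodule.span ℂ (Set.range v ∪ Set.range w)
  have : FiniteDimensional ℂ F :=
    FiniteDimensional.span_of_finite ℂ ((Set.finite_range v).union (Set.finite_range w))
  have hvF : ∀ i, v i ∈ F := fun i => Submodule.subset_span (Or.inl ⟨i, rfl⟩)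
  have hwF : ∀ i, w i ∈ F := fun i => Submodule.subset_span (Or.inr ⟨i, rfl⟩)
  obtain ⟨n, f, μ, hf, hμ, hfF⟩ := ps_eig F ((psop v a - psop w a : K →L[ℂ] K) : K →ₗ[ℂ] K)
    (by
      intro y z
      simp only [ContinuousLinearMap.coe_coe, _root_.sub_apply, inner_sub_left, inner_sub_right,
        psop_symm])
    (by
      intro z
      simp only [ContinuousLinearMap.coe_coe, _root_.sub_apply, psop_apply]
      exact F.sub_mem (F.sum_mem fun i _ => F.smul_mem _ (hvF i))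
        (F.sum_mem fun i _ => F.smul_mem _ (hwF i)))
  have h2 := ps_core v w a ha0 ha1 hv hwo f μ hf
    (fun b => by simpa using hμ b) (fun i => hfF _ (hvF i)) (fun i => hfF _ (hwF i))
  -- the bound `0 ≤ ε`
  have hε : 0 ≤ ε := by
    have hN : Nonempty (Fin N) := by
      by_contra h
      rw [not_nonempty_iff] at h
      rw [Finset.univ_eq_empty, Finset.sum_empty] at hsum
      exact zero_ne_one hsum
    obtain ⟨i0⟩ := hN
    have : Nontrivial K := ⟨⟨v i0, 0, hv.ne_zero i0⟩⟩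
    have h := hT 1
    rw [norm_one, mul_one] at h
    exact (norm_nonneg _).trans h
  -- the test operator
  have h3 : ∑ b, (SignType.sign (μ b) : ℝ) *
        (∑ i, a i ^ 2 * ‖⟪v i, f b⟫_ℂ‖ ^ 2 - ∑ i, a i ^ 2 * ‖⟪w i, f b⟫_ℂ‖ ^ 2) ≤ ε := by
    set s : K →L[ℂ] K := psop f (fun b => (SignType.sign (μ b) : ℝ)) with hs
    have hs1 : ‖s‖ ≤ 1 := by
      refine psop_norm f hf _ fun b => ?_
      rcases lt_trichotomy (μ b) 0 with h | h | h
      · simp [sign_neg h]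
      · simp [h]
      · simp [sign_pos h]
    have he1 : ‖star e‖ ≤ 1 := by
      rw [norm_star]
      refine ContinuousLinearMap.opNorm_le_bound _ zero_le_one fun z => ?_
      rw [one_mul]
      refine le_of_sq_le_sq ?_ (norm_nonneg _)
      have : ((‖e z‖ ^ 2 : ℝ) : ℂ) = ((‖z‖ ^ 2 : ℝ) : ℂ) := by
        rw [ps_nsq, ps_nsq, hiso]
      exact le_of_eq (by exact_mod_cast this)
    have hT1 : ‖star e * s‖ ≤ 1 :=
      (norm_mul_le _ _).trans (mul_le_one₀ he1 (norm_nonneg _) hs1)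
    have h := hT (star e * s)
    have hsq : ∀ x y : K, ⟪x, y⟫_ℂ * ⟪y, x⟫_ℂ = ((‖⟪x, y⟫_ℂ‖ ^ 2 : ℝ) : ℂ) := by
      intro x y
      rw [← inner_conj_symm y x, Complex.mul_conj']
      push_cast
      rfl
    have hin : ∀ z : K, ⟪z, s z⟫_ℂ
        = ((∑ b, (SignType.sign (μ b) : ℝ) * ‖⟪z, f b⟫_ℂ‖ ^ 2 : ℝ) : ℂ) := by
      intro z
      rw [hs, psop_apply, inner_sum]
      push_cast
      refine Finset.sum_congr rfl fun b _ => ?_
      have := hsq z (f b)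
      push_cast at this
      rw [inner_smul_right, ← this]
      ring
    have hsumeq : ∑ i, (l i : ℂ) * (⟪v i, e ((star e * s) (v i))⟫_ℂ
        - ⟪v i, (star e * s) (e (v i))⟫_ℂ)
        = ((∑ b, (SignType.sign (μ b) : ℝ) *
        (∑ i, a i ^ 2 * ‖⟪v i, f b⟫_ℂ‖ ^ 2 - ∑ i, a i ^ 2 * ‖⟪w i, f b⟫_ℂ‖ ^ 2) : ℝ) : ℂ) := by
      have hi : ∀ i, (l i : ℂ) * (⟪v i, e ((star e * s) (v i))⟫_ℂ
          - ⟪v i, (star e * s) (e (v i))⟫_ℂ)
          = ((∑ b, (SignType.sign (μ b) : ℝ) *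
            (a i ^ 2 * ‖⟪v i, f b⟫_ℂ‖ ^ 2 - a i ^ 2 * ‖⟪w i, f b⟫_ℂ‖ ^ 2) : ℝ) : ℂ) := by
        intro i
        have e1 : e ((star e * s) (v i)) = s (v i) := hee' _
        have e2 : ⟪v i, (star e * s) (e (v i))⟫_ℂ = ⟪w i, s (w i)⟫_ℂ := by
          rw [mul_apply_eq_comp, ContinuousLinearMap.star_eq_adjoint,
            ContinuousLinearMap.adjoint_inner_right]
        rw [e1, e2, hin, hin, ← Complex.ofReal_sub, ← Complex.ofReal_mul]
        congr 1
        rw [← Finset.sum_sub_distrib, Finset.mul_sum, ← ha2 i]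
        exact Finset.sum_congr rfl fun b _ => by ring
      rw [Finset.sum_congr rfl fun i _ => hi i, ← Complex.ofReal_sum]
      congr 1
      rw [Finset.sum_comm]
      refine Finset.sum_congr rfl fun b _ => ?_
      rw [← Finset.mul_sum, Finset.sum_sub_distrib]
    rw [hsumeq, Complex.norm_real, Real.norm_eq_abs] at h
    calc _ ≤ _ := le_abs_self _
      _ ≤ ε * ‖star e * s‖ := h
      _ ≤ ε := mul_le_of_le_one_right hε hT1
  exact h1.trans (h2.trans h3)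

end Pool.Agent.Helper784QW
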