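import Pool.Agent.Helper784QW.Spec

/-!
JOB QW-K5 (owner helper784, MP_47effe_an): the compression maps.
-/

set_option autoImplicit false

open scoped InnerProductSpace ComplexOrder

namespace Pool.Agent.Helper784QW

open Matrix Pool.Agent.W661.RC Pool.Agent.W683.RC

section

variable {K : Type} [NormedAddCommGroup K] [InnerProductSpace ℂ K]

lemma k5_norm_sq {N : ℕ} {v : Fin N → K} (hv : Orthonormal ℂ v) (a : Fin N → ℝ) (t : ℝ) (w : K) :
    ‖(∑ j, ((a j : ℂ) * ⟪v j, w⟫_ℂ) • v j) - (t : ℂ) • w‖ ^ 2 =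
      ∑ j, a j ^ 2 * ‖⟪v j, w⟫_ℂ‖ ^ 2 - 2 * t * ∑ j, a j * ‖⟪v j, w⟫_ℂ‖ ^ 2 + t ^ 2 * ‖w‖ ^ 2 := by
  rw [@norm_sub_sq ℂ]
  have h1 : ‖∑ j, ((a j : ℂ) * ⟪v j, w⟫_ℂ) • v j‖ ^ 2 = ∑ j, a j ^ 2 * ‖⟪v j, w⟫_ℂ‖ ^ 2 := by
    rw [@norm_sq_eq_re_inner ℂ, hv.inner_sum, map_sum]
    refine Finset.sum_congr rfl fun j _ => ?_
    rw [Complex.conj_mul', norm_mul, Complex.norm_real, Real.norm_eq_abs, ← Complex.ofReal_pow]
    show (((|a j| * ‖⟪v j, w⟫_ℂ‖) ^ 2 : ℝ) : ℂ).re = _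
    rw [Complex.ofReal_re, mul_pow, sq_abs]
  have h2 : RCLike.re ⟪∑ j, ((a j : ℂ) * ⟪v j, w⟫_ℂ) • v j, (t : ℂ) • w⟫_ℂ =
      t * ∑ j, a j * ‖⟪v j, w⟫_ℂ‖ ^ 2 := by
    rw [inner_smul_right, sum_inner, Finset.mul_sum, map_sum, Finset.mul_sum]
    refine Finset.sum_congr rfl fun j _ => ?_
    have e : (starRingEnd ℂ) ((a j : ℂ) * ⟪v j, w⟫_ℂ) * ⟪v j, w⟫_ℂ =
        ((a j * ‖⟪v j, w⟫_ℂ‖ ^ 2 : ℝ) : ℂ) := by
      rw [map_mul, Complex.conj_ofReal, mul_assoc, Complex.conj_mul']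
      push_cast
      rfl
    rw [inner_smul_left, e, ← Complex.ofReal_mul]
    exact Complex.ofReal_re _
  have h3 : ‖(t : ℂ) • w‖ ^ 2 = t ^ 2 * ‖w‖ ^ 2 := by
    rw [norm_smul, mul_pow, Complex.norm_real, Real.norm_eq_abs, sq_abs]
  rw [h1, h2, h3]
  ring

lemma k5_bessel {N : ℕ} {v : Fin N → K} (hv : Orthonormal ℂ v) (w : K) :
    ∑ j, ‖⟪v j, w⟫_ℂ‖ ^ 2 ≤ ‖w‖ ^ 2 := hv.sum_inner_products_le w

lemma k5_sum_fin {M : Type} [AddCommMonoid M] (m s : ℕ) (x : M) :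
    ∑ t : Fin m, (if (t : ℕ) = s then x else 0) = if s < m then x else 0 := by
  by_cases h : s < m
  · rw [if_pos h, Finset.sum_eq_single (⟨s, h⟩ : Fin m)]
    · simp
    · intro b _ hb
      rw [if_neg]
      intro hb'; apply hb; exact Fin.ext hb'
    · intro h'; exact absurd (Finset.mem_univ _) h'
  · rw [if_neg h]
    apply Finset.sum_eq_zero
    intro t _
    rw [if_neg]
    intro h'; apply h; rw [← h']; exact t.2

end

section

variable {K : Type} [NormedAddCommGroup K] [InnerProductSpace ℂ K]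

/-- sums of squares of the entries of a matrix of the form `[s = s'] ⟪v_i, w_b⟫` -/
lemma k5_hs_le {N : ℕ} {v : Fin N → K} (hv : Orthonormal ℂ v) (n : Fin N → ℕ)
    (w : (Σ i : Fin N, Fin (n i)) → K)
    (X : Matrix (Σ i : Fin N, Fin (n i)) (Σ i : Fin N, Fin (n i)) ℂ)
    (hX : ∀ a b, X a b = if (a.2 : ℕ) = (b.2 : ℕ) then ⟪v a.1, w b⟫_ℂ else 0) :
    hs X ≤ ∑ b, ‖w b‖ ^ 2 := by
  unfold hs
  rw [Finset.sum_comm]
  refine Finset.sum_le_sum fun b _ => ?_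
  refine le_trans ?_ (k5_bessel hv (w b))
  rw [Fintype.sum_sigma]
  refine Finset.sum_le_sum fun i _ => ?_
  have h1 : ∀ s : Fin (n i), ‖X ⟨i, s⟩ b‖ ^ 2 =
      if (s : ℕ) = (b.2 : ℕ) then ‖⟪v i, w b⟫_ℂ‖ ^ 2 else 0 := by
    intro s
    rw [hX]
    by_cases h : (s : ℕ) = (b.2 : ℕ)
    · simp [h]
    · simp [h]
  rw [Finset.sum_congr rfl fun s _ => h1 s, k5_sum_fin]
  by_cases h : (b.2 : ℕ) < n i
  · rw [if_pos h]
  · rw [if_neg h]; positivity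

lemma k5_trace {N : ℕ} (v : Fin N → K) (n : Fin N → ℕ) (T : K →L[ℂ] K) :
    Matrix.trace (th v n T) = ∑ i, (n i : ℂ) * ⟪v i, T (v i)⟫_ℂ := by
  unfold Matrix.trace
  rw [Fintype.sum_sigma]
  refine Finset.sum_congr rfl fun i _ => ?_
  simp [th, Matrix.diag]

lemma k5_mul {N : ℕ} {v : Fin N → K} (n : Fin N → ℕ) (b c : K →L[ℂ] K)
    (x y : Σ i : Fin N, Fin (n i)) :
    (th v n (b * c) - th v n b * th v n c) x y = if (x.2 : ℕ) = (y.2 : ℕ) then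
      ⟪v x.1, b (c (v y.1) - ∑ j, (((if (y.2 : ℕ) < n j then (1 : ℝ) else 0 : ℝ) : ℂ) *
        ⟪v j, c (v y.1)⟫_ℂ) • v j)⟫_ℂ else 0 := by
  rw [Matrix.sub_apply, Matrix.mul_apply]
  have h1 : ∑ z, th v n b x z * th v n c z y = if (x.2 : ℕ) = (y.2 : ℕ) then
      ⟪v x.1, b (∑ j, (((if (y.2 : ℕ) < n j then (1 : ℝ) else 0 : ℝ) : ℂ) *
        ⟪v j, c (v y.1)⟫_ℂ) • v j)⟫_ℂ else 0 := by
    rw [Fintype.sum_sigma, map_sum, inner_sum]
    by_cases h : (x.2 : ℕ) = (y.2 : ℕ)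
    · rw [if_pos h]
      refine Finset.sum_congr rfl fun j _ => ?_
      have h2 : ∀ s : Fin (n j), th v n b x ⟨j, s⟩ * th v n c ⟨j, s⟩ y =
          if (s : ℕ) = (y.2 : ℕ) then ⟪v x.1, b (v j)⟫_ℂ * ⟪v j, c (v y.1)⟫_ℂ else 0 := by
        intro s
        unfold th
        rw [Matrix.of_apply, Matrix.of_apply]
        by_cases h' : (s : ℕ) = (y.2 : ℕ)
        · have h'' : (x.2 : ℕ) = (s : ℕ) := by rw [h, h']
          simp [h', h]
        · simp [h']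
      rw [Finset.sum_congr rfl fun s _ => h2 s, k5_sum_fin, map_smul, inner_smul_right]
      by_cases h' : (y.2 : ℕ) < n j
      · rw [if_pos h', if_pos h']
        push_cast
        ring
      · rw [if_neg h', if_neg h']
        push_cast
        ring
    · rw [if_neg h]
      apply Finset.sum_eq_zero
      intro j _
      apply Finset.sum_eq_zero
      intro s _
      unfold th
      rw [Matrix.of_apply, Matrix.of_apply]
      by_cases h' : (x.2 : ℕ) = (s : ℕ)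
      · have h'' : ¬ (s : ℕ) = (y.2 : ℕ) := by rw [← h']; exact h
        simp [h'']
      · simp [h']
  rw [h1]
  unfold th
  rw [Matrix.of_apply]
  by_cases h : (x.2 : ℕ) = (y.2 : ℕ)
  · simp only [if_pos h]
    rw [map_sub, inner_sub_right]
    rfl
  · simp only [if_neg h]
    rw [sub_zero]

lemma k5_key {N : ℕ} (n : Fin N → ℕ) (p : Fin N → Fin N → ℝ) (q : Fin N → ℝ) (C : ℝ) (hC : 0 ≤ C)
    (hp : ∀ j k, 0 ≤ p j k) (hq : ∀ k, ∑ j, p j k ≤ q k) (hqC : ∀ k, q k ≤ C ^ 2) :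
    ∑ k, ((n k : ℝ) * q k - ∑ j, (min (n j) (n k) : ℕ) * p j k) ≤
      (∑ k, (∑ j, (√(n j)) ^ 2 * p j k - 2 * √(n k) * ∑ j, √(n j) * p j k + (√(n k)) ^ 2 * q k)) +
      2 * C * √((∑ i, (n i : ℝ)) *
        ∑ k, (∑ j, (√(n j)) ^ 2 * p j k - 2 * √(n k) * ∑ j, √(n j) * p j k + (√(n k)) ^ 2 * q k)) := by
  set R : Fin N → ℝ := fun k => q k - ∑ j, p j k with hR
  have hR0 : ∀ k, 0 ≤ R k := fun k => sub_nonneg.2 (hq k)
  have hD : ∑ k, (∑ j, (√(n j)) ^ 2 * p j k - 2 * √(n k) * ∑ j, √(n j) * p j k +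
      (√(n k)) ^ 2 * q k) = ∑ k, (n k : ℝ) * R k + ∑ k, ∑ j, (√(n j) - √(n k)) ^ 2 * p j k := by
    rw [← Finset.sum_add_distrib]
    refine Finset.sum_congr rfl fun k _ => ?_
    have : ∑ j, (√(n j) - √(n k)) ^ 2 * p j k = ∑ j, (√(n j)) ^ 2 * p j k -
        2 * √(n k) * ∑ j, √(n j) * p j k + (√(n k)) ^ 2 * ∑ j, p j k := by
      rw [Finset.mul_sum, Finset.mul_sum, ← Finset.sum_sub_distrib, ← Finset.sum_add_distrib]
      refine Finset.sum_congr rfl fun j _ => ?_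
      ring
    rw [this, hR]
    have hk : (√(n k : ℝ)) ^ 2 = n k := Real.sq_sqrt (Nat.cast_nonneg _)
    rw [hk]
    ring
  have hS : ∑ k, ((n k : ℝ) * q k - ∑ j, (min (n j) (n k) : ℕ) * p j k) =
      ∑ k, (n k : ℝ) * R k + ∑ k, ∑ j, ((n k : ℝ) - (min (n j) (n k) : ℕ)) * p j k := by
    rw [← Finset.sum_add_distrib]
    refine Finset.sum_congr rfl fun k _ => ?_
    rw [hR]
    simp only [sub_mul]
    rw [Finset.sum_sub_distrib, ← Finset.mul_sum]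
    ring
  rw [hD, hS]
  set E : ℝ := ∑ k, ∑ j, (√(n j) - √(n k)) ^ 2 * p j k with hE
  set A : ℝ := ∑ k, (n k : ℝ) * R k with hA
  have hA0 : 0 ≤ A := Finset.sum_nonneg fun k _ => mul_nonneg (Nat.cast_nonneg _) (hR0 k)
  have hE0 : 0 ≤ E := Finset.sum_nonneg fun k _ => Finset.sum_nonneg fun j _ =>
    mul_nonneg (sq_nonneg _) (hp j k)
  have h1 : ∑ k, ∑ j, ((n k : ℝ) - (min (n j) (n k) : ℕ)) * p j k ≤
      2 * ∑ x : Fin N × Fin N, (|√(n x.2) - √(n x.1)| * √(p x.2 x.1)) * (√(n x.1) * √(p x.2 x.1)) := by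
    rw [Fintype.sum_prod_type, Finset.mul_sum]
    refine Finset.sum_le_sum fun k _ => ?_
    rw [Finset.mul_sum]
    refine Finset.sum_le_sum fun j _ => ?_
    have hpp : √(p j k) * √(p j k) = p j k := Real.mul_self_sqrt (hp j k)
    have e1 : 2 * ((|√(n j) - √(n k)| * √(p j k)) * (√(n k) * √(p j k))) =
        (|√(n j) - √(n k)| * (2 * √(n k))) * (√(p j k) * √(p j k)) := by ring
    show _ ≤ 2 * ((|√(n j) - √(n k)| * √(p j k)) * (√(n k) * √(p j k)))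
    rw [e1, hpp]
    refine mul_le_mul_of_nonneg_right ?_ (hp j k)
    have sk : √(n k : ℝ) ^ 2 = n k := Real.sq_sqrt (Nat.cast_nonneg _)
    have sj : √(n j : ℝ) ^ 2 = n j := Real.sq_sqrt (Nat.cast_nonneg _)
    rcases le_total (n k) (n j) with h | h
    · rw [min_eq_right h, sub_self]
      positivity
    · rw [min_eq_left h]
      have h' : √(n j : ℝ) ≤ √(n k : ℝ) := Real.sqrt_le_sqrt (by exact_mod_cast h)
      rw [abs_of_nonpos (by linarith)]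
      nlinarith [Real.sqrt_nonneg (n j : ℝ), Real.sqrt_nonneg (n k : ℝ)]
  have h2 : ∑ x : Fin N × Fin N, (|√(n x.2) - √(n x.1)| * √(p x.2 x.1)) * (√(n x.1) * √(p x.2 x.1)) ≤
      √(∑ x : Fin N × Fin N, (|√(n x.2) - √(n x.1)| * √(p x.2 x.1)) ^ 2) *
      √(∑ x : Fin N × Fin N, (√(n x.1) * √(p x.2 x.1)) ^ 2) :=
    Real.sum_mul_le_sqrt_mul_sqrt _ _ _
  have h3 : ∑ x : Fin N × Fin N, (|√(n x.2) - √(n x.1)| * √(p x.2 x.1)) ^ 2 = E := by
    rw [Fintype.sum_prod_type, hE]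
    refine Finset.sum_congr rfl fun k _ => Finset.sum_congr rfl fun j _ => ?_
    show (|√(n j) - √(n k)| * √(p j k)) ^ 2 = _
    rw [mul_pow, sq_abs, Real.sq_sqrt (hp j k)]
  have h4 : ∑ x : Fin N × Fin N, (√(n x.1) * √(p x.2 x.1)) ^ 2 ≤ (∑ i, (n i : ℝ)) * C ^ 2 := by
    rw [Fintype.sum_prod_type, Finset.sum_mul]
    refine Finset.sum_le_sum fun k _ => ?_
    have : ∑ j, (√(n k) * √(p j k)) ^ 2 = (n k : ℝ) * ∑ j, p j k := by
      rw [Finset.mul_sum]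
      refine Finset.sum_congr rfl fun j _ => ?_
      rw [mul_pow, Real.sq_sqrt (hp j k), Real.sq_sqrt (Nat.cast_nonneg _)]
    show ∑ j, (√(n k) * √(p j k)) ^ 2 ≤ _
    rw [this]
    exact mul_le_mul_of_nonneg_left ((hq k).trans (hqC k)) (Nat.cast_nonneg _)
  have h5 : √E * √(∑ x : Fin N × Fin N, (√(n x.1) * √(p x.2 x.1)) ^ 2) ≤
      √(A + E) * √((∑ i, (n i : ℝ)) * C ^ 2) :=
    mul_le_mul (Real.sqrt_le_sqrt (by linarith)) (Real.sqrt_le_sqrt h4) (Real.sqrt_nonneg _)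
      (Real.sqrt_nonneg _)
  have hn0 : 0 ≤ ∑ i, (n i : ℝ) := Finset.sum_nonneg fun i _ => Nat.cast_nonneg _
  have h6 : √(A + E) * √((∑ i, (n i : ℝ)) * C ^ 2) = C * √((∑ i, (n i : ℝ)) * (A + E)) := by
    rw [Real.sqrt_mul hn0, Real.sqrt_sq hC, Real.sqrt_mul hn0]
    ring
  rw [h3] at h2
  have h7 := h2.trans (h5.trans h6.le)
  have : ∑ k, ∑ j, ((n k : ℝ) - (min (n j) (n k) : ℕ)) * p j k ≤
      2 * C * √((∑ i, (n i : ℝ)) * (A + E)) := by
    calc _ ≤ _ := h1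
      _ ≤ 2 * (C * √((∑ i, (n i : ℝ)) * (A + E))) := by linarith
      _ = _ := by ring
  linarith

lemma k5_sum_lt {M : Type} [AddCommMonoid M] (m l : ℕ) (x : M) :
    ∑ t : Fin m, (if (t : ℕ) < l then x else 0) = (min l m) • x := by
  rw [← Finset.sum_filter, Finset.sum_const]
  congr 1
  rw [Fin.card_filter_val_lt]
  exact min_comm _ _

/-- TARGET -/
theorem s5 : S5 := by
  intro K _ _ _ N v hv n
  refine ⟨?_, ?_, fun T => k5_trace v n T, ?_, ?_⟩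
  · intro T
    ext a b
    rw [Matrix.conjTranspose_apply]
    unfold th
    rw [Matrix.of_apply, Matrix.of_apply]
    by_cases h : (a.2 : ℕ) = (b.2 : ℕ)
    · rw [if_pos h, if_pos h.symm]
      rw [ContinuousLinearMap.star_eq_adjoint, ContinuousLinearMap.adjoint_inner_right]
      exact (inner_conj_symm _ _).symm
    · rw [if_neg h, if_neg (fun h' => h h'.symm), star_zero]
  · ext a b
    rw [Matrix.one_apply]
    unfold th
    rw [Matrix.of_apply, one_apply_eq_self]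
    rcases a with ⟨i, s⟩
    rcases b with ⟨j, t⟩
    by_cases hij : i = j
    · subst hij
      by_cases hst : s = t
      · subst hst
        simp [hv.1]
      · have h1 : ¬ ((s : ℕ) = (t : ℕ)) := fun h => hst (Fin.ext h)
        have h2 : ¬ ((⟨i, s⟩ : Σ i : Fin N, Fin (n i)) = ⟨i, t⟩) := by
          intro h
          apply hst
          simpa using h
        simp [h1, h2]
    · have h2 : ¬ ((⟨i, s⟩ : Σ i : Fin N, Fin (n i)) = ⟨j, t⟩) := by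
        intro h
        exact hij (congrArg Sigma.fst h)
      rw [if_neg h2]
      show (if (s : ℕ) = (t : ℕ) then ⟪v i, v j⟫_ℂ else 0) = 0
      rw [hv.2 hij]
      simp
  · intro T
    have h1 := k5_hs_le hv n (fun b => T (v b.1)) (th v n T) (fun a b => rfl)
    refine h1.trans (le_of_eq ?_)
    rw [k5_trace, Fintype.sum_sigma, Complex.re_sum]
    refine Finset.sum_congr rfl fun i _ => ?_
    show ∑ s : Fin (n i), ‖T (v i)‖ ^ 2 = _
    rw [Finset.sum_const, Finset.card_univ, Fintype.card_fin, nsmul_eq_mul,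
      mul_apply_eq_comp, ContinuousLinearMap.star_eq_adjoint,
      ContinuousLinearMap.adjoint_inner_right, inner_self_eq_norm_sq_to_K]
    have e : (n i : ℂ) * ((‖T (v i)‖ : ℂ)) ^ 2 = (((n i : ℝ) * ‖T (v i)‖ ^ 2 : ℝ) : ℂ) := by
      push_cast
      rfl
    exact ((congrArg Complex.re e).trans (Complex.ofReal_re _)).symm
  · intro b c
    have h1 := k5_hs_le hv n (fun y => b (c (v y.1) - ∑ j, (((if (y.2 : ℕ) < n j then (1 : ℝ) else 0 : ℝ) : ℂ) *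
        ⟪v j, c (v y.1)⟫_ℂ) • v j)) (th v n (b * c) - th v n b * th v n c) (fun x y => k5_mul n b c x y)
    have h2 : ∑ y : (Σ i : Fin N, Fin (n i)), ‖b (c (v y.1) - ∑ j, (((if (y.2 : ℕ) < n j then (1 : ℝ) else 0 : ℝ) : ℂ) *
        ⟪v j, c (v y.1)⟫_ℂ) • v j)‖ ^ 2 ≤ ‖b‖ ^ 2 *
        ∑ k, ((n k : ℝ) * ‖c (v k)‖ ^ 2 - ∑ j, (min (n j) (n k) : ℕ) * ‖⟪v j, c (v k)⟫_ℂ‖ ^ 2) := by
      rw [Fintype.sum_sigma, Finset.mul_sum]
      refine Finset.sum_le_sum fun k _ => ?_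
      have h3 : ∀ s : Fin (n k), ‖b (c (v k) - ∑ j, (((if (s : ℕ) < n j then (1 : ℝ) else 0 : ℝ) : ℂ) *
          ⟪v j, c (v k)⟫_ℂ) • v j)‖ ^ 2 ≤ ‖b‖ ^ 2 * (‖c (v k)‖ ^ 2 -
            ∑ j, (if (s : ℕ) < n j then ‖⟪v j, c (v k)⟫_ℂ‖ ^ 2 else 0)) := by
        intro s
        refine (pow_le_pow_left₀ (norm_nonneg _) (b.le_opNorm _) 2).trans ?_
        rw [mul_pow]
        refine mul_le_mul_of_nonneg_left (le_of_eq ?_) (sq_nonneg _)
        rw [norm_sub_rev]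
        have h4 := k5_norm_sq hv (fun j => if (s : ℕ) < n j then (1 : ℝ) else 0) 1 (c (v k))
        rw [Complex.ofReal_one, one_smul] at h4
        rw [h4]
        have h5 : ∀ j, (if (s : ℕ) < n j then (1 : ℝ) else 0) ^ 2 * ‖⟪v j, c (v k)⟫_ℂ‖ ^ 2 =
            if (s : ℕ) < n j then ‖⟪v j, c (v k)⟫_ℂ‖ ^ 2 else 0 := by
          intro j; split_ifs <;> simp
        have h6 : ∀ j, (if (s : ℕ) < n j then (1 : ℝ) else 0) * ‖⟪v j, c (v k)⟫_ℂ‖ ^ 2 =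
            if (s : ℕ) < n j then ‖⟪v j, c (v k)⟫_ℂ‖ ^ 2 else 0 := by
          intro j; split_ifs <;> simp
        rw [Finset.sum_congr rfl fun j _ => h5 j, Finset.sum_congr rfl fun j _ => h6 j]
        ring
      refine (Finset.sum_le_sum fun s _ => h3 s).trans (le_of_eq ?_)
      rw [← Finset.mul_sum, Finset.sum_sub_distrib, Finset.sum_const, Finset.card_univ,
        Fintype.card_fin, nsmul_eq_mul, Finset.sum_comm]
      congr 2
      refine Finset.sum_congr rfl fun j _ => ?_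
      rw [k5_sum_lt, nsmul_eq_mul]
    have h3 := k5_key n (fun j k => ‖⟪v j, c (v k)⟫_ℂ‖ ^ 2) (fun k => ‖c (v k)‖ ^ 2) ‖c‖
      (norm_nonneg _) (fun j k => sq_nonneg _) (fun k => k5_bessel hv (c (v k))) (fun k => by
        refine pow_le_pow_left₀ (norm_nonneg _) ?_ 2
        have := c.le_opNorm (v k)
        rwa [hv.1 k, mul_one] at this)
    have h4 : Dq v (fun i => √(n i)) c = ∑ k, (∑ j, (√(n j)) ^ 2 * ‖⟪v j, c (v k)⟫_ℂ‖ ^ 2 -
        2 * √(n k) * ∑ j, √(n j) * ‖⟪v j, c (v k)⟫_ℂ‖ ^ 2 + (√(n k)) ^ 2 * ‖c (v k)‖ ^ 2) := by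
      unfold Dq
      refine Finset.sum_congr rfl fun k _ => ?_
      exact k5_norm_sq hv (fun j => √(n j)) (√(n k)) (c (v k))
    rw [h4]
    exact h1.trans (h2.trans (mul_le_mul_of_nonneg_left h3 (sq_nonneg _)))

end

end Pool.Agent.Helper784QW
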