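import Pool.Agent.Helper784QW.Spec

/-!
JOB QW-K5b (owner helper784, MP_47effe_an). Files Helper784QW/{Defs,Base,Spec}.lean and W661/RC/Defs.lean, W683/RC/Bas.lean are on origin/main.
From weights to multiplicities.

PROOF. n_i = ⌊q l_i⌋₊ for q → ∞ (q : ℕ): d_q = Σ n_i satisfies d_q / q → 1, n_i / d_q → l_i. a ↦ Dq v a T is continuous (Fin N → ℝ) and homogeneous:
 Dq v (c • a) T = c² Dq v a T, so Dq v (√n) T / d_q = Dq v (√(n_i/d_q)) T → Dq v (√l) T, and (1/d_q) Σ n_i ⟪v_i, T v_i⟫ → Σ l_i ⟪v_i, T v_i⟫. For the finitely many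
 T ∈ E take q large.
-/

set_option autoImplicit false

open scoped InnerProductSpace ComplexOrder

namespace Pool.Agent.Helper784QW

open Matrix Pool.Agent.W661.RC Pool.Agent.W683.RC

theorem k5b_cont {K : Type} [NormedAddCommGroup K] [InnerProductSpace ℂ K] [CompleteSpace K]
    {N : ℕ} (v : Fin N → K) (T : K →L[ℂ] K) : Continuous fun a : Fin N → ℝ => Dq v a T := by
  unfold Dq
  fun_prop

theorem k5b_hom {K : Type} [NormedAddCommGroup K] [InnerProductSpace ℂ K] [CompleteSpace K]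
    {N : ℕ} (v : Fin N → K) (T : K →L[ℂ] K) (c : ℝ) (a : Fin N → ℝ) :
    Dq v (fun i => c * a i) T = c ^ 2 * Dq v a T := by
  unfold Dq
  rw [Finset.mul_sum]
  refine Finset.sum_congr rfl fun i _ => ?_
  have h : (∑ j, (((c * a j : ℝ) : ℂ) * ⟪v j, T (v i)⟫_ℂ) • v j) - ((c * a i : ℝ) : ℂ) • T (v i) =
      (c : ℂ) • ((∑ j, ((a j : ℂ) * ⟪v j, T (v i)⟫_ℂ) • v j) - (a i : ℂ) • T (v i)) := by
    rw [smul_sub, Finset.smul_sum]
    congr 1
    · refine Finset.sum_congr rfl fun j _ => ?_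
      rw [smul_smul]
      congr 1
      push_cast
      ring
    · rw [smul_smul]
      push_cast
      rfl
  rw [h, norm_smul, mul_pow, Complex.norm_real, Real.norm_eq_abs, sq_abs]

/-- TARGET -/
theorem s5b : S5b := by
  intro K _ _ _ N v l _ hl hsum E ε hε
  -- the multiplicities
  let n : ℕ → Fin N → ℕ := fun q i => ⌊l i * (q : ℝ)⌋₊
  have hn : ∀ i, Filter.Tendsto (fun q : ℕ => (n q i : ℝ) / (q : ℝ)) Filter.atTop
      (nhds (l i)) := by
    intro i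
    exact (tendsto_nat_floor_mul_div_atTop (hl i)).comp tendsto_natCast_atTop_atTop
  have hd : Filter.Tendsto (fun q : ℕ => (∑ i, (n q i : ℝ)) / (q : ℝ)) Filter.atTop
      (nhds 1) := by
    have h1 : Filter.Tendsto (fun q : ℕ => ∑ i, (n q i : ℝ) / (q : ℝ)) Filter.atTop
        (nhds (∑ i, l i)) := tendsto_finsetSum _ fun i _ => hn i
    rw [hsum] at h1
    refine h1.congr fun q => ?_
    rw [Finset.sum_div]
  have hpos : ∀ᶠ q : ℕ in Filter.atTop, 0 < (∑ i, (n q i : ℝ)) / (q : ℝ) :=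
    hd.eventually_const_lt zero_lt_one
  have hq1 : ∀ᶠ q : ℕ in Filter.atTop, 1 ≤ q := Filter.eventually_ge_atTop 1
  have h1 : ∀ T ∈ E, ∀ᶠ q : ℕ in Filter.atTop,
      Dq v (fun i => √((n q i : ℝ) / q)) T <
        (Dq v (fun i => √(l i)) T + ε) * ((∑ i, (n q i : ℝ)) / (q : ℝ)) := by
    intro T _
    have e1 : Filter.Tendsto (fun q : ℕ => Dq v (fun i => √((n q i : ℝ) / q)) T) Filter.atTop
        (nhds (Dq v (fun i => √(l i)) T)) := by
      refine ((k5b_cont v T).tendsto _).comp ?_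
      rw [tendsto_pi_nhds]
      intro i
      exact (hn i).sqrt
    have e2 : Filter.Tendsto (fun q : ℕ => (Dq v (fun i => √(l i)) T + ε) *
        ((∑ i, (n q i : ℝ)) / (q : ℝ))) Filter.atTop
        (nhds ((Dq v (fun i => √(l i)) T + ε) * 1)) := hd.const_mul _
    exact e1.eventually_lt e2 (by linarith)
  have h2 : ∀ T ∈ E, ∀ᶠ q : ℕ in Filter.atTop,
      ‖∑ i, (((n q i : ℝ) / q : ℝ) : ℂ) * ⟪v i, T (v i)⟫_ℂ -
        ((((∑ i, (n q i : ℝ)) / (q : ℝ) : ℝ)) : ℂ) * ∑ i, (l i : ℂ) * ⟪v i, T (v i)⟫_ℂ‖ <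
        ε * ((∑ i, (n q i : ℝ)) / (q : ℝ)) := by
    intro T _
    have e1 : Filter.Tendsto (fun q : ℕ => ‖∑ i, (((n q i : ℝ) / q : ℝ) : ℂ) * ⟪v i, T (v i)⟫_ℂ -
        ((((∑ i, (n q i : ℝ)) / (q : ℝ) : ℝ)) : ℂ) * ∑ i, (l i : ℂ) * ⟪v i, T (v i)⟫_ℂ‖)
        Filter.atTop (nhds ‖∑ i, (l i : ℂ) * ⟪v i, T (v i)⟫_ℂ -
          ((1 : ℝ) : ℂ) * ∑ i, (l i : ℂ) * ⟪v i, T (v i)⟫_ℂ‖) := by
      refine Filter.Tendsto.norm (Filter.Tendsto.sub ?_ ?_)
      · refine tendsto_finsetSum _ fun i _ => Filter.Tendsto.mul_const _ ?_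
        exact (Complex.continuous_ofReal.tendsto _).comp (hn i)
      · refine Filter.Tendsto.mul_const _ ?_
        exact (Complex.continuous_ofReal.tendsto _).comp hd
    rw [Complex.ofReal_one, one_mul, sub_self, norm_zero] at e1
    have e2 : Filter.Tendsto (fun q : ℕ => ε * ((∑ i, (n q i : ℝ)) / (q : ℝ))) Filter.atTop
        (nhds (ε * 1)) := hd.const_mul _
    exact e1.eventually_lt e2 (by linarith)
  have h3 : ∀ᶠ q : ℕ in Filter.atTop, ∀ T ∈ E,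
      Dq v (fun i => √((n q i : ℝ) / q)) T <
        (Dq v (fun i => √(l i)) T + ε) * ((∑ i, (n q i : ℝ)) / (q : ℝ)) :=
    (Filter.eventually_all_finset E).2 h1
  have h4 : ∀ᶠ q : ℕ in Filter.atTop, ∀ T ∈ E,
      ‖∑ i, (((n q i : ℝ) / q : ℝ) : ℂ) * ⟪v i, T (v i)⟫_ℂ -
        ((((∑ i, (n q i : ℝ)) / (q : ℝ) : ℝ)) : ℂ) * ∑ i, (l i : ℂ) * ⟪v i, T (v i)⟫_ℂ‖ <
        ε * ((∑ i, (n q i : ℝ)) / (q : ℝ)) :=
    (Filter.eventually_all_finset E).2 h2
  obtain ⟨q, hp, hq, h5, h6⟩ := (hpos.and (hq1.and (h3.and h4))).exists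
  have hq0 : (0 : ℝ) < q := by exact_mod_cast hq
  refine ⟨n q, ?_, ?_⟩
  · have e1 : 0 < ∑ i, (n q i : ℝ) := by
      rcases div_pos_iff.1 hp with h | h
      · exact h.1
      · exact absurd h.2 (not_lt.2 hq0.le)
    exact_mod_cast e1
  · intro T hT
    constructor
    · have e1 : Dq v (fun i => √(n q i)) T = q * Dq v (fun i => √((n q i : ℝ) / q)) T := by
        have e2 : (fun i => √((n q i : ℕ) : ℝ)) = fun i => √(q : ℝ) * √((n q i : ℝ) / q) := by
          funext i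
          rw [← Real.sqrt_mul hq0.le]
          congr 1
          field_simp
        rw [e2, k5b_hom, Real.sq_sqrt hq0.le]
      rw [e1]
      have e3 := mul_le_mul_of_nonneg_left (h5 T hT).le hq0.le
      refine e3.trans (le_of_eq ?_)
      field_simp
    · have e1 : ∑ i, (n q i : ℂ) * ⟪v i, T (v i)⟫_ℂ - (∑ i, (n q i : ℂ)) *
          ∑ i, (l i : ℂ) * ⟪v i, T (v i)⟫_ℂ = ((q : ℝ) : ℂ) *
          (∑ i, (((n q i : ℝ) / q : ℝ) : ℂ) * ⟪v i, T (v i)⟫_ℂ -
            ((((∑ i, (n q i : ℝ)) / (q : ℝ) : ℝ)) : ℂ) *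
              ∑ i, (l i : ℂ) * ⟪v i, T (v i)⟫_ℂ) := by
        have hqc : (q : ℂ) ≠ 0 := by
          exact_mod_cast hq0.ne'
        have a1 : ((q : ℝ) : ℂ) * ∑ i, (((n q i : ℝ) / q : ℝ) : ℂ) * ⟪v i, T (v i)⟫_ℂ =
            ∑ i, (n q i : ℂ) * ⟪v i, T (v i)⟫_ℂ := by
          rw [Finset.mul_sum]
          refine Finset.sum_congr rfl fun i _ => ?_
          push_cast
          field_simp
        have a2 : ((q : ℝ) : ℂ) * ((((∑ i, (n q i : ℝ)) / (q : ℝ) : ℝ)) : ℂ) =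
            ∑ i, (n q i : ℂ) := by
          push_cast
          field_simp
        rw [mul_sub, a1, ← mul_assoc, a2]
      rw [e1, norm_mul, Complex.norm_real, Real.norm_of_nonneg hq0.le]
      have e3 := mul_le_mul_of_nonneg_left (h6 T hT).le hq0.le
      refine e3.trans (le_of_eq ?_)
      field_simp

end Pool.Agent.Helper784QW
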