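import Pool.Agent.Helper784QW.Spec

/-!
JOB QW-K5c (owner helper784, MP_47effe_an): a matrix is near a unitary (polar decomposition).
-/

set_option autoImplicit false

open scoped InnerProductSpace ComplexOrder

namespace Pool.Agent.Helper784QW

open Matrix Pool.Agent.W661.RC Pool.Agent.W683.RC

section s5c

variable {n : Type} [Fintype n] [DecidableEq n]

lemma s5c_hs_left {q : Matrix n n ℂ} (hq : qᴴ * q = 1) (a : Matrix n n ℂ) : hs (q * a) = hs a := by
  rw [hs_eq, hs_eq, conjTranspose_mul]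
  congr 2
  rw [Matrix.mul_assoc, ← Matrix.mul_assoc qᴴ, hq, Matrix.one_mul]

lemma s5c_hs_right {w : Matrix n n ℂ} (hw : wᴴ * w = 1) (a : Matrix n n ℂ) :
    hs (a * wᴴ) = hs a := by
  rw [hs_eq', hs_eq', conjTranspose_mul, conjTranspose_conjTranspose]
  congr 2
  rw [Matrix.mul_assoc, ← Matrix.mul_assoc wᴴ, hw, Matrix.one_mul]

lemma s5c_hs_diag (f : n → ℝ) : hs (Matrix.diagonal fun i => (f i : ℂ)) = ∑ i, f i ^ 2 := by
  unfold hs
  refine Finset.sum_congr rfl fun i _ => ?_
  rw [Finset.sum_eq_single i]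
  · rw [diagonal_apply_eq]
    simp
  · intro j _ hj
    rw [diagonal_apply_ne' _ hj]
    simp
  · intro h
    exact absurd (Finset.mem_univ i) h

/-- polar decomposition of a matrix with orthogonal columns -/
lemma s5c_cols (y : Matrix n n ℂ) (d : n → ℝ) (hd : ∀ i, 0 ≤ d i)
    (hy : yᴴ * y = Matrix.diagonal fun i => (d i : ℂ)) :
    ∃ q : Matrix n n ℂ, qᴴ * q = 1 ∧ y = q * Matrix.diagonal fun i => ((√(d i) : ℝ) : ℂ) := by
  let v : n → EuclideanSpace ℂ n := fun i => WithLp.toLp 2 (fun k => ((√(d i))⁻¹ : ℂ) * y k i)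
  have hyij : ∀ i j, ∑ k, star (y k i) * y k j = if i = j then (d i : ℂ) else 0 := by
    intro i j
    have := congrFun (congrFun hy i) j
    rw [Matrix.mul_apply, diagonal_apply] at this
    exact this
  have hv : Orthonormal ℂ (({i : n | d i ≠ 0} : Set n).domRestrict v) := by
    rw [orthonormal_iff_ite]
    rintro ⟨i, hi⟩ ⟨j, hj⟩
    have hsq : ∀ i, d i ≠ 0 → ((√(d i) : ℝ) : ℂ) ≠ 0 := by
      intro i hi
      exact_mod_cast (Real.sqrt_pos.mpr (lt_of_le_of_ne (hd i) (Ne.symm hi))).ne'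
    have e : inner ℂ (v i) (v j) = ((√(d i))⁻¹ : ℂ) * ((√(d j))⁻¹ : ℂ) *
        ∑ k, star (y k i) * y k j := by
      rw [PiLp.inner_apply, Finset.mul_sum]
      refine Finset.sum_congr rfl fun k _ => ?_
      show inner ℂ (((√(d i))⁻¹ : ℂ) * y k i) (((√(d j))⁻¹ : ℂ) * y k j) = _
      rw [RCLike.inner_apply]
      simp only [map_mul, map_inv₀, Complex.conj_ofReal]
      rw [starRingEnd_apply]
      ring
    show inner ℂ (v i) (v j) = _
    rw [e, hyij]
    by_cases hij : i = j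
    · subst hij
      rw [if_pos rfl, if_pos rfl]
      have h1 := hsq i hi
      have h2 : ((d i : ℝ) : ℂ) = ((√(d i) : ℝ) : ℂ) * ((√(d i) : ℝ) : ℂ) := by
        rw [← Complex.ofReal_mul, Real.mul_self_sqrt (hd i)]
      rw [h2]
      field_simp
    · rw [if_neg hij, mul_zero, if_neg]
      intro h
      exact hij (congrArg Subtype.val h)
  obtain ⟨b, hb⟩ := Orthonormal.exists_orthonormalBasis_extension_of_card_eq
    (by simp) hv
  refine ⟨Matrix.of fun k i => b i k, ?_, ?_⟩
  · ext i j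
    rw [Matrix.mul_apply, Matrix.one_apply]
    have := orthonormal_iff_ite.mp b.orthonormal i j
    rw [← this, PiLp.inner_apply]
    refine Finset.sum_congr rfl fun k _ => ?_
    rw [RCLike.inner_apply, conjTranspose_apply, Matrix.of_apply, Matrix.of_apply, mul_comm]
    rfl
  · ext k i
    rw [Matrix.mul_diagonal, Matrix.of_apply]
    by_cases hi : d i = 0
    · rw [hi, Real.sqrt_zero, Complex.ofReal_zero, mul_zero]
      have h1 := hyij i i
      rw [if_pos rfl, hi, Complex.ofReal_zero] at h1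
      have h2 : ∑ k, ‖y k i‖ ^ 2 = 0 := by
        have : ((∑ k, ‖y k i‖ ^ 2 : ℝ) : ℂ) = 0 := by
          rw [← h1, Complex.ofReal_sum]
          refine Finset.sum_congr rfl fun k _ => ?_
          rw [Complex.star_def, Complex.conj_mul', Complex.ofReal_pow]
        exact_mod_cast this
      have h3 := (Finset.sum_eq_zero_iff_of_nonneg (fun k _ => sq_nonneg ‖y k i‖)).mp h2 k
        (Finset.mem_univ k)
      exact norm_eq_zero.mp (pow_eq_zero_iff (two_ne_zero) |>.mp h3)
    · rw [hb i hi]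
      show y k i = ((√(d i))⁻¹ : ℂ) * y k i * _
      have h1 : ((√(d i) : ℝ) : ℂ) ≠ 0 := by
        exact_mod_cast (Real.sqrt_pos.mpr (lt_of_le_of_ne (hd i) (Ne.symm hi))).ne'
      field_simp

end s5c

theorem s5c : S5c := by
  intro n _ _ x
  have hP : (xᴴ * x).PosSemidef := posSemidef_conjTranspose_mul_self x
  have hH : (xᴴ * x).IsHermitian := hP.1
  obtain ⟨w, d, hw, hw', hd, hsp⟩ : ∃ (w : Matrix n n ℂ) (d : n → ℝ), wᴴ * w = 1 ∧ w * wᴴ = 1 ∧
      (∀ i, 0 ≤ d i) ∧ xᴴ * x = w * (Matrix.diagonal fun i => (d i : ℂ)) * wᴴ := by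
    refine ⟨hH.eigenvectorUnitary, hH.eigenvalues, ?_, ?_, hP.eigenvalues_nonneg, ?_⟩
    · exact Unitary.coe_star_mul_self _
    · exact Unitary.coe_mul_star_self _
    · have h := hH.spectral_theorem
      rw [Unitary.conjStarAlgAut_apply] at h
      exact h
  have hy : (x * w)ᴴ * (x * w) = Matrix.diagonal fun i => (d i : ℂ) := by
    rw [conjTranspose_mul, Matrix.mul_assoc, ← Matrix.mul_assoc xᴴ, hsp]
    calc wᴴ * (w * (diagonal fun i => (d i : ℂ)) * wᴴ * w)
        = (wᴴ * w) * (diagonal fun i => (d i : ℂ)) * (wᴴ * w) := by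
          simp only [Matrix.mul_assoc]
      _ = _ := by rw [hw, Matrix.one_mul, Matrix.mul_one]
  obtain ⟨q, hq, hyq⟩ := s5c_cols (x * w) d hd hy
  have hx : x = q * (Matrix.diagonal fun i => ((√(d i) : ℝ) : ℂ)) * wᴴ := by
    rw [← hyq, Matrix.mul_assoc, hw', Matrix.mul_one]
  refine ⟨q * wᴴ, ?_, ?_⟩
  · rw [conjTranspose_mul, conjTranspose_conjTranspose, Matrix.mul_assoc, ← Matrix.mul_assoc qᴴ,
      hq, Matrix.one_mul, hw']
  · have e1 : x - q * wᴴ = q * (Matrix.diagonal fun i => ((√(d i) - 1 : ℝ) : ℂ)) * wᴴ := by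
      conv_lhs => rw [hx]
      rw [← Matrix.sub_mul]
      congr 1
      have : (Matrix.diagonal fun i => ((√(d i) - 1 : ℝ) : ℂ)) =
          (Matrix.diagonal fun i => ((√(d i) : ℝ) : ℂ)) - 1 := by
        rw [← Matrix.diagonal_one, Matrix.diagonal_sub]
        congr 1
        ext i
        push_cast
        rfl
      rw [this, Matrix.mul_sub, Matrix.mul_one]
    have e2 : xᴴ * x - 1 = w * (Matrix.diagonal fun i => ((d i - 1 : ℝ) : ℂ)) * wᴴ := by
      have : (Matrix.diagonal fun i => ((d i - 1 : ℝ) : ℂ)) =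
          (Matrix.diagonal fun i => ((d i : ℝ) : ℂ)) - 1 := by
        rw [← Matrix.diagonal_one, Matrix.diagonal_sub]
        congr 1
        ext i
        push_cast
        rfl
      rw [this, Matrix.mul_sub, Matrix.mul_one, Matrix.sub_mul, hw', ← hsp]
    rw [e1, e2, s5c_hs_right hw, s5c_hs_right hw, s5c_hs_left hq, s5c_hs_left hw, s5c_hs_diag,
      s5c_hs_diag]
    refine Finset.sum_le_sum fun i _ => ?_
    have h0 := Real.sqrt_nonneg (d i)
    have h1 : d i = √(d i) * √(d i) := (Real.mul_self_sqrt (hd i)).symm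
    have h2 : d i - 1 = (√(d i) - 1) * (√(d i) + 1) := by
      conv_lhs => rw [h1]
      ring
    rw [h2, mul_pow]
    have h3 : 1 ≤ (√(d i) + 1) ^ 2 := by nlinarith
    exact le_mul_of_one_le_right (sq_nonneg _) h3

end Pool.Agent.Helper784QW
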