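import Pool.Agent.Helper784QW.Spec

set_option autoImplicit false

open scoped InnerProductSpace ComplexOrder

namespace Pool.Agent.Helper784QW

open Matrix Pool.Agent.W661.RC Pool.Agent.W683.RC

namespace J5763

section A

variable {K : Type} [NormedAddCommGroup K] [InnerProductSpace ℂ K] [CompleteSpace K]

lemma Dq_nonneg {N : ℕ} (v : Fin N → K) (a : Fin N → ℝ) (c : K →L[ℂ] K) : 0 ≤ Dq v a c :=
  Finset.sum_nonneg fun _ _ => sq_nonneg _

lemma Dq_zero {N : ℕ} (v : Fin N → K) (a : Fin N → ℝ) : Dq v a (0 : K →L[ℂ] K) = 0 := by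
  simp [Dq]

lemma norm_add_sq_le (x y : K) : ‖x + y‖ ^ 2 ≤ 2 * ‖x‖ ^ 2 + 2 * ‖y‖ ^ 2 := by
  have h := norm_add_le x y
  nlinarith [norm_nonneg x, norm_nonneg y, norm_nonneg (x + y), sq_nonneg (‖x‖ - ‖y‖)]

lemma Dq_add {N : ℕ} (v : Fin N → K) (a : Fin N → ℝ) (c e : K →L[ℂ] K) :
    Dq v a (c + e) ≤ 2 * Dq v a c + 2 * Dq v a e := by
  unfold Dq
  rw [Finset.mul_sum, Finset.mul_sum, ← Finset.sum_add_distrib]
  refine Finset.sum_le_sum fun i _ => ?_
  have e1 : (∑ j, ((a j : ℂ) * ⟪v j, (c + e) (v i)⟫_ℂ) • v j) - (a i : ℂ) • (c + e) (v i) =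
      ((∑ j, ((a j : ℂ) * ⟪v j, c (v i)⟫_ℂ) • v j) - (a i : ℂ) • c (v i)) +
      ((∑ j, ((a j : ℂ) * ⟪v j, e (v i)⟫_ℂ) • v j) - (a i : ℂ) • e (v i)) := by
    simp only [_root_.add_apply, inner_add_right, mul_add, add_smul, smul_add,
      Finset.sum_add_distrib]
    abel
  rw [e1]
  exact norm_add_sq_le _ _

lemma Dq_smul {N : ℕ} (v : Fin N → K) (a : Fin N → ℝ) (z : ℂ) (c : K →L[ℂ] K) :
    Dq v a (z • c) = ‖z‖ ^ 2 * Dq v a c := by
  unfold Dq
  rw [Finset.mul_sum]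
  refine Finset.sum_congr rfl fun i _ => ?_
  have e1 : (∑ j, ((a j : ℂ) * ⟪v j, (z • c) (v i)⟫_ℂ) • v j) - (a i : ℂ) • (z • c) (v i) =
      z • ((∑ j, ((a j : ℂ) * ⟪v j, c (v i)⟫_ℂ) • v j) - (a i : ℂ) • c (v i)) := by
    rw [smul_sub, Finset.smul_sum]
    congr 1
    · refine Finset.sum_congr rfl fun j _ => ?_
      rw [_root_.smul_apply, inner_smul_right, smul_smul]
      congr 1
      ring
    · rw [_root_.smul_apply, smul_smul, smul_smul, mul_comm]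
  rw [e1, norm_smul, mul_pow]

lemma Dq_span {B : Type} [CStarAlgebra B] (ι : B →⋆ₐ[ℂ] (K →L[ℂ] K)) (b : B) :
    ∃ (E : Finset B) (C : ℝ), 0 ≤ C ∧ (∀ w ∈ E, w ∈ unitary B) ∧
      ∀ (N : ℕ) (v : Fin N → K) (a : Fin N → ℝ) (δ : ℝ), 0 ≤ δ →
        (∀ w ∈ E, Dq v a (ι w) ≤ δ) → Dq v a (ι b) ≤ C * δ := by
  classical
  have hb : b ∈ Submodule.span ℂ (unitary B : Set B) := by
    rw [CStarAlgebra.span_unitary]; trivial
  induction hb using Submodule.span_induction with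
  | mem x hx =>
    refine ⟨{x}, 1, zero_le_one, by simpa using hx, fun N v a δ _ h => ?_⟩
    rw [one_mul]
    exact h x (Finset.mem_singleton_self x)
  | zero =>
    refine ⟨∅, 0, le_rfl, by simp, fun N v a δ _ _ => ?_⟩
    rw [map_zero, Dq_zero, zero_mul]
  | add x y _ _ ihx ihy =>
    obtain ⟨E, C, hC, hE, h⟩ := ihx
    obtain ⟨E', C', hC', hE', h'⟩ := ihy
    refine ⟨E ∪ E', 2 * C + 2 * C', by positivity, ?_, fun N v a δ hδ hw => ?_⟩
    · intro w hw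
      rcases Finset.mem_union.1 hw with hw | hw
      · exact hE w hw
      · exact hE' w hw
    · rw [map_add]
      have h1 := h N v a δ hδ fun w hw' => hw w (Finset.mem_union_left _ hw')
      have h2 := h' N v a δ hδ fun w hw' => hw w (Finset.mem_union_right _ hw')
      have h3 := Dq_add v a (ι x) (ι y)
      linarith
  | smul z x _ ih =>
    obtain ⟨E, C, hC, hE, h⟩ := ih
    refine ⟨E, ‖z‖ ^ 2 * C, by positivity, hE, fun N v a δ hδ hw => ?_⟩
    rw [map_smul, Dq_smul, mul_assoc]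
    exact mul_le_mul_of_nonneg_left (h N v a δ hδ hw) (sq_nonneg _)

lemma Dq_fin {B : Type} [CStarAlgebra B] (ι : B →⋆ₐ[ℂ] (K →L[ℂ] K)) (F : Finset B) :
    ∃ (E : Finset B) (C : ℝ), 0 ≤ C ∧ (∀ w ∈ E, w ∈ unitary B) ∧
      ∀ (N : ℕ) (v : Fin N → K) (a : Fin N → ℝ) (δ : ℝ), 0 ≤ δ →
        (∀ w ∈ E, Dq v a (ι w) ≤ δ) → ∀ b ∈ F, Dq v a (ι b) ≤ C * δ := by
  classical
  choose E C hC hE h using Dq_span ι
  refine ⟨F.biUnion E, ∑ b ∈ F, C b, Finset.sum_nonneg fun b _ => hC b, ?_,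
    fun N v a δ hδ hw b hb => ?_⟩
  · intro w hw
    obtain ⟨b, _, hb⟩ := Finset.mem_biUnion.1 hw
    exact hE b w hb
  · refine (h b N v a δ hδ fun w hw' => hw w (Finset.mem_biUnion.2 ⟨b, hb, hw'⟩)).trans ?_
    exact mul_le_mul_of_nonneg_right
      (Finset.single_le_sum (f := C) (fun b _ => hC b) hb) hδ

lemma key (h3 : S3) (h4a : S4a) (h4b : S4b) (h5b : S5b) {B : Type} [CStarAlgebra B]
    (ι : B →⋆ₐ[ℂ] (K →L[ℂ] K)) (ψ : (K →L[ℂ] K) →ₗ[ℂ] ℂ) (hψ : ∀ T, 0 ≤ ψ (star T * T))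
    (h1 : ψ 1 = 1) (htr : ∀ b T, ψ (ι b * T) = ψ (T * ι b)) (F X : Finset B) (δ : ℝ)
    (hδ : 0 < δ) :
    ∃ (N : ℕ) (v : Fin N → K) (n : Fin N → ℕ), Orthonormal ℂ v ∧ 0 < ∑ i, n i ∧
      (∀ b ∈ F, Dq v (fun i => √(n i)) (ι b) ≤ δ * ∑ i, (n i : ℝ)) ∧
      ∀ x ∈ X, ‖∑ i, (n i : ℂ) * ⟪v i, ι x (v i)⟫_ℂ - (∑ i, (n i : ℂ)) * ψ (ι x)‖ ≤
        δ * ∑ i, (n i : ℝ) := by
  classical
  obtain ⟨E, C, hC, hE, hEF⟩ := Dq_fin ι F
  have hC2 : 0 < C + 2 := by linarith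
  set δ' : ℝ := δ / (C + 2) with hδ'
  have hδ0 : 0 < δ' := div_pos hδ hC2
  have hδe : δ' * (C + 2) = δ := div_mul_cancel₀ _ hC2.ne'
  obtain ⟨m, t, ζ, ht0, ht1, hζ, hcomm, hval⟩ := h3 K ψ hψ h1 (E.image ι) (X.image ι) (by
    intro e he T
    obtain ⟨w, _, rfl⟩ := Finset.mem_image.1 he
    exact htr w T) δ' hδ0
  obtain ⟨N, v, l, hv, hl0, hl1, hvl⟩ := h4a K m t ζ ht0 ht1 hζ
  have hD : ∀ w ∈ E, Dq v (fun i => √(l i)) (ι w) ≤ δ' := by
    intro w hw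
    refine h4b K N v l hv hl0 hl1 (ι w) ?_ δ' fun T => ?_
    · have hwu := Unitary.mem_iff.1 (hE w hw)
      rw [Unitary.mem_iff, ← map_star, ← map_mul, ← map_mul, hwu.1, hwu.2, map_one]
      exact ⟨rfl, rfl⟩
    · have h := hcomm (ι w) (Finset.mem_image_of_mem _ hw) T
      have e1 := hvl (ι w * T)
      have e2 := hvl (T * ι w)
      have e3 : ∑ k, (t k : ℂ) * (⟪ζ k, (ι w) (T (ζ k))⟫_ℂ - ⟪ζ k, T ((ι w) (ζ k))⟫_ℂ) =
          ∑ i, (l i : ℂ) * (⟪v i, (ι w) (T (v i))⟫_ℂ - ⟪v i, T ((ι w) (v i))⟫_ℂ) := by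
        simp only [mul_sub, Finset.sum_sub_distrib]
        exact congrArg₂ (· - ·) e1 e2
      rwa [e3] at h
  have hDF := hEF N v (fun i => √(l i)) δ' hδ0.le hD
  obtain ⟨n, hn, hnE⟩ := h5b K N v l hv hl0 hl1 (F.image ι ∪ X.image ι) δ' hδ0
  have hn0 : (0 : ℝ) ≤ ∑ i, (n i : ℝ) := Finset.sum_nonneg fun _ _ => Nat.cast_nonneg _
  refine ⟨N, v, n, hv, hn, fun b hb => ?_, fun x hx => ?_⟩
  · have h := (hnE (ι b) (Finset.mem_union_left _ (Finset.mem_image_of_mem _ hb))).1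
    refine h.trans (mul_le_mul_of_nonneg_right ?_ hn0)
    have := hDF b hb
    nlinarith
  · have h := (hnE (ι x) (Finset.mem_union_right _ (Finset.mem_image_of_mem _ hx))).2
    have h' := hval (ι x) (Finset.mem_image_of_mem _ hx)
    rw [hvl (ι x)] at h'
    have e1 : ∑ i, (n i : ℂ) * ⟪v i, ι x (v i)⟫_ℂ - (∑ i, (n i : ℂ)) * ψ (ι x) =
        (∑ i, (n i : ℂ) * ⟪v i, ι x (v i)⟫_ℂ -
          (∑ i, (n i : ℂ)) * ∑ i, (l i : ℂ) * ⟪v i, ι x (v i)⟫_ℂ) +
        (∑ i, (n i : ℂ)) * (∑ i, (l i : ℂ) * ⟪v i, ι x (v i)⟫_ℂ - ψ (ι x)) := by ring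
    have e2 : ‖∑ i, (n i : ℂ)‖ = ∑ i, (n i : ℝ) := by
      have : (∑ i, (n i : ℂ)) = ((∑ i, (n i : ℝ) : ℝ) : ℂ) := by push_cast; rfl
      rw [this, Complex.norm_real, Real.norm_of_nonneg hn0]
    rw [e1]
    refine (norm_add_le _ _).trans ?_
    rw [norm_mul, e2]
    have h'' := mul_le_mul_of_nonneg_left h' hn0
    have hb : 2 * δ' ≤ δ := by nlinarith
    nlinarith [mul_le_mul_of_nonneg_right hb hn0]

end A

section Th

variable {K : Type} [NormedAddCommGroup K] [InnerProductSpace ℂ K] [CompleteSpace K]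

lemma th_sub {N : ℕ} (v : Fin N → K) (n : Fin N → ℕ) (S T : K →L[ℂ] K) :
    th v n (S - T) = th v n S - th v n T := by
  ext a b
  simp only [th, Matrix.of_apply, Matrix.sub_apply]
  split_ifs
  · rw [_root_.sub_apply, inner_sub_right]
  · rw [sub_zero]

/-- extension of a column by zero -/
noncomputable def XX {N : ℕ} (n : Fin N → ℕ) {l : Type} (x : Matrix (Σ i : Fin N, Fin (n i)) l ℂ)
    (j : Fin N) (s : ℕ) (p : l) : ℂ := if h : s < n j then x ⟨j, ⟨s, h⟩⟩ p else 0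

lemma th_mul_apply {N : ℕ} (v : Fin N → K) (n : Fin N → ℕ) {l : Type}
    (x : Matrix (Σ i : Fin N, Fin (n i)) l ℂ) (T : K →L[ℂ] K) (a : Σ i : Fin N, Fin (n i))
    (p : l) : (th v n T * x) a p = ⟪v a.1, T (∑ j, XX n x j a.2 p • v j)⟫_ℂ := by
  rw [Matrix.mul_apply, Fintype.sum_sigma, map_sum, inner_sum]
  refine Finset.sum_congr rfl fun j _ => ?_
  rw [map_smul, inner_smul_right]
  simp only [th, Matrix.of_apply]
  unfold XX
  by_cases h : (a.2 : ℕ) < n j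
  · rw [dif_pos h, Finset.sum_eq_single (⟨(a.2 : ℕ), h⟩ : Fin (n j))]
    · rw [if_pos rfl, mul_comm]
    · intro b _ hb
      rw [if_neg, zero_mul]
      intro hab
      apply hb
      exact Fin.ext hab.symm
    · intro hb
      exact absurd (Finset.mem_univ _) hb
  · rw [dif_neg h, zero_mul]
    refine Finset.sum_eq_zero fun b _ => ?_
    rw [if_neg, zero_mul]
    intro hab
    apply h
    rw [hab]
    exact b.2

lemma sum_sigma_le {N : ℕ} (n : Fin N → ℕ) (S : ℕ) (hS : ∀ i, n i ≤ S) (f : Fin N → ℕ → ℝ)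
    (hf : ∀ i s, 0 ≤ f i s) :
    ∑ a : (Σ i : Fin N, Fin (n i)), f a.1 a.2 ≤ ∑ s ∈ Finset.range S, ∑ i, f i s := by
  rw [Fintype.sum_sigma, Finset.sum_comm]
  refine Finset.sum_le_sum fun i _ => ?_
  rw [Fin.sum_univ_eq_sum_range (fun s => f i s) (n i)]
  exact Finset.sum_le_sum_of_subset_of_nonneg (Finset.range_mono (hS i)) fun s _ _ => hf i s

lemma sum_sigma_XX {N : ℕ} (n : Fin N → ℕ) (S : ℕ) (hS : ∀ i, n i ≤ S) {l : Type}
    (x : Matrix (Σ i : Fin N, Fin (n i)) l ℂ) (p : l) :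
    ∑ s ∈ Finset.range S, ∑ i, ‖XX n x i s p‖ ^ 2 =
      ∑ a : (Σ i : Fin N, Fin (n i)), ‖x a p‖ ^ 2 := by
  rw [Fintype.sum_sigma, Finset.sum_comm]
  refine Finset.sum_congr rfl fun i _ => ?_
  have h1 : ∀ b : Fin (n i), ‖x ⟨i, b⟩ p‖ ^ 2 = ‖XX n x i b p‖ ^ 2 := by
    intro b
    unfold XX
    rw [dif_pos b.2]
  rw [Finset.sum_congr rfl fun b _ => h1 b,
    Fin.sum_univ_eq_sum_range (fun s => ‖XX n x i s p‖ ^ 2) (n i)]
  symm
  refine Finset.sum_subset (Finset.range_mono (hS i)) fun s _ hs => ?_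
  rw [Finset.mem_range] at hs
  unfold XX
  rw [dif_neg hs]
  simp

lemma norm_sum_orth {N : ℕ} {v : Fin N → K} (hv : Orthonormal ℂ v) (c : Fin N → ℂ) :
    ‖∑ j, c j • v j‖ ^ 2 = ∑ j, ‖c j‖ ^ 2 := by
  have h := hv.inner_sum c c Finset.univ
  rw [inner_self_eq_norm_sq_to_K] at h
  have h2 : ((‖∑ j, c j • v j‖ ^ 2 : ℝ) : ℂ) = ((∑ j, ‖c j‖ ^ 2 : ℝ) : ℂ) := by
    push_cast
    refine h.trans ?_
    refine Finset.sum_congr rfl fun j _ => ?_
    rw [mul_comm, Complex.mul_conj, Complex.normSq_eq_norm_sq]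
    push_cast
    rfl
  exact_mod_cast h2

lemma hs_th_mul {N : ℕ} {v : Fin N → K} (hv : Orthonormal ℂ v) (n : Fin N → ℕ) {l : Type}
    [Fintype l] (x : Matrix (Σ i : Fin N, Fin (n i)) l ℂ) (T : K →L[ℂ] K) :
    hs (th v n T * x) ≤ ‖T‖ ^ 2 * hs x := by
  classical
  set S : ℕ := Finset.univ.sup n with hSdef
  have hS : ∀ i, n i ≤ S := fun i => Finset.le_sup (Finset.mem_univ i)
  unfold hs
  rw [Finset.sum_comm, Finset.sum_comm (s := Finset.univ (α := (Σ i : Fin N, Fin (n i)))),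
    Finset.mul_sum]
  refine Finset.sum_le_sum fun p _ => ?_
  have e1 : ∀ a : (Σ i : Fin N, Fin (n i)), ‖(th v n T * x) a p‖ ^ 2 =
      (fun (i : Fin N) (s : ℕ) => ‖⟪v i, T (∑ j, XX n x j s p • v j)⟫_ℂ‖ ^ 2) a.1 a.2 := by
    intro a
    rw [th_mul_apply]
  rw [Finset.sum_congr rfl fun a _ => e1 a]
  refine (sum_sigma_le n S hS (fun (i : Fin N) (s : ℕ) =>
    ‖⟪v i, T (∑ j, XX n x j s p • v j)⟫_ℂ‖ ^ 2) fun i s => sq_nonneg _).trans ?_
  rw [← sum_sigma_XX n S hS x p, Finset.mul_sum]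
  refine Finset.sum_le_sum fun s _ => ?_
  refine (hv.sum_inner_products_le _).trans ?_
  have h1 := T.le_opNorm (∑ j, XX n x j s p • v j)
  rw [← norm_sum_orth hv]
  have h2 := pow_le_pow_left₀ (norm_nonneg _) h1 2
  rwa [mul_pow] at h2

end Th

lemma hs_submatrix {m n : Type} [Fintype m] [Fintype n] (e : m ≃ n) (x : Matrix n n ℂ) :
    hs (x.submatrix e e) = hs x := by
  unfold hs
  rw [← e.sum_comp]
  refine Finset.sum_congr rfl fun i _ => ?_
  rw [← e.sum_comp]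
  rfl

lemma trace_submatrix' {m n : Type} [Fintype m] [Fintype n] (e : m ≃ n) (x : Matrix n n ℂ) :
    Matrix.trace (x.submatrix e e) = Matrix.trace x := by
  unfold Matrix.trace
  rw [← e.sum_comp (fun i => x.diag i)]
  rfl

lemma reindex_hyper {Γ : Type} [Group Γ] (A : Finset Γ) (ε : ℝ) (hε : 0 < ε) (I : Type)
    [Fintype I] [DecidableEq I] (hI : 0 < Fintype.card I) (w : Γ → Matrix I I ℂ)
    (hw : ∀ g, (w g)ᴴ * w g = 1)
    (h1 : ∀ a ∈ A, ∀ b ∈ A, hs (w (a * b) - w a * w b) < ε ^ 2 * Fintype.card I)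
    (h2 : ∀ a ∈ A, a ≠ 1 → ‖Matrix.trace (w a)‖ < ε * Fintype.card I) :
    ∃ (n : ℕ) (φ : Γ → Matrix.unitaryGroup (Fin n) ℂ), 0 < n ∧
    (∀ a ∈ A, ∀ b ∈ A, nrm ((φ (a * b) : Matrix (Fin n) (Fin n) ℂ) -
      (φ a : Matrix (Fin n) (Fin n) ℂ) * (φ b : Matrix (Fin n) (Fin n) ℂ)) < ε) ∧
    ∀ a ∈ A, a ≠ 1 → ‖Matrix.trace (φ a : Matrix (Fin n) (Fin n) ℂ)‖ < ε * n := by
  have hI' : (0 : ℝ) < (Fintype.card I : ℝ) := by exact_mod_cast hI
  set e := (Fintype.equivFin I).symm with he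
  refine ⟨Fintype.card I, fun g => ⟨(w g).submatrix e e, ?_⟩, hI, ?_, ?_⟩
  · rw [Matrix.mem_unitaryGroup_iff', Matrix.star_eq_conjTranspose, Matrix.conjTranspose_submatrix,
      Matrix.submatrix_mul_equiv, hw, Matrix.submatrix_one_equiv]
  · intro a ha b hb
    show nrm ((w (a * b)).submatrix e e - (w a).submatrix e e * (w b).submatrix e e) < ε
    have e1 : (w (a * b)).submatrix e e - (w a).submatrix e e * (w b).submatrix e e =
        (w (a * b) - w a * w b).submatrix e e := by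
      rw [Matrix.submatrix_mul_equiv]
      rfl
    rw [e1]
    unfold nrm
    rw [Matrix.star_eq_conjTranspose, ← hs_eq, hs_submatrix, Real.sqrt_lt' hε, div_lt_iff₀ hI']
    exact h1 a ha b hb
  · intro a ha h
    show ‖Matrix.trace ((w a).submatrix e e)‖ < _
    rw [trace_submatrix']
    exact h2 a ha h


lemma small_delta (P ε : ℝ) (hε : 0 < ε) : ∃ δ : ℝ, 0 < δ ∧
    4 * (3 + P ^ 2) * (2 * δ + 2 * (P ^ 2 * (δ + 2 * P * √δ))) < ε ^ 2 ∧
    δ + √(2 * δ + 2 * (P ^ 2 * (δ + 2 * P * √δ))) < ε := by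
  have hf : Continuous fun δ : ℝ => 4 * (3 + P ^ 2) * (2 * δ + 2 * (P ^ 2 * (δ + 2 * P * √δ))) := by
    fun_prop
  have hg : Continuous fun δ : ℝ => δ + √(2 * δ + 2 * (P ^ 2 * (δ + 2 * P * √δ))) := by
    fun_prop
  have h1 := (hf.tendsto 0).eventually_lt_const (u := ε ^ 2) (by simp; positivity)
  have h2 := (hg.tendsto 0).eventually_lt_const (u := ε) (by simpa using hε)
  have h3 : ∀ᶠ δ in nhdsWithin (0 : ℝ) (Set.Ioi 0), 0 < δ := self_mem_nhdsWithin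
  obtain ⟨δ, hδ⟩ := (((h1.and h2).filter_mono nhdsWithin_le_nhds).and h3).exists
  exact ⟨δ, hδ.2, hδ.1.1, hδ.1.2⟩

lemma hs_add4_le {m n : Type} [Fintype m] [Fintype n] (a b c d : Matrix m n ℂ) :
    hs (a + b + (c + d)) ≤ 4 * (hs a + hs b + hs c + hs d) := by
  have h1 := hs_add_le (a + b) (c + d)
  have h2 := hs_add_le a b
  have h3 := hs_add_le c d
  linarith

lemma trace_le_card {n : Type} [Fintype n] [DecidableEq n] (x : Matrix n n ℂ) :
    ‖Matrix.trace x‖ ≤ √(Fintype.card n) * √(hs x) := by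
  have h := norm_trace_le (1 : Matrix n n ℂ) x
  have h1 : hs (1 : Matrix n n ℂ) = Fintype.card n := by
    rw [hs_eq, Matrix.conjTranspose_one, Matrix.one_mul, Matrix.trace_one]
    simp
  rwa [Matrix.conjTranspose_one, Matrix.one_mul, h1] at h

end J5763

/-- TARGET -/
theorem sK6 (h12 : S12) (h3 : S3) (h4a : S4a) (h4b : S4b) (h5 : S5) (h5b : S5b) (h5c : S5c) : S6 := by
  classical
  intro L _ _ _ M hM η hη htrM hQ Γ _ u huM hu1 humul hustar hu0 A ε hε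
  obtain ⟨B, _, q, K, _, _, _, ι, ψ, hq, hψ, hψ1, hψtr, hψq⟩ := h12 L M hM η hη htrM hQ
  have hb' : ∀ g, ∃ b : B, q b = u g := by
    intro g
    have := huM g
    rw [← hq] at this
    exact this
  choose b hb using hb'
  -- the finite sets
  set A' : Finset Γ := A ∪ Finset.image (fun p : Γ × Γ => p.1 * p.2) (A ×ˢ A) with hA'
  have hAA' : ∀ g ∈ A, g ∈ A' := fun g hg => Finset.mem_union_left _ hg
  have hmA' : ∀ g ∈ A, ∀ h ∈ A, g * h ∈ A' := fun g hg h hh =>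
    Finset.mem_union_right _ (Finset.mem_image.2 ⟨(g, h), Finset.mem_product.2 ⟨hg, hh⟩, rfl⟩)
  set R : Finset B := Finset.image (fun p : Γ × Γ => b (p.1 * p.2) - b p.1 * b p.2) (A ×ˢ A) ∪
    Finset.image (fun g => star (b g) * b g - 1) A' with hR
  set F : Finset B := Finset.image b A' with hF
  set X : Finset B := Finset.image (fun r => star r * r) R ∪ F with hX
  -- norms
  obtain ⟨P, hP1, hP⟩ : ∃ P : ℝ, 1 ≤ P ∧ ∀ g ∈ A', ‖ι (b g)‖ ≤ P := by
    refine ⟨1 + ∑ g ∈ A', ‖ι (b g)‖, ?_, fun g hg => ?_⟩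
    · have : 0 ≤ ∑ g ∈ A', ‖ι (b g)‖ := Finset.sum_nonneg fun _ _ => norm_nonneg _
      linarith
    · have := Finset.single_le_sum (f := fun g => ‖ι (b g)‖) (fun _ _ => norm_nonneg _) hg
      linarith
  have hP0 : 0 ≤ P := by linarith
  obtain ⟨δ, hδ, hδ1, hδ2⟩ := J5763.small_delta P ε hε
  set ρ : ℝ := 2 * δ + 2 * (P ^ 2 * (δ + 2 * P * √δ)) with hρ
  have hρ0 : 0 ≤ ρ := by positivity
  obtain ⟨N, v, n, hv, hn, hDF, hXt⟩ := J5763.key h3 h4a h4b h5b ι ψ hψ hψ1 hψtr F X δ hδ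
  obtain ⟨h5s, h51, h5t, h5h, h5m⟩ := h5 K N v hv n
  have hcard : (Fintype.card (Σ i : Fin N, Fin (n i)) : ℝ) = ∑ i, (n i : ℝ) := by
    rw [Fintype.card_sigma]
    push_cast
    simp
  have hcard0 : 0 < Fintype.card (Σ i : Fin N, Fin (n i)) := by
    rw [Fintype.card_sigma]
    simpa using hn
  set d : ℝ := ∑ i, (n i : ℝ) with hd
  have hd0 : 0 < d := by
    rw [← hcard]
    exact_mod_cast hcard0
  set m : Γ → Matrix (Σ i : Fin N, Fin (n i)) (Σ i : Fin N, Fin (n i)) ℂ :=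
    fun g => th v n (ι (b g)) with hm
  choose w hw1 hw2 using fun g => h5c (Σ i : Fin N, Fin (n i)) (m g)
  -- multiplicativity
  have hmul : ∀ x : B, ‖ι x‖ ≤ P → ∀ g ∈ A', hs (th v n (ι x * ι (b g)) -
      th v n (ι x) * th v n (ι (b g))) ≤ P ^ 2 * (δ + 2 * P * √δ) * d := by
    intro x hx g hg
    have hD := hDF (b g) (Finset.mem_image_of_mem _ hg)
    have hPg := hP g hg
    refine (h5m (ι x) (ι (b g))).trans ?_
    have hD0 := J5763.Dq_nonneg v (fun i => √(n i : ℝ)) (ι (b g))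
    have hsq : √(d * Dq v (fun i => √(n i : ℝ)) (ι (b g))) ≤ √δ * d := by
      rw [show √δ * d = √(δ * d ^ 2) by
        rw [Real.sqrt_mul hδ.le, Real.sqrt_sq hd0.le]]
      refine Real.sqrt_le_sqrt ?_
      have := mul_le_mul_of_nonneg_left hD hd0.le
      nlinarith
    have hx2 : ‖ι x‖ ^ 2 ≤ P ^ 2 := pow_le_pow_left₀ (norm_nonneg _) hx 2
    have hin : Dq v (fun i => √(n i : ℝ)) (ι (b g)) + 2 * ‖ι (b g)‖ *
        √(d * Dq v (fun i => √(n i : ℝ)) (ι (b g))) ≤ (δ + 2 * P * √δ) * d := by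
      have h2 : 2 * ‖ι (b g)‖ * √(d * Dq v (fun i => √(n i : ℝ)) (ι (b g))) ≤
          2 * P * (√δ * d) :=
        mul_le_mul (by linarith) hsq (Real.sqrt_nonneg _) (by linarith)
      linarith
    rw [mul_assoc (P ^ 2)]
    exact mul_le_mul hx2 hin (add_nonneg hD0 (by positivity)) (sq_nonneg _)
  -- elements of the kernel of `q`
  have hker : ∀ r ∈ R, q r = 0 → hs (th v n (ι r)) ≤ δ * d := by
    intro r hr hqr
    have h := hXt (star r * r) (Finset.mem_union_left _ (Finset.mem_image_of_mem _ hr))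
    have hq0 : q (star r * r) = 0 := by rw [map_mul, hqr, mul_zero]
    rw [hψq, hq0, _root_.zero_apply, inner_zero_right, mul_zero, sub_zero,
      map_mul, map_star] at h
    refine (h5h (ι r)).trans ?_
    rw [h5t]
    exact (Complex.re_le_norm _).trans h
  have hstar : ∀ g, star (u g) * u g = 1 := by
    intro g
    rw [hustar, ← humul, inv_mul_cancel, hu1]
  -- near unitaries
  have hun : ∀ g ∈ A', hs ((m g)ᴴ * m g - 1) ≤ ρ * d := by
    intro g hg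
    have hr : star (b g) * b g - 1 ∈ R :=
      Finset.mem_union_right _ (Finset.mem_image.2 ⟨g, hg, rfl⟩)
    have h1 := hker _ hr (by rw [map_sub, map_mul, map_star, hb, hstar, map_one, sub_self])
    have h2 := hmul (star (b g)) (by rw [map_star, norm_star]; exact hP g hg) g hg
    have e1 : (m g)ᴴ * m g - 1 = th v n (ι (star (b g) * b g - 1)) -
        (th v n (ι (star (b g)) * ι (b g)) - th v n (ι (star (b g))) * th v n (ι (b g))) := by
      rw [map_sub, map_one, J5763.th_sub, h51, map_mul, map_star, h5s]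
      abel
    rw [e1]
    refine (hs_sub_le _ _).trans ?_
    rw [hρ]
    linarith
  have hnear : ∀ g ∈ A', hs (m g - w g) ≤ ρ * d := fun g hg => (hw2 g).trans (hun g hg)
  have hmm : ∀ g ∈ A, ∀ h ∈ A, hs (m (g * h) - m g * m h) ≤ ρ * d := by
    intro g hg h hh
    have hr : b (g * h) - b g * b h ∈ R :=
      Finset.mem_union_left _ (Finset.mem_image.2 ⟨(g, h), Finset.mem_product.2 ⟨hg, hh⟩, rfl⟩)
    have h1 := hker _ hr (by rw [map_sub, map_mul, hb, hb, hb, humul, sub_self])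
    have h2 := hmul (b g) (hP g (hAA' g hg)) h (hAA' h hh)
    have e1 : m (g * h) - m g * m h = th v n (ι (b (g * h) - b g * b h)) +
        (th v n (ι (b g) * ι (b h)) - th v n (ι (b g)) * th v n (ι (b h))) := by
      rw [map_sub, J5763.th_sub, map_mul]
      show th v n (ι (b (g * h))) - th v n (ι (b g)) * th v n (ι (b h)) = _
      abel
    rw [e1]
    refine (hs_add_le _ _).trans ?_
    rw [hρ]
    linarith
  refine J5763.reindex_hyper A ε hε (Σ i : Fin N, Fin (n i)) hcard0 w hw1 ?_ ?_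
  · intro g hg h hh
    have e1 : w (g * h) - w g * w h = -(m (g * h) - w (g * h)) + (m (g * h) - m g * m h) +
        (m g * (m h - w h) + (m g - w g) * w h) := by noncomm_ring
    rw [e1, hcard]
    refine (J5763.hs_add4_le _ _ _ _).trans_lt ?_
    rw [hs_neg, hs_mul_unit (hw1 h)]
    have a1 := hnear (g * h) (hmA' g hg h hh)
    have a2 := hmm g hg h hh
    have a3 : hs (m g * (m h - w h)) ≤ P ^ 2 * (ρ * d) := by
      refine (J5763.hs_th_mul hv n (m h - w h) (ι (b g))).trans ?_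
      exact mul_le_mul (pow_le_pow_left₀ (norm_nonneg _) (hP g (hAA' g hg)) 2)
        (hnear h (hAA' h hh)) (hs_nonneg _) (sq_nonneg _)
    have a4 := hnear g (hAA' g hg)
    have a5 := mul_lt_mul_of_pos_right hδ1 hd0
    nlinarith
  · intro g hg hg1
    rw [hcard]
    have h1 := hXt (b g) (Finset.mem_union_right _ (Finset.mem_image_of_mem _ (hAA' g hg)))
    rw [hψq, hb, hu0 g hg1, mul_zero, sub_zero, ← h5t] at h1
    have h2 : ‖Matrix.trace (w g)‖ ≤ ‖Matrix.trace (m g)‖ + ‖Matrix.trace (m g - w g)‖ := by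
      rw [Matrix.trace_sub]
      have := norm_sub_le (Matrix.trace (m g)) (Matrix.trace (m g) - Matrix.trace (w g))
      rwa [sub_sub_cancel] at this
    have h3 := J5763.trace_le_card (m g - w g)
    rw [hcard] at h3
    have h4 : √d * √(hs (m g - w g)) ≤ √ρ * d := by
      have h5 : √(hs (m g - w g)) ≤ √(ρ * d) := Real.sqrt_le_sqrt (hnear g (hAA' g hg))
      rw [Real.sqrt_mul hρ0] at h5
      have h6 := mul_le_mul_of_nonneg_left h5 (Real.sqrt_nonneg d)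
      have h7 : √d * √d = d := Real.mul_self_sqrt hd0.le
      nlinarith
    have h5 := mul_lt_mul_of_pos_right hδ2 hd0
    have h6 : ‖Matrix.trace (m g)‖ ≤ δ * d := h1
    linarith

end Pool.Agent.Helper784QW
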