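import Pool.Agent.Helper784QW.Spec

set_option autoImplicit false

open scoped InnerProductSpace ComplexOrder ENNReal

namespace Pool.Agent.Helper784QW

open Matrix Pool.Agent.W661.RC Pool.Agent.W683.RC

section aux

variable {N : Type} [Group N]

lemma V1a_rhoR_apply (m : N) (f : L2N N) (y : N) :
    (rhoR m f : N → ℂ) y = (f : N → ℂ) (y * m) := by
  unfold rhoR
  rw [permOp_apply]
  congr 1
  simp [Equiv.mulRight]

lemma V1a_lamL_apply (n : N) (f : L2N N) (y : N) :
    (lamL n f : N → ℂ) y = (f : N → ℂ) (n⁻¹ * y) := by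
  unfold lamL
  rw [permOp_apply]
  rfl

lemma V1a_dl {x : L2N N →L[ℂ] L2N N} (hx : x ∈ LN N) (m : N) :
    x (dl m) = rhoR m⁻¹ (x (dl 1)) := by
  have h1 : (dl m : L2N N) = rhoR m⁻¹ (dl 1) := by
    rw [rhoR_dl]; simp
  rw [h1]
  have h2 := congrArg (fun T : L2N N →L[ℂ] L2N N => T (dl 1)) (LN_rhoR hx m⁻¹)
  simpa using h2

lemma V1a_dl_apply {x : L2N N →L[ℂ] L2N N} (hx : x ∈ LN N) (m y : N) :
    (x (dl m) : N → ℂ) y = (x (dl 1) : N → ℂ) (y * m⁻¹) := by
  rw [V1a_dl hx m, V1a_rhoR_apply]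

lemma V1a_ext {x : L2N N →L[ℂ] L2N N} (h : ∀ m, x (dl m) = 0) : x = 0 := by
  classical
  refine ContinuousLinearMap.ext fun f => ?_
  have h1 : HasSum (fun i : N => lp.single 2 i ((f : N → ℂ) i)) f :=
    lp.hasSum_single (by norm_num) f
  have h2 := h1.mapL x
  have h3 : (fun i : N => x (lp.single 2 i ((f : N → ℂ) i))) = fun _ => 0 := by
    funext i
    have h4 : (lp.single 2 i ((f : N → ℂ) i) : L2N N) = ((f : N → ℂ) i) • dl i := by
      unfold dl
      rw [← lp.single_smul]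
      simp
    rw [h4, map_smul, h i, smul_zero]
  rw [h3] at h2
  have := h2.unique hasSum_zero
  rw [this]; rfl

lemma V1a_faithful {x : L2N N →L[ℂ] L2N N} (hx : x ∈ LN N) (h : x (dl 1) = 0) : x = 0 := by
  refine V1a_ext fun m => ?_
  rw [V1a_dl hx m, h, map_zero]

lemma V1a_trace_formula {x y : L2N N →L[ℂ] L2N N} (hx : x ∈ LN N) :
    ⟪dl (1 : N), (x * y) (dl 1)⟫_ℂ =
      ∑' m : N, (x (dl 1) : N → ℂ) m⁻¹ * (y (dl 1) : N → ℂ) m := by
  have h1 : ⟪dl (1 : N), (x * y) (dl 1)⟫_ℂ = ⟪(star x) (dl 1), y (dl 1)⟫_ℂ := by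
    rw [ContinuousLinearMap.star_eq_adjoint, ContinuousLinearMap.adjoint_inner_left]
    rfl
  rw [h1, lp.inner_eq_tsum]
  refine tsum_congr fun m => ?_
  have h2 : ((star x) (dl 1) : N → ℂ) m = (starRingEnd ℂ) ((x (dl 1) : N → ℂ) m⁻¹) := by
    rw [← inner_dl m ((star x) (dl 1)), ContinuousLinearMap.star_eq_adjoint,
      ContinuousLinearMap.adjoint_inner_right, ← inner_conj_symm, inner_dl, V1a_dl_apply hx]
    simp
  rw [h2, RCLike.inner_apply]
  simp [mul_comm]

end aux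

/-- TARGET -/
theorem LN_factor {N : Type} [Group N] [Infinite N] (hicc : ICC N) :
    ‖dl (1 : N)‖ = 1 ∧
    (∀ x ∈ LN N, ∀ y ∈ LN N, ⟪dl (1 : N), (x * y) (dl 1)⟫_ℂ = ⟪dl (1 : N), (y * x) (dl 1)⟫_ℂ) ∧
    (∀ x ∈ LN N, x (dl 1) = 0 → x = 0) ∧
    (∀ x ∈ LN N, (∀ y ∈ LN N, x * y = y * x) → ∃ c : ℂ, x = c • (1 : L2N N →L[ℂ] L2N N)) ∧
    ¬ ∃ s : Finset (L2N N →L[ℂ] L2N N), ∀ x ∈ LN N,
      x ∈ Submodule.span ℂ (s : Set (L2N N →L[ℂ] L2N N)) := by
  refine ⟨norm_dl 1, ?_, fun x hx h => V1a_faithful hx h, ?_, ?_⟩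
  · intro x hx y hy
    rw [V1a_trace_formula hx, V1a_trace_formula hy,
      ← (Equiv.inv N).tsum_eq (fun m => (y (dl 1) : N → ℂ) m⁻¹ * (x (dl 1) : N → ℂ) m)]
    refine tsum_congr fun m => ?_
    simp [mul_comm]
  · intro x hx hcomm
    have hconj : ∀ n y : N, (x (dl 1) : N → ℂ) y = (x (dl 1) : N → ℂ) (n⁻¹ * y * n) := by
      intro n y
      have h1 : (dl (1 : N) : L2N N) = lamL n (rhoR n (dl 1)) := by
        rw [rhoR_dl, lamL_dl]; simp
      have h2 : x (dl 1) = lamL n (rhoR n (x (dl 1))) := by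
        have h3 := congrArg (fun T : L2N N →L[ℂ] L2N N => T (rhoR n (dl 1)))
          (hcomm (lamL n) (lamL_mem n))
        have h4 := congrArg (fun T : L2N N →L[ℂ] L2N N => T (dl 1)) (LN_rhoR hx n)
        simp only [ContinuousLinearMap.mul_apply] at h3 h4
        rw [← h4, ← h3, ← h1]
      conv_lhs => rw [h2]
      rw [V1a_lamL_apply, V1a_rhoR_apply]
    have hzero : ∀ m : N, m ≠ 1 → (x (dl 1) : N → ℂ) m = 0 := by
      intro m hm
      by_contra hne
      have hp : 0 < (2 : ℝ≥0∞).toReal := by norm_num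
      have hs := (memℓp_gen_iff hp).mp (x (dl 1) : L2N N).2
      have ht := hs.tendsto_cofinite_zero
      have hpos : 0 < ‖(x (dl 1) : N → ℂ) m‖ ^ (2 : ℝ≥0∞).toReal :=
        Real.rpow_pos_of_pos (norm_pos_iff.mpr hne) _
      have hev := ht.eventually (gt_mem_nhds hpos)
      rw [Filter.eventually_cofinite] at hev
      refine hicc m hm (hev.subset ?_)
      rintro _ ⟨n, rfl⟩
      simp only [Set.mem_setOf_eq, not_lt]
      have h5 := hconj n (n * m * n⁻¹)
      have h6 : n⁻¹ * (n * m * n⁻¹) * n = m := by group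
      rw [h6] at h5
      rw [h5]
    refine ⟨(x (dl 1) : N → ℂ) 1, ?_⟩
    have h7 : x - ((x (dl 1) : N → ℂ) 1) • (1 : L2N N →L[ℂ] L2N N) ∈ LN N :=
      sub_mem hx (by
        show _ ∈ (LN N).toStarSubalgebra
        exact Subalgebra.smul_mem _ (one_mem _) _)
    have h8 := V1a_faithful h7 (by
      rw [ContinuousLinearMap.sub_apply, ContinuousLinearMap.smul_apply,
        ContinuousLinearMap.one_apply]
      refine lp.ext (funext fun y => ?_)
      rw [lp.coeFn_sub, Pi.sub_apply, lp.coeFn_smul, Pi.smul_apply, dl_apply]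
      by_cases hy : y = 1
      · subst hy; simp
      · rw [if_neg hy, hzero y hy]; simp)
    exact sub_eq_zero.mp h8
  · rintro ⟨s, hs⟩
    classical
    let ev : (L2N N →L[ℂ] L2N N) →ₗ[ℂ] L2N N :=
      { toFun := fun T => T (dl 1)
        map_add' := fun _ _ => rfl
        map_smul' := fun _ _ => rfl }
    let V : Submodule ℂ (L2N N) := (Submodule.span ℂ (s : Set (L2N N →L[ℂ] L2N N))).map ev
    have hfin : FiniteDimensional ℂ (Submodule.span ℂ (s : Set (L2N N →L[ℂ] L2N N))) :=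
      FiniteDimensional.span_finset ℂ s
    have hV : FiniteDimensional ℂ V := inferInstance
    have hmem : ∀ n : N, (dl n : L2N N) ∈ V := by
      intro n
      refine ⟨lamL n, hs _ (lamL_mem n), ?_⟩
      show lamL n (dl 1) = dl n
      rw [lamL_dl, mul_one]
    have horth : Orthonormal ℂ (fun n : N => (dl n : L2N N)) := by
      rw [orthonormal_iff_ite]
      intro i j
      rw [inner_dl, dl_apply]
    have hli : LinearIndependent ℂ (fun n : N => (⟨dl n, hmem n⟩ : V)) := by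
      refine LinearIndependent.of_comp V.subtype ?_
      exact horth.linearIndependent
    have := hli.finite
    exact not_finite N

end Pool.Agent.Helper784QW
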