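import Pool.Agent.Helper784QW.Spec

/-!
The group von Neumann algebra of a countable locally finite group is hyperfinite.
-/

set_option autoImplicit false

open scoped InnerProductSpace ComplexOrder

namespace Pool.Agent.Helper784QW

open Matrix Pool.Agent.W661.RC Pool.Agent.W683.RC

/-- the span of the translations by the elements of a subgroup -/
noncomputable def spA {N : Type} [Group N] (F : Subgroup N) :
    StarSubalgebra ℂ (L2N N →L[ℂ] L2N N) where
  carrier := Submodule.span ℂ (lamL '' (F : Set N))
  mul_mem' := by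
    intro a b ha hb
    have h1 : a * b ∈ (Submodule.span ℂ (lamL '' (F : Set N))) *
        (Submodule.span ℂ (lamL '' (F : Set N))) := Submodule.mul_mem_mul ha hb
    rw [Submodule.span_mul_span] at h1
    refine Submodule.span_mono ?_ h1
    rintro _ ⟨_, ⟨n, hn, rfl⟩, _, ⟨m, hm, rfl⟩, rfl⟩
    exact ⟨n * m, F.mul_mem hn hm, lamL_mul n m⟩
  add_mem' := fun ha hb => Submodule.add_mem _ ha hb
  algebraMap_mem' := by
    intro r
    have h1 : algebraMap ℂ (L2N N →L[ℂ] L2N N) r = r • (lamL (1 : N)) := by
      rw [Algebra.algebraMap_eq_smul_one, lamL_one]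
    show algebraMap ℂ (L2N N →L[ℂ] L2N N) r ∈ Submodule.span ℂ (lamL '' (F : Set N))
    rw [h1]
    exact Submodule.smul_mem _ _ (Submodule.subset_span ⟨1, F.one_mem, rfl⟩)
  star_mem' := by
    intro a ha
    show star a ∈ Submodule.span ℂ (lamL '' (F : Set N))
    have ha' : a ∈ Submodule.span ℂ (lamL '' (F : Set N)) := ha
    induction ha' using Submodule.span_induction with
    | mem x hx =>
      obtain ⟨n, hn, rfl⟩ := hx
      rw [star_lamL]
      exact Submodule.subset_span ⟨n⁻¹, F.inv_mem hn, rfl⟩
    | zero => rw [star_zero]; exact Submodule.zero_mem _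
    | add x y hx hy h1 h2 => rw [star_add]; exact Submodule.add_mem _ (h1 hx) (h2 hy)
    | smul c x hx h1 => rw [star_smul]; exact Submodule.smul_mem _ _ (h1 hx)

lemma mem_spA {N : Type} [Group N] (F : Subgroup N) (x : L2N N →L[ℂ] L2N N) :
    x ∈ spA F ↔ x ∈ Submodule.span ℂ (lamL '' (F : Set N)) := Iff.rfl

lemma span_dl {N : Type} :
    (Submodule.span ℂ (Set.range (dl : N → L2N N))).topologicalClosure = ⊤ := by
  classical
  rw [eq_top_iff]
  intro f _
  have h1 := lp.hasSum_single (p := 2) (by norm_num) f
  refine mem_closure_of_tendsto h1 (Filter.Eventually.of_forall fun s => ?_)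
  refine Submodule.sum_mem _ fun i _ => ?_
  have h2 : lp.single 2 i ((f : N → ℂ) i) = ((f : N → ℂ) i) • (dl i : L2N N) := by
    refine lp.ext (funext fun y => ?_)
    rw [lp.coeFn_smul, Pi.smul_apply, dl_apply]
    by_cases h : y = i
    · subst h; rw [lp.single_apply_self]; simp
    · rw [lp.single_apply_ne _ _ _ h, if_neg h]; simp
  rw [h2]
  exact Submodule.smul_mem _ _ (Submodule.subset_span ⟨i, rfl⟩)

/-- TARGET -/
theorem LN_hyper {N : Type} [Group N] [Countable N] (hlf : LocFin N) :
    (∃ F : ℕ → StarSubalgebra ℂ (L2N N →L[ℂ] L2N N), Monotone F ∧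
      (∀ n, ∃ s : Finset (L2N N →L[ℂ] L2N N), ∀ x ∈ F n,
        x ∈ Submodule.span ℂ (s : Set (L2N N →L[ℂ] L2N N))) ∧
      Set.centralizer (Set.centralizer (⋃ n, (F n : Set (L2N N →L[ℂ] L2N N)))) = LN N) ∧
    TopologicalSpace.SeparableSpace (L2N N) := by
  classical
  constructor
  · obtain ⟨f, hf⟩ := exists_surjective_nat N
    choose Fs hFs1 hFs2 using hlf
    let nx : {F : Subgroup N // (F : Set N).Finite} → ℕ → {F : Subgroup N // (F : Set N).Finite} :=
      fun F k => ⟨Fs (insert (f k) F.2.toFinset), hFs1 _⟩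
    let sq : ℕ → {F : Subgroup N // (F : Set N).Finite} :=
      fun k => Nat.rec ⟨⊥, by simp⟩ (fun k F => nx F k) k
    have hsq : ∀ k, sq (k + 1) = nx (sq k) k := fun k => rfl
    have hnx : ∀ F k, (F : {F : Subgroup N // (F : Set N).Finite}).1 ≤ (nx F k).1 ∧
        f k ∈ (nx F k).1 := by
      intro F k
      have h1 := hFs2 (insert (f k) F.2.toFinset)
      constructor
      · intro x hx
        apply h1
        simp [hx]
      · apply h1
        simp
    have hmono : Monotone fun k => (sq k).1 := by
      refine monotone_nat_of_le_succ fun k => ?_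
      rw [hsq]
      exact (hnx _ _).1
    refine ⟨fun k => spA (sq k).1, ?_, ?_, ?_⟩
    · intro i j hij x hx
      rw [mem_spA] at hx ⊢
      exact Submodule.span_mono (Set.image_mono (hmono hij)) hx
    · intro n
      refine ⟨((sq n).2.toFinset).image lamL, fun x hx => ?_⟩
      rw [mem_spA] at hx
      rw [Finset.coe_image, Set.Finite.coe_toFinset]
      exact hx
    · set U : Set (L2N N →L[ℂ] L2N N) := ⋃ n, ((spA (sq n).1 : StarSubalgebra ℂ _) :
        Set (L2N N →L[ℂ] L2N N)) with hU
      have h1 : Set.range (lamL : N → L2N N →L[ℂ] L2N N) ⊆ U := by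
        rintro _ ⟨n, rfl⟩
        obtain ⟨k, rfl⟩ := hf n
        refine Set.mem_iUnion.2 ⟨k + 1, ?_⟩
        have h2 : f k ∈ (sq (k + 1)).1 := by rw [hsq]; exact (hnx _ _).2
        exact Submodule.subset_span ⟨f k, h2, rfl⟩
      have h2 : U ⊆ (LN N : Set (L2N N →L[ℂ] L2N N)) := by
        intro x hx
        obtain ⟨k, hk⟩ := Set.mem_iUnion.1 hx
        have hk' : x ∈ Submodule.span ℂ (lamL '' ((sq k).1 : Set N)) := hk
        have h3 : Submodule.span ℂ (lamL '' ((sq k).1 : Set N)) ≤
            Subalgebra.toSubmodule (LN N).toStarSubalgebra.toSubalgebra := by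
          rw [Submodule.span_le]
          rintro _ ⟨n, _, rfl⟩
          exact lamL_mem n
        exact h3 hk'
      apply Set.Subset.antisymm
      · have h3 : Set.centralizer (LN N : Set (L2N N →L[ℂ] L2N N)) ⊆ Set.centralizer U :=
          Set.centralizer_subset h2
        have h4 := Set.centralizer_subset h3
        refine h4.trans ?_
        rw [coe_LN, Set.centralizer_centralizer_centralizer]
      · rw [coe_LN]
        exact Set.centralizer_subset (Set.centralizer_subset h1)
  · rw [← TopologicalSpace.isSeparable_univ_iff]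
    have h1 : TopologicalSpace.IsSeparable (Set.range (dl : N → L2N N)) :=
      (Set.countable_range _).isSeparable
    have h2 := (h1.span (R := ℂ)).closure
    have h3 : closure (Submodule.span ℂ (Set.range (dl : N → L2N N)) : Set (L2N N)) = Set.univ := by
      rw [← Submodule.topologicalClosure_coe, span_dl, Submodule.top_coe]
    rwa [h3] at h2

end Pool.Agent.Helper784QW
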