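
import Pool.Agent.Helper784QW.Spec

/-!
# Unitaries and trace in the crossed product (JOB QW-V3)
-/

set_option autoImplicit false

open scoped InnerProductSpace ComplexOrder ENNReal

namespace Pool.Agent.Helper784QW

open Matrix Pool.Agent.W661.RC Pool.Agent.W683.RC

section

variable {X : Type} {E : Type} [NormedAddCommGroup E] [InnerProductSpace ℂ E]

lemma norm_twOp (σ : Equiv.Perm X) (U : X → (E ≃ₗᵢ[ℂ] E)) (f : lp (fun _ : X => E) 2) :
    ‖twOp σ U f‖ = ‖f‖ := by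
  have hp : 0 < (2 : ℝ≥0∞).toReal := by norm_num
  rw [lp.norm_eq_tsum_rpow hp, lp.norm_eq_tsum_rpow hp]
  congr 1
  rw [← σ.symm.tsum_eq (fun x => ‖(f : X → E) x‖ ^ (2 : ℝ≥0∞).toReal)]
  refine tsum_congr fun x => ?_
  rw [twOp_apply, LinearIsometryEquiv.norm_map]

lemma twOp_mul (σ τ : Equiv.Perm X) (U V : X → (E ≃ₗᵢ[ℂ] E)) :
    twOp σ U * twOp τ V = twOp (σ * τ) (fun x => (V (σ.symm x)).trans (U x)) :=
  ContinuousLinearMap.ext fun _ => lp.ext (funext fun _ => rfl)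

lemma twOp_congr {σ τ : Equiv.Perm X} {U V : X → (E ≃ₗᵢ[ℂ] E)} (h : σ = τ)
    (h2 : ∀ x v, U x v = V x v) : twOp σ U = twOp τ V := by
  subst h
  refine ContinuousLinearMap.ext fun f => lp.ext (funext fun x => ?_)
  rw [twOp_apply, twOp_apply, h2]

lemma twOp_one (U : X → (E ≃ₗᵢ[ℂ] E)) (hU : ∀ x v, U x v = v) :
    twOp (1 : Equiv.Perm X) U = 1 := by
  refine ContinuousLinearMap.ext fun f => lp.ext (funext fun x => ?_)
  rw [twOp_apply, hU]
  rfl

variable [CompleteSpace E]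

lemma star_twOp_mul (σ : Equiv.Perm X) (U : X → (E ≃ₗᵢ[ℂ] E)) :
    star (twOp σ U) * twOp σ U = 1 := by
  rw [ContinuousLinearMap.star_eq_adjoint]
  exact (ContinuousLinearMap.norm_map_iff_adjoint_comp_self _).mp (norm_twOp σ U)

end

section

variable {X : Type}

/-- `permOp τ` as an isometric equivalence -/
noncomputable def permIso (τ : Equiv.Perm X) : L2N X ≃ₗᵢ[ℂ] L2N X where
  toLinearEquiv := LinearEquiv.ofLinearMap (permOp τ).toLinearMap (permOp τ⁻¹).toLinearMap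
    (by
      refine LinearMap.ext fun f => ?_
      show (permOp τ * permOp τ⁻¹) f = f
      rw [← permOp_mul, mul_inv_cancel, permOp_one]; rfl)
    (by
      refine LinearMap.ext fun f => ?_
      show (permOp τ⁻¹ * permOp τ) f = f
      rw [← permOp_mul, inv_mul_cancel, permOp_one]; rfl)
  norm_map' := fun f => norm_twOp τ (fun _ => LinearIsometryEquiv.refl ℂ ℂ) f

lemma permIso_apply (τ : Equiv.Perm X) (f : L2N X) : permIso τ f = permOp τ f := rfl

end

section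

variable {G N : Type} [Group G] [Group N]

lemma alp_lamL (ψ : G →* MulAut N) (g : G) (n : N) : alp ψ g (lamL n) = lamL (ψ g n) := by
  unfold alp Vop lamL
  rw [← permOp_mul, ← permOp_mul]
  congr 1
  ext x
  show ψ g (n * ψ g⁻¹ x) = ψ g n * x
  rw [map_mul]
  congr 1
  rw [← MulAut.mul_apply, ← map_mul, mul_inv_cancel, map_one, MulAut.one_apply]

/-- the unitary `u (n, h) = π(n) λ(h)` of the crossed product -/
noncomputable def uu (ψ : G →* MulAut N) (γ : N ⋊[ψ] G) : L2H G (L2N N) →L[ℂ] L2H G (L2N N) :=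
  twOp (Equiv.mulLeft γ.right) fun g => permIso (Equiv.mulLeft (ψ g⁻¹ γ.left))

lemma uu_apply (ψ : G →* MulAut N) (γ : N ⋊[ψ] G) (f : L2H G (L2N N)) (g : G) :
    (uu ψ γ f : G → L2N N) g = lamL (ψ g⁻¹ γ.left) ((f : G → L2N N) (γ.right⁻¹ * g)) := rfl

lemma uu_mul (ψ : G →* MulAut N) (γ γ' : N ⋊[ψ] G) : uu ψ (γ * γ') = uu ψ γ * uu ψ γ' := by
  refine ContinuousLinearMap.ext fun f => lp.ext (funext fun g => ?_)
  show (uu ψ (γ * γ') f : G → L2N N) g = (uu ψ γ (uu ψ γ' f) : G → L2N N) g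
  rw [uu_apply, uu_apply, uu_apply, SemidirectProduct.mul_left, SemidirectProduct.mul_right,
    map_mul, lamL_mul, _root_.mul_inv_rev, mul_assoc γ'.right⁻¹]
  show lamL _ (lamL _ _) = _
  congr 3
  rw [_root_.mul_inv_rev, inv_inv, map_mul, MulAut.mul_apply]

lemma uu_one (ψ : G →* MulAut N) : uu ψ 1 = 1 := by
  refine ContinuousLinearMap.ext fun f => lp.ext (funext fun g => ?_)
  rw [uu_apply, SemidirectProduct.one_left, SemidirectProduct.one_right, map_one, lamL_one, inv_one,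
    one_mul]
  rfl

lemma star_uu (ψ : G →* MulAut N) (γ : N ⋊[ψ] G) : star (uu ψ γ) = uu ψ γ⁻¹ := by
  have h1 : star (uu ψ γ) * uu ψ γ = 1 := star_twOp_mul _ _
  have h2 : uu ψ γ * uu ψ γ⁻¹ = 1 := by rw [← uu_mul, mul_inv_cancel, uu_one]
  calc star (uu ψ γ) = star (uu ψ γ) * (uu ψ γ * uu ψ γ⁻¹) := by rw [h2, mul_one]
    _ = uu ψ γ⁻¹ := by rw [← mul_assoc, h1, one_mul]

lemma uu_inl_mem (ψ : G →* MulAut N) (n : N) :
    uu ψ (SemidirectProduct.inl n) ∈ crossedProduct (LN N) (alp ψ) := by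
  refine Set.subset_centralizer_centralizer (Or.inl ⟨lamL n, lamL_mem n, fun f g => ?_⟩)
  rw [uu_apply, alp_lamL, SemidirectProduct.left_inl, SemidirectProduct.right_inl, inv_one, one_mul]

lemma uu_inr_mem (ψ : G →* MulAut N) (h : G) :
    uu ψ (SemidirectProduct.inr h) ∈ crossedProduct (LN N) (alp ψ) := by
  refine Set.subset_centralizer_centralizer (Or.inr ⟨h, fun f g => ?_⟩)
  rw [uu_apply, SemidirectProduct.left_inr, SemidirectProduct.right_inr, map_one, lamL_one]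
  rfl

lemma uu_mem (ψ : G →* MulAut N) (γ : N ⋊[ψ] G) : uu ψ γ ∈ crossedProduct (LN N) (alp ψ) := by
  rw [← SemidirectProduct.inl_left_mul_inr_right γ, uu_mul]
  exact Set.mul_mem_centralizer (uu_inl_mem ψ _) (uu_inr_mem ψ _)

end

/-- TARGET -/
theorem crossed_unitaries {G N : Type} [Group G] [Group N] (ψ : G →* MulAut N) :
    ‖eta G N‖ = 1 ∧ ∃ u : (N ⋊[ψ] G) → (L2H G (L2N N) →L[ℂ] L2H G (L2N N)),
      (∀ γ, u γ ∈ crossedProduct (LN N) (alp ψ)) ∧ u 1 = 1 ∧ (∀ γ γ', u (γ * γ') = u γ * u γ') ∧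
      (∀ γ, star (u γ) = u γ⁻¹) ∧ ∀ γ, γ ≠ 1 → ⟪eta G N, u γ (eta G N)⟫_ℂ = 0 := by
  classical
  refine ⟨?_, uu ψ, uu_mem ψ, uu_one ψ, uu_mul ψ, star_uu ψ, ?_⟩
  · unfold eta
    rw [lp.norm_single (by norm_num), norm_dl]
  · intro γ hγ
    unfold eta
    rw [lp.inner_single_left, uu_apply, mul_one, inv_one, map_one, MulAut.one_apply]
    by_cases h : γ.right = 1
    · rw [h, inv_one, lp.single_apply_self, lamL_dl, mul_one, inner_dl, dl_apply, if_neg]
      intro h2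
      apply hγ
      ext
      · rw [← h2]; rfl
      · rw [h]; rfl
    · rw [lp.single_apply_ne, map_zero, inner_zero_right]
      intro h2
      exact h (inv_eq_one.mp h2)

end Pool.Agent.Helper784QW
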