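import Pool.Agent.Helper784QW.Spec

/-!
JOB QW-V4 (owner helper784, MP_47effe_an).
The vector state of eta is a trace on the crossed product.
-/

set_option autoImplicit false

open scoped InnerProductSpace ComplexOrder

namespace Pool.Agent.Helper784QW

open Matrix Pool.Agent.W661.RC Pool.Agent.W683.RC

section V4

/-- an abstract criterion for the trace property -/
lemma v4_abs {L : Type} [NormedAddCommGroup L] [InnerProductSpace ℂ L] [CompleteSpace L] {Γ : Type}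
    (b : HilbertBasis Γ ℂ L) (η : L) (ι : Equiv.Perm Γ) (hι : ∀ γ, ι (ι γ) = γ)
    (R R' : Γ → (L →L[ℂ] L)) (hadj : ∀ γ, ∀ u v : L, ⟪u, R γ v⟫_ℂ = ⟪R' γ u, v⟫_ℂ)
    (h1 : ∀ γ, R γ η = b γ) (h2 : ∀ γ, R' γ η = b (ι γ))
    (x y : L →L[ℂ] L) (hx : ∀ γ, x * R γ = R γ * x) (hy : ∀ γ, y * R γ = R γ * y) :
    ⟪η, (x * y) η⟫_ℂ = ⟪η, (y * x) η⟫_ℂ := by
  have key : ∀ x y : L →L[ℂ] L, (∀ γ, x * R γ = R γ * x) →
      ⟪η, (x * y) η⟫_ℂ = ∑' γ, ⟪b (ι γ), x η⟫_ℂ * ⟪b γ, y η⟫_ℂ := by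
    intro x y hx
    have e1 : ⟪η, (x * y) η⟫_ℂ = ⟪ContinuousLinearMap.adjoint x η, y η⟫_ℂ := by
      rw [ContinuousLinearMap.adjoint_inner_left]
      rfl
    rw [e1, ← b.tsum_inner_mul_inner]
    refine tsum_congr fun γ => ?_
    congr 1
    rw [ContinuousLinearMap.adjoint_inner_left, ← h1 γ]
    have e2 : x (R γ η) = R γ (x η) := by
      have := congrArg (fun T : L →L[ℂ] L => T η) (hx γ)
      exact this
    rw [e2, hadj, h2]
  rw [key x y hx, key y x hy, ← ι.tsum_eq]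
  refine tsum_congr fun γ => ?_
  rw [hι, mul_comm]

variable {X : Type}

lemma v4_norm_permOp (σ : Equiv.Perm X) (f : L2N X) : ‖permOp σ f‖ = ‖f‖ := by
  have h : ⟪permOp σ f, permOp σ f⟫_ℂ = ⟪f, f⟫_ℂ := by
    rw [← ContinuousLinearMap.adjoint_inner_right, ← ContinuousLinearMap.star_eq_adjoint,
      star_permOp]
    congr 1
    have := congrArg (fun T : L2N X →L[ℂ] L2N X => T f) (permOp_mul σ⁻¹ σ)
    rw [inv_mul_cancel, permOp_one] at this
    exact this.symm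
  rw [inner_self_eq_norm_sq_to_K, inner_self_eq_norm_sq_to_K] at h
  have h2 : ‖permOp σ f‖ ^ 2 = ‖f‖ ^ 2 := by exact_mod_cast h
  exact (pow_left_inj₀ (norm_nonneg _) (norm_nonneg _) two_ne_zero).1 h2

/-- the isometric equivalence given by a permutation -/
noncomputable def v4Iso (σ : Equiv.Perm X) : L2N X ≃ₗᵢ[ℂ] L2N X where
  toLinearEquiv :=
    { toFun := fun f => permOp σ f
      map_add' := fun f g => map_add _ f g
      map_smul' := fun c f => map_smul _ c f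
      invFun := fun f => permOp σ⁻¹ f
      left_inv := fun f => by
        have := congrArg (fun T : L2N X →L[ℂ] L2N X => T f) (permOp_mul σ⁻¹ σ)
        rw [inv_mul_cancel, permOp_one] at this
        exact this.symm
      right_inv := fun f => by
        have := congrArg (fun T : L2N X →L[ℂ] L2N X => T f) (permOp_mul σ σ⁻¹)
        rw [mul_inv_cancel, permOp_one] at this
        exact this.symm }
  norm_map' := fun f => v4_norm_permOp σ f

lemma v4Iso_apply (σ : Equiv.Perm X) (f : L2N X) : v4Iso σ f = permOp σ f := rfl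

lemma v4_inner_permOp (σ : Equiv.Perm X) (f g : L2N X) :
    ⟪f, permOp σ g⟫_ℂ = ⟪permOp σ⁻¹ f, g⟫_ℂ := by
  rw [← star_permOp, ContinuousLinearMap.star_eq_adjoint, ContinuousLinearMap.adjoint_inner_left]

variable {G N : Type} [Group G] [Group N]

open Classical in
/-- the basis vectors `δ_g ⊗ δ_n` -/
noncomputable def v4e (γ : G × N) : L2H G (L2N N) := lp.single 2 γ.1 (dl γ.2)

open Classical in
omit [Group G] [Group N] in
lemma v4e_apply (γ : G × N) (g : G) :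
    (v4e γ : G → L2N N) g = if g = γ.1 then dl γ.2 else 0 := by
  unfold v4e
  by_cases h : g = γ.1
  · subst h; rw [lp.single_apply_self, if_pos rfl]
  · rw [lp.single_apply_ne _ _ _ h, if_neg h]

omit [Group G] [Group N] in
lemma v4_inner_e (γ : G × N) (f : L2H G (L2N N)) :
    ⟪v4e γ, f⟫_ℂ = (((f : G → L2N N) γ.1 : L2N N) : N → ℂ) γ.2 := by
  rw [lp.inner_eq_tsum, tsum_eq_single γ.1]
  · rw [v4e_apply, if_pos rfl, inner_dl]
  · intro g hg
    rw [v4e_apply, if_neg hg, inner_zero_left]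

lemma v4_orthonormal : Orthonormal ℂ (v4e : G × N → L2H G (L2N N)) := by
  classical
  rw [orthonormal_iff_ite]
  intro γ δ
  rw [v4_inner_e, v4e_apply]
  by_cases h : γ.1 = δ.1
  · rw [if_pos h, dl_apply]
    by_cases h2 : γ.2 = δ.2
    · rw [if_pos h2, if_pos (Prod.ext h h2)]
    · rw [if_neg h2, if_neg (fun h3 => h2 (congrArg Prod.snd h3))]
  · rw [if_neg h, if_neg (fun h3 => h (congrArg Prod.fst h3))]
    rfl

lemma v4_span : (Submodule.span ℂ (Set.range (v4e : G × N → L2H G (L2N N))))ᗮ = ⊥ := by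
  rw [Submodule.eq_bot_iff]
  intro f hf
  rw [Submodule.mem_orthogonal] at hf
  refine lp.ext (funext fun g => lp.ext (funext fun n => ?_))
  have := hf (v4e (g, n)) (Submodule.subset_span ⟨(g, n), rfl⟩)
  rw [v4_inner_e] at this
  exact this

/-- the Hilbert basis `δ_g ⊗ δ_n` -/
noncomputable def v4b (G N : Type) [Group G] [Group N] : HilbertBasis (G × N) ℂ (L2H G (L2N N)) :=
  HilbertBasis.mkOfOrthogonalEqBot v4_orthonormal v4_span

lemma v4b_apply (γ : G × N) : v4b G N γ = v4e γ := by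
  unfold v4b
  rw [HilbertBasis.coe_mkOfOrthogonalEqBot]

lemma v4_eta : eta G N = v4e ((1 : G), (1 : N)) := rfl

variable (ψ : G →* MulAut N)

/-- the permutation `x ↦ ψ g⁻¹ x * n` -/
def v4t (γ : G × N) : Equiv.Perm N := Equiv.mulRight γ.2 * (ψ γ.1⁻¹).toEquiv

lemma v4t_apply (γ : G × N) (x : N) : v4t ψ γ x = ψ γ.1⁻¹ x * γ.2 := rfl

lemma v4t_inv_one (γ : G × N) : (v4t ψ γ)⁻¹ 1 = ψ γ.1 γ.2⁻¹ := by
  rw [Equiv.Perm.inv_eq_iff_eq, v4t_apply]
  rw [← MulAut.mul_apply, ← map_mul, inv_mul_cancel, map_one, MulAut.one_apply, inv_mul_cancel]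

/-- right operators -/
noncomputable def v4R (γ : G × N) : L2H G (L2N N) →L[ℂ] L2H G (L2N N) :=
  twOp (Equiv.mulRight γ.1) (fun _ => v4Iso (v4t ψ γ))

/-- their adjoints -/
noncomputable def v4R' (γ : G × N) : L2H G (L2N N) →L[ℂ] L2H G (L2N N) :=
  twOp (Equiv.mulRight γ.1⁻¹) (fun _ => v4Iso (v4t ψ γ)⁻¹)

lemma v4R_apply (γ : G × N) (f : L2H G (L2N N)) (g : G) :
    (v4R ψ γ f : G → L2N N) g = permOp (v4t ψ γ) ((f : G → L2N N) (g * γ.1⁻¹)) := by
  unfold v4R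
  rw [twOp_apply, v4Iso_apply, Equiv.mulRight_symm_apply]

lemma v4R'_apply (γ : G × N) (f : L2H G (L2N N)) (g : G) :
    (v4R' ψ γ f : G → L2N N) g = permOp (v4t ψ γ)⁻¹ ((f : G → L2N N) (g * γ.1)) := by
  unfold v4R'
  rw [twOp_apply, v4Iso_apply, Equiv.mulRight_symm_apply, inv_inv]

lemma v4_adj (γ : G × N) (u v : L2H G (L2N N)) : ⟪u, v4R ψ γ v⟫_ℂ = ⟪v4R' ψ γ u, v⟫_ℂ := by
  rw [lp.inner_eq_tsum, lp.inner_eq_tsum, ← (Equiv.mulRight γ.1).tsum_eq]
  refine tsum_congr fun g => ?_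
  rw [v4R_apply, v4R'_apply, Equiv.coe_mulRight, mul_inv_cancel_right, v4_inner_permOp]

lemma v4_R_eta (γ : G × N) : v4R ψ γ (eta G N) = v4e γ := by
  classical
  refine lp.ext (funext fun g => ?_)
  rw [v4R_apply, v4_eta, v4e_apply, v4e_apply]
  by_cases h : g = γ.1
  · rw [if_pos h, if_pos (by rw [h]; exact mul_inv_cancel _), permOp_dl, v4t_apply, map_one, one_mul]
  · rw [if_neg h, if_neg (fun h2 => h (mul_inv_eq_one.1 h2)), map_zero]

/-- the inversion of the semidirect product -/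
def v4i : Equiv.Perm (G × N) where
  toFun γ := (γ.1⁻¹, ψ γ.1 γ.2⁻¹)
  invFun γ := (γ.1⁻¹, ψ γ.1 γ.2⁻¹)
  left_inv γ := by
    refine Prod.ext (inv_inv _) ?_
    show ψ γ.1⁻¹ (ψ γ.1 γ.2⁻¹)⁻¹ = γ.2
    rw [← map_inv, inv_inv, ← MulAut.mul_apply, ← map_mul, inv_mul_cancel, map_one,
      MulAut.one_apply]
  right_inv γ := by
    refine Prod.ext (inv_inv _) ?_
    show ψ γ.1⁻¹ (ψ γ.1 γ.2⁻¹)⁻¹ = γ.2
    rw [← map_inv, inv_inv, ← MulAut.mul_apply, ← map_mul, inv_mul_cancel, map_one,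
      MulAut.one_apply]

lemma v4_R'_eta (γ : G × N) : v4R' ψ γ (eta G N) = v4e (v4i ψ γ) := by
  classical
  refine lp.ext (funext fun g => ?_)
  rw [v4R'_apply, v4_eta, v4e_apply, v4e_apply]
  by_cases h : g = γ.1⁻¹
  · rw [if_pos (show g = (v4i ψ γ).1 from h), if_pos (by rw [h]; exact inv_mul_cancel _), permOp_dl,
      v4t_inv_one]
    rfl
  · rw [if_neg (show ¬ g = (v4i ψ γ).1 from h),
      if_neg (fun h2 => h (eq_inv_of_mul_eq_one_left h2)), map_zero]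

lemma v4_Vop_mul (g h : G) : Vop ψ (g * h) = Vop ψ g * Vop ψ h := by
  unfold Vop
  rw [← permOp_mul]
  congr 1
  ext x
  rw [map_mul]
  rfl

lemma v4_permOp_t (γ : G × N) : permOp (v4t ψ γ) = rhoR γ.2⁻¹ * Vop ψ γ.1⁻¹ := by
  unfold Vop rhoR v4t
  rw [← permOp_mul, inv_inv]

lemma v4_Vop_rhoR (g : G) (m : N) : Vop ψ g * rhoR m = rhoR (ψ g m) * Vop ψ g := by
  unfold Vop rhoR
  rw [← permOp_mul, ← permOp_mul]
  congr 1
  ext x
  simp

/-- the values of the action commute with the right translations -/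
lemma v4_alp_rhoR {x : L2N N →L[ℂ] L2N N} (hx : x ∈ LN N) (g : G) (m : N) :
    alp ψ g x * rhoR m = rhoR m * alp ψ g x := by
  unfold alp
  rw [mul_assoc, v4_Vop_rhoR, ← mul_assoc, mul_assoc (Vop ψ g) x, LN_rhoR hx, ← mul_assoc,
    v4_Vop_rhoR, ← MulAut.mul_apply, ← map_mul, mul_inv_cancel, map_one, MulAut.one_apply]
  simp only [mul_assoc]

lemma v4_comm_alp {x : L2N N →L[ℂ] L2N N} (hx : x ∈ LN N) (γ : G × N) (g : G) :
    permOp (v4t ψ γ) * alp ψ (g * γ.1⁻¹)⁻¹ x = alp ψ g⁻¹ x * permOp (v4t ψ γ) := by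
  rw [v4_permOp_t, ← mul_assoc (alp ψ g⁻¹ x), v4_alp_rhoR ψ hx, mul_assoc, mul_assoc]
  congr 1
  unfold alp
  have e1 : γ.1⁻¹ * (g * γ.1⁻¹)⁻¹ = g⁻¹ := by group
  rw [← mul_assoc, ← mul_assoc, ← v4_Vop_mul, e1, inv_inv, inv_inv, v4_Vop_mul]
  simp only [mul_assoc]

lemma v4_mem (γ : G × N) : v4R ψ γ ∈ Set.centralizer (crossedGen (LN N) (alp ψ)) := by
  rw [Set.mem_centralizer_iff]
  rintro T (⟨x, hx, hT⟩ | ⟨h, hT⟩)
  · refine ContinuousLinearMap.ext fun f => lp.ext (funext fun g => ?_)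
    show (T (v4R ψ γ f) : G → L2N N) g = (v4R ψ γ (T f) : G → L2N N) g
    rw [hT, v4R_apply, v4R_apply, hT]
    have := congrArg (fun S : L2N N →L[ℂ] L2N N => S ((f : G → L2N N) (g * γ.1⁻¹)))
      (v4_comm_alp ψ hx γ g)
    exact this.symm
  · refine ContinuousLinearMap.ext fun f => lp.ext (funext fun g => ?_)
    show (T (v4R ψ γ f) : G → L2N N) g = (v4R ψ γ (T f) : G → L2N N) g
    rw [hT, v4R_apply, v4R_apply, hT, mul_assoc]

end V4

/-- TARGET -/
theorem crossed_trace {G N : Type} [Group G] [Group N] (ψ : G →* MulAut N) :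
    ∀ x ∈ crossedProduct (LN N) (alp ψ), ∀ y ∈ crossedProduct (LN N) (alp ψ),
      ⟪eta G N, (x * y) (eta G N)⟫_ℂ = ⟪eta G N, (y * x) (eta G N)⟫_ℂ := by
  intro x hx y hy
  refine v4_abs (v4b G N) (eta G N) (v4i ψ) (fun γ => (v4i ψ).left_inv γ) (v4R ψ) (v4R' ψ)
    (v4_adj ψ) (fun γ => ?_) (fun γ => ?_) x y (fun γ => ?_) (fun γ => ?_)
  · rw [v4_R_eta, v4b_apply]
  · rw [v4_R'_eta, v4b_apply]
  · exact ((Set.mem_centralizer_iff.1 hx) _ (v4_mem ψ γ)).symm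
  · exact ((Set.mem_centralizer_iff.1 hy) _ (v4_mem ψ γ)).symm

end Pool.Agent.Helper784QW
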