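import Pool.Agent.Helper784QW.K12
import Pool.Agent.Helper784QW.K3
import Pool.Agent.Helper784QW.K4a
import Pool.Agent.Helper784QW.K4b
import Pool.Agent.Helper784QW.K5
import Pool.Agent.Helper784QW.K5b
import Pool.Agent.Helper784QW.K5c
import Pool.Agent.Helper784QW.K6
import Pool.Agent.Helper784QW.V1a
import Pool.Agent.Helper784QW.V1b
import Pool.Agent.Helper784QW.V2
import Pool.Agent.Helper784QW.V3
import Pool.Agent.Helper784QW.V4
import Pool.Agent.Helper784QW.G2
import Pool.Agent.Helper784QW.G3
import Pool.Agent.Helper784QW.G4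
import Pool.Agent.Helper784QW.G1a
import Pool.Agent.Helper784QW.G1c
import Pool.Agent.Helper784QW.G1d

/-!
# Assembly
-/

set_option autoImplicit false

open scoped InnerProductSpace ComplexOrder

namespace Pool.Agent.Helper784QW

open Filter Topology Helper418HL

theorem specK : S6 := sK6 s12 s3 s4a s4b s5 s5b s5c

/-- pull back of a model along a homomorphism -/
def mdlComap {G H : Type} [Group G] [Group H] {𝒰 : Ultrafilter ℕ} (M : Mdl H 𝒰) (j : G →* H) :
    Mdl G 𝒰 where
  d := M.d
  pos := M.pos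
  U g n := M.U (j g) n
  un g n := M.un (j g) n
  mul g h := by
    have := M.mul (j g) (j h)
    rwa [← map_mul] at this

/-- a group containing `A ⋊ St` is not hyperlinear -/
theorem not_hyp {Γ : Type} [Group Γ] [Countable Γ] (j : T6 →* Γ) (hj : Function.Injective j) :
    ¬ Hyperlinear Γ := by
  intro h
  obtain ⟨hc, -, -, P, v, z, w, h1, h2, h3, h4, h5, h6, h7, h8, h9⟩ := t6_data
  haveI := hc
  obtain ⟨M, hM⟩ := mdl_of_hyp h (hyperfilter_le_cofinite (α := ℕ))
  have hne : j (z * w * z⁻¹ * w⁻¹) ≠ 1 := by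
    intro h'
    exact h9 (hj (by rw [h', map_one]))
  refine no_model s6_tsystem k6_tsystem h3 P h1 h2 h4 h5 h6 h7 h8
    (hyperfilter_le_cofinite (α := ℕ)) (mdlComap M j) one_pos ?_
  filter_upwards [hM _ hne] with n hn
  rw [one_mul]
  exact hn

theorem st_RF : ResiduallyFinite St := by
  intro g hg
  obtain ⟨Q, hQ, hQf, f, hf⟩ := Helper418.units_RF (g : U6) (fun h => hg (Subtype.ext h))
  exact ⟨Q, hQ, hQf, f.comp St.subtype, hf⟩

theorem main : ∃ (H : Type) (_ : NormedAddCommGroup H) (_ : InnerProductSpace ℂ H)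
    (_ : CompleteSpace H) (M : VonNeumannAlgebra H) (ξ : H) (G : Type) (_ : Group G)
    (α : G → (H →L[ℂ] H) → (H →L[ℂ] H)),
    TopologicalSpace.SeparableSpace H ∧ IsHyperfiniteII1 M ξ ∧
    Countable G ∧ ResiduallyFinite G ∧ Hyperlinear G ∧ IsAction G M ξ α ∧
    ¬ QWEP (crossedProduct M α) := by
  obtain ⟨hc, hinf, h127, -⟩ := t6_data
  haveI := hc
  haveI := hinf
  haveI hcA : Countable A6 := by
    have h := (SemidirectProduct.inl_injective : Function.Injective
      (SemidirectProduct.inl : Multiplicative A6 →* T6)).countable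
    exact h
  haveI hcS : Countable St := (SemidirectProduct.inr_injective : Function.Injective
      (SemidirectProduct.inr : St →* T6)).countable
  obtain ⟨N, gN, ψ, i, hcN, hiN, hicc, hlf, hi, hψ⟩ := exists_N (A := A6) 127 (by norm_num) h127 mact
  obtain ⟨f1, f2, f3, f4, f5⟩ := LN_factor hicc
  obtain ⟨f6, f7⟩ := LN_hyper hlf
  refine ⟨L2N N, inferInstance, inferInstance, inferInstance, LN N, dl 1, St, inferInstance,
    alp ψ, f7, ⟨f1, f2, f3, f4, f5, f6⟩, hcS, st_RF, hyperlinear_of_RF st_RF, alp_action ψ, ?_⟩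
  intro hQ
  obtain ⟨he, u, hu1, hu2, hu3, hu4, hu5⟩ := crossed_unitaries ψ
  have hyp : Hyperlinear (N ⋊[ψ] St) := by
    refine specK _ (crossedProduct (LN N) (alp ψ)) ?_ (eta St N) he (crossed_trace ψ) hQ
      (N ⋊[ψ] St) u hu1 hu2 hu3 hu4 hu5
    unfold crossedProduct
    rw [Set.centralizer_centralizer_centralizer]
  haveI : Countable (N ⋊[ψ] St) := by
    have e : (N ⋊[ψ] St) ≃ N × St := SemidirectProduct.equivProd
    exact e.countable_iff.2 inferInstance
  have hcomp : ∀ g : St, i.comp (mact g).toMonoidHom =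
      (ψ (MonoidHom.id St g)).toMonoidHom.comp i := by
    intro g
    exact MonoidHom.ext fun a => (hψ g a).symm
  refine not_hyp (SemidirectProduct.map i (MonoidHom.id St) hcomp) ?_ hyp
  intro a b hab
  have h1 := congrArg SemidirectProduct.left hab
  have h2 := congrArg SemidirectProduct.right hab
  rw [SemidirectProduct.map_left, SemidirectProduct.map_left] at h1
  rw [SemidirectProduct.map_right, SemidirectProduct.map_right] at h2
  exact SemidirectProduct.ext (hi h1) h2

end Pool.Agent.Helper784QW
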