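import Pool.Agent.Helper784QW.Defs

/-!
# Permutation operators on `ℓ²` and the group von Neumann algebra
-/

set_option autoImplicit false

open scoped InnerProductSpace ComplexOrder ENNReal

namespace Pool.Agent.Helper784QW

section twOp

variable {X : Type} {E : Type} [NormedAddCommGroup E] [InnerProductSpace ℂ E]

lemma memlp_tw (σ : Equiv.Perm X) (U : X → (E ≃ₗᵢ[ℂ] E)) (f : lp (fun _ : X => E) 2) :
    Memℓp (fun x => U x ((f : X → E) (σ.symm x))) 2 := by
  have hp : 0 < (2 : ℝ≥0∞).toReal := by norm_num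
  rw [memℓp_gen_iff hp]
  have h := (memℓp_gen_iff hp).mp f.2
  have h2 := σ.symm.summable_iff (f := fun x => ‖(f : X → E) x‖ ^ (2 : ℝ≥0∞).toReal) |>.mpr h
  simpa [Function.comp_def, LinearIsometryEquiv.norm_map] using h2

/-- the isometric operator `(twOp σ U f)(x) = U x (f (σ⁻¹ x))` on `ℓ²(X, E)` -/
noncomputable def twOp (σ : Equiv.Perm X) (U : X → (E ≃ₗᵢ[ℂ] E)) :
    lp (fun _ : X => E) 2 →L[ℂ] lp (fun _ : X => E) 2 :=
  LinearMap.mkContinuous
    { toFun := fun f => ⟨fun x => U x ((f : X → E) (σ.symm x)), memlp_tw σ U f⟩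
      map_add' := fun f g => by
        refine lp.ext (funext fun x => ?_)
        show U x (((f + g : lp (fun _ : X => E) 2) : X → E) (σ.symm x)) = _
        rw [lp.coeFn_add, Pi.add_apply, map_add]
        rfl
      map_smul' := fun c f => by
        refine lp.ext (funext fun x => ?_)
        show U x (((c • f : lp (fun _ : X => E) 2) : X → E) (σ.symm x)) = _
        rw [lp.coeFn_smul, Pi.smul_apply, map_smul]
        rfl } 1 (by
    intro f
    rw [one_mul]
    have hp : 0 < (2 : ℝ≥0∞).toReal := by norm_num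
    rw [lp.norm_eq_tsum_rpow hp, lp.norm_eq_tsum_rpow hp]
    apply le_of_eq
    congr 1
    rw [← σ.symm.tsum_eq (fun x => ‖(f : X → E) x‖ ^ (2 : ℝ≥0∞).toReal)]
    refine tsum_congr fun x => ?_
    show ‖U x ((f : X → E) (σ.symm x))‖ ^ _ = _
    rw [LinearIsometryEquiv.norm_map])

lemma twOp_apply (σ : Equiv.Perm X) (U : X → (E ≃ₗᵢ[ℂ] E)) (f : lp (fun _ : X => E) 2) (x : X) :
    (twOp σ U f : X → E) x = U x ((f : X → E) (σ.symm x)) := rfl

end twOp

section

variable {X : Type}

/-- `ℓ²(X)` -/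
abbrev L2N (X : Type) : Type := lp (fun _ : X => ℂ) 2

/-- the unitary `(permOp σ f)(x) = f (σ⁻¹ x)` of `ℓ²(X)` -/
noncomputable def permOp (σ : Equiv.Perm X) : L2N X →L[ℂ] L2N X :=
  twOp σ fun _ => LinearIsometryEquiv.refl ℂ ℂ

lemma permOp_apply (σ : Equiv.Perm X) (f : L2N X) (x : X) :
    (permOp σ f : X → ℂ) x = (f : X → ℂ) (σ.symm x) := rfl

lemma permOp_one : permOp (1 : Equiv.Perm X) = 1 := by
  refine ContinuousLinearMap.ext fun f => lp.ext (funext fun x => rfl)

lemma permOp_mul (σ τ : Equiv.Perm X) : permOp (σ * τ) = permOp σ * permOp τ := by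
  refine ContinuousLinearMap.ext fun f => lp.ext (funext fun x => rfl)

lemma star_permOp (σ : Equiv.Perm X) : star (permOp σ) = permOp σ⁻¹ := by
  rw [ContinuousLinearMap.star_eq_adjoint]
  symm
  rw [ContinuousLinearMap.eq_adjoint_iff]
  intro u v
  rw [lp.inner_eq_tsum, lp.inner_eq_tsum,
    ← σ.tsum_eq (fun x => inner ℂ ((u : X → ℂ) x) ((permOp σ v : X → ℂ) x))]
  congr 1
  funext x
  rw [permOp_apply, permOp_apply, Equiv.symm_apply_apply]
  rfl

open Classical in
/-- the basis vector `δ_x` -/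
noncomputable def dl (x : X) : L2N X := lp.single 2 x (1 : ℂ)

open Classical in
lemma dl_apply (x y : X) : (dl x : X → ℂ) y = if y = x then 1 else 0 := by
  unfold dl
  by_cases h : y = x
  · subst h; rw [lp.single_apply_self, if_pos rfl]
  · rw [lp.single_apply_ne _ _ _ h, if_neg h]

lemma permOp_dl (σ : Equiv.Perm X) (x : X) : permOp σ (dl x) = dl (σ x) := by
  classical
  refine lp.ext (funext fun y => ?_)
  rw [permOp_apply, dl_apply, dl_apply]
  by_cases h : y = σ x
  · subst h; simp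
  · rw [if_neg h, if_neg]
    intro h'; apply h; rw [← h', Equiv.apply_symm_apply]

/-- the coordinates as inner products -/
lemma inner_dl (x : X) (f : L2N X) : ⟪dl x, f⟫_ℂ = (f : X → ℂ) x := by
  classical
  rw [lp.inner_eq_tsum, tsum_eq_single x]
  · rw [dl_apply, if_pos rfl]; simp
  · intro y hy
    rw [dl_apply, if_neg hy]; simp

lemma norm_dl (x : X) : ‖dl x‖ = 1 := by
  classical
  unfold dl
  rw [lp.norm_single (by norm_num)]
  simp

end

section group

variable {N : Type} [Group N]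

/-- left translation, `lamL n δ_x = δ_(n x)` -/
noncomputable def lamL (n : N) : L2N N →L[ℂ] L2N N := permOp (Equiv.mulLeft n)

/-- right translation, `rhoR m δ_x = δ_(x m⁻¹)` -/
noncomputable def rhoR (m : N) : L2N N →L[ℂ] L2N N := permOp (Equiv.mulRight m⁻¹)

lemma lamL_dl (n x : N) : lamL n (dl x) = dl (n * x) := permOp_dl _ _

lemma rhoR_dl (m x : N) : rhoR m (dl x) = dl (x * m⁻¹) := permOp_dl _ _

lemma lamL_one : lamL (1 : N) = 1 := by
  unfold lamL
  have : Equiv.mulLeft (1 : N) = 1 := by ext; simp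
  rw [this, permOp_one]

lemma lamL_mul (n m : N) : lamL (n * m) = lamL n * lamL m := by
  unfold lamL
  rw [← permOp_mul]
  congr 1
  ext x
  simp [mul_assoc]

lemma star_lamL (n : N) : star (lamL n) = lamL n⁻¹ := by
  unfold lamL
  rw [star_permOp]
  congr 1
  refine inv_eq_of_mul_eq_one_right ?_
  ext x
  simp

lemma lamL_rhoR (n m : N) : lamL n * rhoR m = rhoR m * lamL n := by
  unfold lamL rhoR
  rw [← permOp_mul, ← permOp_mul]
  congr 1
  ext x
  simp [mul_assoc]

lemma star_range_lamL : star (Set.range (lamL : N → L2N N →L[ℂ] L2N N)) =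
    Set.range (lamL : N → L2N N →L[ℂ] L2N N) := by
  ext T
  constructor
  · rintro ⟨n, hn⟩
    exact ⟨n⁻¹, by rw [← star_lamL, hn, star_star]⟩
  · rintro ⟨n, rfl⟩
    exact ⟨n⁻¹, by rw [star_lamL]⟩

/-- the group von Neumann algebra on `ℓ²(N)` -/
noncomputable def LN (N : Type) [Group N] : VonNeumannAlgebra (L2N N) where
  toStarSubalgebra := StarSubalgebra.centralizer ℂ
    (Set.centralizer (Set.range (lamL : N → L2N N →L[ℂ] L2N N)))
  centralizer_centralizer' := by
    show Set.centralizer (Set.centralizer ((StarSubalgebra.centralizer ℂ _ :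
      StarSubalgebra ℂ (L2N N →L[ℂ] L2N N)) : Set (L2N N →L[ℂ] L2N N))) =
      ((StarSubalgebra.centralizer ℂ _ :
      StarSubalgebra ℂ (L2N N →L[ℂ] L2N N)) : Set (L2N N →L[ℂ] L2N N))
    rw [StarSubalgebra.coe_centralizer, Set.centralizer_centralizer_centralizer]

lemma star_centralizer_range : star (Set.centralizer (Set.range (lamL : N → L2N N →L[ℂ] L2N N))) =
    Set.centralizer (Set.range (lamL : N → L2N N →L[ℂ] L2N N)) := by
  ext T
  rw [Set.mem_star, Set.mem_centralizer_iff, Set.mem_centralizer_iff]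
  constructor
  · rintro h _ ⟨n, rfl⟩
    have := congrArg star (h _ ⟨n⁻¹, rfl⟩)
    rw [star_mul, star_mul, star_star, star_lamL, inv_inv] at this
    exact this.symm
  · rintro h _ ⟨n, rfl⟩
    have := congrArg star (h _ ⟨n⁻¹, rfl⟩)
    rw [star_mul, star_mul, star_lamL, inv_inv] at this
    exact this.symm

lemma coe_LN : (LN N : Set (L2N N →L[ℂ] L2N N)) =
    Set.centralizer (Set.centralizer (Set.range (lamL : N → L2N N →L[ℂ] L2N N))) := by
  show ((StarSubalgebra.centralizer ℂ _ :
      StarSubalgebra ℂ (L2N N →L[ℂ] L2N N)) : Set (L2N N →L[ℂ] L2N N)) = _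
  rw [StarSubalgebra.coe_centralizer, star_centralizer_range, Set.union_self]

lemma lamL_mem (n : N) : lamL n ∈ LN N := by
  rw [← SetLike.mem_coe, coe_LN]
  exact Set.subset_centralizer_centralizer ⟨n, rfl⟩

/-- elements of `LN` commute with the right translations -/
lemma LN_rhoR {x : L2N N →L[ℂ] L2N N} (hx : x ∈ LN N) (m : N) : x * rhoR m = rhoR m * x := by
  rw [← SetLike.mem_coe, coe_LN, Set.mem_centralizer_iff] at hx
  refine (hx (rhoR m) ?_).symm
  rw [Set.mem_centralizer_iff]
  rintro _ ⟨n, rfl⟩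
  exact lamL_rhoR n m

end group

end Pool.Agent.Helper784QW
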