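import Mathlib

/-!
# Crossed products of the hyperfinite II₁ factor and QWEP: definitions

Hilbert spaces are complex. For a set `S` of bounded operators, `S''` is
`Set.centralizer (Set.centralizer S)`.
-/

set_option autoImplicit false

open scoped InnerProductSpace ComplexOrder ENNReal

namespace Pool.Agent.Helper784QW

section

variable {H : Type} [NormedAddCommGroup H] [InnerProductSpace ℂ H] [CompleteSpace H]

/-- `M` is the hyperfinite II₁ factor and `ξ` a vector giving its trace `x ↦ ⟪ξ, x ξ⟫`: the centre of `M` is trivial, `M` is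
infinite-dimensional, the vector state of `ξ` is a faithful tracial state on `M`, and `M = (⋃ F n)''` for an increasing
sequence of finite-dimensional `*`-subalgebras `F n`. -/
structure IsHyperfiniteII1 (M : VonNeumannAlgebra H) (ξ : H) : Prop where
  unit : ‖ξ‖ = 1
  trace : ∀ x ∈ M, ∀ y ∈ M, ⟪ξ, (x * y) ξ⟫_ℂ = ⟪ξ, (y * x) ξ⟫_ℂ
  faithful : ∀ x ∈ M, x ξ = 0 → x = 0
  factor : ∀ x ∈ M, (∀ y ∈ M, x * y = y * x) → ∃ c : ℂ, x = c • (1 : H →L[ℂ] H)
  infinite : ¬ ∃ s : Finset (H →L[ℂ] H), ∀ x ∈ M, x ∈ Submodule.span ℂ (s : Set (H →L[ℂ] H))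
  hyperfinite : ∃ F : ℕ → StarSubalgebra ℂ (H →L[ℂ] H), Monotone F ∧
    (∀ n, ∃ s : Finset (H →L[ℂ] H), ∀ x ∈ F n, x ∈ Submodule.span ℂ (s : Set (H →L[ℂ] H))) ∧
    Set.centralizer (Set.centralizer (⋃ n, (F n : Set (H →L[ℂ] H)))) = M

/-- An action of `G` on `M` by `*`-automorphisms which preserve the trace `x ↦ ⟪ξ, x ξ⟫`, as maps on the elements of `M`
(the values of `α g` outside `M` are irrelevant). -/
structure IsAction (G : Type) [Group G] (M : VonNeumannAlgebra H) (ξ : H)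
    (α : G → (H →L[ℂ] H) → (H →L[ℂ] H)) : Prop where
  mem : ∀ g, ∀ x ∈ M, α g x ∈ M
  one : ∀ x ∈ M, α 1 x = x
  comp : ∀ g h, ∀ x ∈ M, α (g * h) x = α g (α h x)
  map_one : ∀ g, α g 1 = 1
  map_add : ∀ g, ∀ x ∈ M, ∀ y ∈ M, α g (x + y) = α g x + α g y
  map_smul : ∀ g, ∀ c : ℂ, ∀ x ∈ M, α g (c • x) = c • α g x
  map_mul : ∀ g, ∀ x ∈ M, ∀ y ∈ M, α g (x * y) = α g x * α g y
  map_star : ∀ g, ∀ x ∈ M, α g (star x) = star (α g x)
  trace : ∀ g, ∀ x ∈ M, ⟪ξ, α g x ξ⟫_ℂ = ⟪ξ, x ξ⟫_ℂ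

/-- The Hilbert space `ℓ²(G, H)`. -/
abbrev L2H (G H : Type) [NormedAddCommGroup H] : Type := lp (fun _ : G => H) 2

/-- The generators of the crossed product on `ℓ²(G, H)`: the operators `π(x)`, `x ∈ M`, with
`(π(x) f)(g) = α_{g⁻¹}(x) (f g)`, and `λ(h)`, `h ∈ G`, with `(λ(h) f)(g) = f (h⁻¹ g)`. -/
def crossedGen {G : Type} [Group G] (M : VonNeumannAlgebra H)
    (α : G → (H →L[ℂ] H) → (H →L[ℂ] H)) : Set (L2H G H →L[ℂ] L2H G H) :=
  {T | (∃ x ∈ M, ∀ (f : L2H G H) (g : G), (T f : G → H) g = α g⁻¹ x ((f : G → H) g)) ∨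
    ∃ h : G, ∀ (f : L2H G H) (g : G), (T f : G → H) g = (f : G → H) (h⁻¹ * g)}

/-- The von Neumann algebra crossed product `M ⋊ G`. -/
def crossedProduct {G : Type} [Group G] (M : VonNeumannAlgebra H)
    (α : G → (H →L[ℂ] H) → (H →L[ℂ] H)) : Set (L2H G H →L[ℂ] L2H G H) :=
  Set.centralizer (Set.centralizer (crossedGen M α))

end

section

variable {K : Type} [NormedAddCommGroup K] [InnerProductSpace ℂ K] [CompleteSpace K]
variable {L : Type} [NormedAddCommGroup L] [InnerProductSpace ℂ L] [CompleteSpace L]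

/-- Complete positivity of a linear map `B(K) → B(L)`. -/
def IsCP (Φ : (K →L[ℂ] K) →ₗ[ℂ] (L →L[ℂ] L)) : Prop :=
  ∀ (n : ℕ) (T : Fin n → (K →L[ℂ] K)) (η : Fin n → L),
    0 ≤ ∑ i, ∑ j, ⟪η i, Φ (star (T i) * T j) (η j)⟫_ℂ

/-- For representations `ι` of `B` on `K` and `ρ` of `B` on `L` there is a completely positive map `Φ : B(K) → ρ(B)''` with
`Φ ∘ ι = ρ`. -/
def WeakExp {B : Type} [CStarAlgebra B] (ι : B →⋆ₐ[ℂ] (K →L[ℂ] K)) (ρ : B →⋆ₐ[ℂ] (L →L[ℂ] L)) : Prop :=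
  ∃ Φ : (K →L[ℂ] K) →ₗ[ℂ] (L →L[ℂ] L), IsCP Φ ∧ (∀ b, Φ (ι b) = ρ b) ∧
    ∀ T, Φ T ∈ Set.centralizer (Set.centralizer (Set.range ρ))

/-- The representation `ι` of `B` is faithful and has such maps for every representation of `B`. -/
def WeakExpAll {B : Type} [CStarAlgebra B] (ι : B →⋆ₐ[ℂ] (K →L[ℂ] K)) : Prop :=
  Function.Injective ι ∧ ∀ (L : Type) [NormedAddCommGroup L] [InnerProductSpace ℂ L] [CompleteSpace L]
    (ρ : B →⋆ₐ[ℂ] (L →L[ℂ] L)), WeakExp ι ρ

end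

/-- The weak expectation property of a unital C*-algebra `B`: for a faithful representation `ι` of `B` on a Hilbert space
`K`, there is for every representation `ρ` of `B` a unital completely positive map `Φ : B(K) → ρ(B)''` with `Φ ∘ ι = ρ`.
(For the universal representation `ρ` the algebra `ρ(B)''` is `B**` and this is Lance's definition; for every other `ρ`
compose with the normal extension `B** → ρ(B)''`.) -/
def WEP (B : Type) [CStarAlgebra B] : Prop :=
  ∃ (K : Type) (_ : NormedAddCommGroup K) (_ : InnerProductSpace ℂ K) (_ : CompleteSpace K)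
    (ι : B →⋆ₐ[ℂ] (K →L[ℂ] K)), WeakExpAll ι

/-- A C*-algebra `M` of operators on `L` is QWEP: it is a quotient of a C*-algebra with the weak expectation property. -/
def QWEP {L : Type} [NormedAddCommGroup L] [InnerProductSpace ℂ L] [CompleteSpace L]
    (M : Set (L →L[ℂ] L)) : Prop :=
  ∃ (B : Type) (_ : CStarAlgebra B) (q : B →⋆ₐ[ℂ] (L →L[ℂ] L)), WEP B ∧ Set.range q = M

/-- residually finite groups -/
def ResiduallyFinite (G : Type) [Group G] : Prop :=
  ∀ g : G, g ≠ 1 → ∃ (Q : Type) (_ : Group Q) (_ : Finite Q) (f : G →* Q), f g ≠ 1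

/-- the normalised Hilbert-Schmidt norm of a matrix -/
noncomputable def nrm {n : ℕ} (X : Matrix (Fin n) (Fin n) ℂ) : ℝ :=
  Real.sqrt ((Matrix.trace (star X * X)).re / n)

/-- hyperlinear groups: for every finite subset `A` and `ε > 0` there is a map to a unitary group `U(n)` which is
multiplicative on `A` up to `ε` in the normalised Hilbert-Schmidt norm, and for which the elements of `A` other than `1`
have normalised traces of modulus `< ε`. -/
def Hyperlinear (G : Type) [Group G] : Prop :=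
  ∀ (A : Finset G) (ε : ℝ), 0 < ε → ∃ (n : ℕ) (φ : G → Matrix.unitaryGroup (Fin n) ℂ), 0 < n ∧
    (∀ a ∈ A, ∀ b ∈ A, nrm ((φ (a * b) : Matrix (Fin n) (Fin n) ℂ) -
      (φ a : Matrix (Fin n) (Fin n) ℂ) * (φ b : Matrix (Fin n) (Fin n) ℂ)) < ε) ∧
    ∀ a ∈ A, a ≠ 1 → ‖Matrix.trace (φ a : Matrix (Fin n) (Fin n) ℂ)‖ < ε * n

end Pool.Agent.Helper784QW
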