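import Pool.Agent.Helper784QW.Spec
import Pool.Agent.Helper418_HL.HL1

/-!
Models of hyperlinear groups.
-/

set_option autoImplicit false

namespace Pool.Agent.Helper784QW

open Matrix Filter Topology Pool.Agent.W661.RC Pool.Agent.W683.RC Helper418HL

lemma mdl_of_hyp_nrm_eq {n : ℕ} (X : Matrix (Fin n) (Fin n) ℂ) :
    nrm X = Real.sqrt (Pool.Agent.W661.RC.hs X / n) := by
  unfold nrm
  rw [hs_eq, Matrix.star_eq_conjTranspose]

lemma mdl_of_hyp_hs_unit {n : ℕ} (u : Matrix (Fin n) (Fin n) ℂ) (hu : uᴴ * u = 1) :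
    Pool.Agent.W661.RC.hs (u - 1) = 2 * n - 2 * (Matrix.trace u).re := by
  rw [hs_eq]
  have h1 : (u - 1)ᴴ * (u - 1) = uᴴ * u - uᴴ - u + 1 := by
    rw [Matrix.conjTranspose_sub, Matrix.conjTranspose_one, Matrix.sub_mul, Matrix.mul_sub, Matrix.one_mul,
      Matrix.mul_one]
    abel
  rw [h1, hu, Matrix.trace_add, Matrix.trace_sub, Matrix.trace_sub, Matrix.trace_one,
    Matrix.trace_conjTranspose]
  simp only [Fintype.card_fin, Complex.add_re, Complex.sub_re, Complex.natCast_re]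
  have h2 : (star (Matrix.trace u)).re = (Matrix.trace u).re := by
    simp
  rw [h2]
  ring

/-- TARGET -/
theorem mdl_of_hyp {G : Type} [Group G] [Countable G] (h : Hyperlinear G)
    {𝒰 : Ultrafilter ℕ} (hU : (𝒰 : Filter ℕ) ≤ cofinite) :
    ∃ M : Mdl G 𝒰, ∀ g : G, g ≠ 1 → ∀ᶠ n in (𝒰 : Filter ℕ), (M.d n : ℝ) ≤ Pool.Agent.W661.RC.hs (M.U g n - 1) := by
  classical
  obtain ⟨f, hf⟩ := exists_surjective_nat G
  let A : ℕ → Finset G := fun n => (Finset.range n).image f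
  have hAg : ∀ g : G, ∀ᶠ n in (𝒰 : Filter ℕ), g ∈ A n := by
    intro g
    obtain ⟨k, rfl⟩ := hf g
    have h1 : ∀ᶠ n in (cofinite : Filter ℕ), k < n := by
      rw [Nat.cofinite_eq_atTop]
      exact eventually_gt_atTop k
    filter_upwards [hU h1] with n hn
    exact Finset.mem_image_of_mem f (Finset.mem_range.2 hn)
  have hε : ∀ n : ℕ, (0 : ℝ) < 1 / ((n : ℝ) + 1) := fun n => by positivity
  choose m φ hm h2 h3 using fun n => h (A n) (1 / ((n : ℝ) + 1)) (hε n)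
  let U : G → ∀ n, Mt (m n) := fun g n => (φ n g : Matrix (Fin (m n)) (Fin (m n)) ℂ)
  have hun : ∀ g n, (U g n)ᴴ * U g n = 1 := fun g n => HL1.unit_cond _
  have hmul : ∀ g k, Tendsto (fun n => hs (U (g * k) n - U g n * U k n) / m n) 𝒰 (𝓝 0) := by
    intro g k
    have hlim : Tendsto (fun n : ℕ => (1 / ((n : ℝ) + 1)) ^ 2) 𝒰 (𝓝 0) := by
      have h0 : Tendsto (fun n : ℕ => 1 / ((n : ℝ) + 1)) atTop (𝓝 0) :=
        tendsto_one_div_add_atTop_nhds_zero_nat
      have h00 := (h0.pow 2).mono_left (by rw [← Nat.cofinite_eq_atTop]; exact hU :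
        (𝒰 : Filter ℕ) ≤ atTop)
      simpa using h00
    refine tendsto_of_tendsto_of_tendsto_of_le_of_le' tendsto_const_nhds hlim
      (Eventually.of_forall fun n => HL1.hs_div_nonneg _) ?_
    filter_upwards [hAg g, hAg k] with n hg hk
    have h4 := h2 n g hg k hk
    rw [mdl_of_hyp_nrm_eq] at h4
    exact ((Real.sqrt_lt' (hε n)).1 h4).le
  refine ⟨⟨m, hm, U, hun, hmul⟩, ?_⟩
  intro g hg
  have hn1 : ∀ᶠ n in (𝒰 : Filter ℕ), 1 ≤ n := by
    have h1 : ∀ᶠ n in (cofinite : Filter ℕ), 1 ≤ n := by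
      rw [Nat.cofinite_eq_atTop]
      exact eventually_ge_atTop 1
    exact hU h1
  filter_upwards [hAg g, hn1] with n hn hn1
  show (m n : ℝ) ≤ hs (U g n - 1)
  rw [mdl_of_hyp_hs_unit _ (hun g n)]
  have h5 := h3 n g hn hg
  have h6 : (Matrix.trace (U g n)).re ≤ ‖Matrix.trace (U g n)‖ := Complex.re_le_norm _
  have h7 : 1 / ((n : ℝ) + 1) ≤ 1 / 2 := by
    apply one_div_le_one_div_of_le (by norm_num)
    have : (1 : ℝ) ≤ n := by exact_mod_cast hn1
    linarith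
  have h8 : (0 : ℝ) < m n := by exact_mod_cast hm n
  have h9 : 1 / ((n : ℝ) + 1) * m n ≤ 1 / 2 * m n := mul_le_mul_of_nonneg_right h7 h8.le
  have h10 : ‖Matrix.trace (U g n)‖ < 1 / ((n : ℝ) + 1) * m n := h5
  linarith

end Pool.Agent.Helper784QW
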