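import Pool.Agent.Helper784QW.Spec
import Pool.Agent.Helper418_Sofic.BGen
import Pool.Agent.Helper418_Sofic.BTsys
import Pool.Agent.Helper418_Sofic.BRF
import Pool.Agent.Helper418_HL.NoMdl

/-!
# The group `A ⋊ St`

`R = 𝔽₁₂₇[SL(2,ℤ)]`, `St` is the stabiliser in `GL₆(R)` (acting on row vectors) of the subgroup
`Wp = 0³ × R₊³`, where `R₊` consists of the combinations of matrices with nonnegative entries, and
`A = R⁶ / Wp`.
-/

set_option autoImplicit false

namespace Pool.Agent.Helper784QW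

open Helper418 Matrix

/-- `GL₆(R)` -/
abbrev U6 : Type := (Matrix (Fin 6) (Fin 6) RR)ˣ

/-- row vectors -/
abbrev W6 : Type := Fin 6 → RR

/-- the combinations of matrices with nonnegative entries -/
noncomputable def Rp : Subring RR where
  carrier := {r | ∀ g : Matrix.SpecialLinearGroup (Fin 2) ℤ, r.coeff g ≠ 0 → ∀ i j, 0 ≤ g i j}
  zero_mem' := fun g hg => absurd rfl hg
  one_mem' := by
    intro g hg i j
    have h1 : (1 : RR) = MonoidAlgebra.single 1 1 := MonoidAlgebra.one_def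
    rw [h1, MonoidAlgebra.coeff_single, Finsupp.single_apply] at hg
    by_cases h : (1 : Matrix.SpecialLinearGroup (Fin 2) ℤ) = g
    · subst h
      rw [Matrix.SpecialLinearGroup.coe_one, Matrix.one_apply]
      split_ifs <;> norm_num
    · rw [if_neg h] at hg
      exact absurd rfl hg
  add_mem' := by
    intro a b ha hb g hg i j
    by_cases h : a.coeff g = 0
    · refine hb g ?_ i j
      intro h'
      apply hg
      show a.coeff g + b.coeff g = 0
      rw [h, h', add_zero]
    · exact ha g h i j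
  neg_mem' := by
    intro a ha g hg i j
    refine ha g ?_ i j
    intro h
    apply hg
    show -(a.coeff g) = 0
    rw [h, neg_zero]
  mul_mem' := by
    classical
    intro a b ha hb g hg i j
    have h1 : g ∈ (a * b).coeff.support := Finsupp.mem_support_iff.2 hg
    obtain ⟨x, hx, y, hy, rfl⟩ := Finset.mem_mul.1 (MonoidAlgebra.support_coeff_mul_subset a b h1)
    have hx' := ha x (Finsupp.mem_support_iff.1 hx)
    have hy' := hb y (Finsupp.mem_support_iff.1 hy)
    rw [Matrix.SpecialLinearGroup.coe_mul, Matrix.mul_apply]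
    exact Finset.sum_nonneg fun k _ => mul_nonneg (hx' i k) (hy' k j)

/-- the subgroup `0³ × R₊³` of the row vectors -/
noncomputable def Wp : AddSubgroup W6 where
  carrier := {w | w 0 = 0 ∧ w 1 = 0 ∧ w 2 = 0 ∧ ∀ i, w i ∈ Rp}
  zero_mem' := ⟨rfl, rfl, rfl, fun _ => Rp.zero_mem⟩
  add_mem' := by
    rintro a b ⟨h0, h1, h2, h⟩ ⟨k0, k1, k2, k⟩
    refine ⟨?_, ?_, ?_, fun i => Rp.add_mem (h i) (k i)⟩
    · show a 0 + b 0 = 0
      rw [h0, k0, add_zero]
    · show a 1 + b 1 = 0
      rw [h1, k1, add_zero]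
    · show a 2 + b 2 = 0
      rw [h2, k2, add_zero]
  neg_mem' := by
    rintro a ⟨h0, h1, h2, h⟩
    refine ⟨?_, ?_, ?_, fun i => Rp.neg_mem (h i)⟩
    · show -a 0 = 0
      rw [h0, neg_zero]
    · show -a 1 = 0
      rw [h1, neg_zero]
    · show -a 2 = 0
      rw [h2, neg_zero]

/-- the stabiliser of `Wp` -/
def St : Subgroup U6 where
  carrier := {g | ∀ w ∈ Wp, w ᵥ* (g : Matrix (Fin 6) (Fin 6) RR) ∈ Wp ∧
    w ᵥ* ((g⁻¹ : U6) : Matrix (Fin 6) (Fin 6) RR) ∈ Wp}
  one_mem' := by
    intro w hw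
    rw [inv_one, Units.val_one, Matrix.vecMul_one]
    exact ⟨hw, hw⟩
  mul_mem' := by
    intro a b ha hb w hw
    rw [_root_.mul_inv_rev, Units.val_mul, Units.val_mul, ← Matrix.vecMul_vecMul,
      ← Matrix.vecMul_vecMul]
    exact ⟨(hb _ (ha w hw).1).1, (ha _ (hb w hw).2).2⟩
  inv_mem' := by
    intro a ha w hw
    rw [inv_inv]
    exact ⟨(ha w hw).2, (ha w hw).1⟩

/-- the action `w ↦ w g⁻¹` of `St` on row vectors -/
noncomputable def vact (g : St) : W6 ≃+ W6 where
  toFun := fun w => w ᵥ* (((g : U6)⁻¹ : U6) : Matrix (Fin 6) (Fin 6) RR)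
  invFun := fun w => w ᵥ* ((g : U6) : Matrix (Fin 6) (Fin 6) RR)
  left_inv := fun w => by
    beta_reduce
    rw [Matrix.vecMul_vecMul, ← Units.val_mul, inv_mul_cancel, Units.val_one, Matrix.vecMul_one]
  right_inv := fun w => by
    beta_reduce
    rw [Matrix.vecMul_vecMul, ← Units.val_mul, mul_inv_cancel, Units.val_one, Matrix.vecMul_one]
  map_add' := fun v w => Matrix.add_vecMul _ _ _

theorem vact_apply (g : St) (w : W6) :
    vact g w = w ᵥ* (((g : U6)⁻¹ : U6) : Matrix (Fin 6) (Fin 6) RR) := rfl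

theorem vact_one (w : W6) : vact 1 w = w := by
  show w ᵥ* (((1 : U6)⁻¹ : U6) : Matrix (Fin 6) (Fin 6) RR) = w
  rw [inv_one, Units.val_one, Matrix.vecMul_one]

theorem vact_mul (a b : St) (w : W6) : vact (a * b) w = vact a (vact b w) := by
  show w ᵥ* ((((a : U6) * (b : U6))⁻¹ : U6) : Matrix (Fin 6) (Fin 6) RR) =
    (w ᵥ* (((b : U6)⁻¹ : U6) : Matrix (Fin 6) (Fin 6) RR)) ᵥ*
      (((a : U6)⁻¹ : U6) : Matrix (Fin 6) (Fin 6) RR)
  rw [_root_.mul_inv_rev, Units.val_mul, Matrix.vecMul_vecMul]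

theorem map_vact (g : St) : Wp.map (vact g : W6 →+ W6) = Wp := by
  ext w
  rw [AddSubgroup.mem_map]
  constructor
  · rintro ⟨v, hv, rfl⟩
    exact (g.2 v hv).2
  · intro hw
    refine ⟨w ᵥ* ((g : U6) : Matrix (Fin 6) (Fin 6) RR), (g.2 w hw).1, ?_⟩
    show (w ᵥ* ((g : U6) : Matrix (Fin 6) (Fin 6) RR)) ᵥ*
      (((g : U6)⁻¹ : U6) : Matrix (Fin 6) (Fin 6) RR) = w
    rw [Matrix.vecMul_vecMul, ← Units.val_mul, mul_inv_cancel, Units.val_one, Matrix.vecMul_one]

/-- the module `A = R⁶ / Wp` -/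
abbrev A6 : Type := W6 ⧸ Wp

/-- the action of `St` on `A` -/
noncomputable def qact (g : St) : A6 ≃+ A6 := QuotientAddGroup.congr Wp Wp (vact g) (map_vact g)

theorem qact_mk (g : St) (w : W6) : qact g (w : A6) =
    ((w ᵥ* (((g : U6)⁻¹ : U6) : Matrix (Fin 6) (Fin 6) RR) : W6) : A6) := rfl

/-- the action on `Multiplicative A` -/
noncomputable def mact : St →* MulAut (Multiplicative A6) where
  toFun g := AddEquiv.toMultiplicative (qact g)
  map_one' := by
    ext1 x
    induction x using QuotientAddGroup.induction_on with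
    | H w =>
      show ((vact 1 w : W6) : A6) = (w : A6)
      rw [vact_one]
  map_mul' a b := by
    ext1 x
    induction x using QuotientAddGroup.induction_on with
    | H w =>
      show ((vact (a * b) w : W6) : A6) = ((vact a (vact b w) : W6) : A6)
      rw [vact_mul]

theorem mact_ofAdd (g : St) (w : W6) : mact g (Multiplicative.ofAdd (w : A6)) =
    Multiplicative.ofAdd ((w ᵥ* (((g : U6)⁻¹ : U6) : Matrix (Fin 6) (Fin 6) RR) : W6) : A6) := rfl

/-- the group `A ⋊ St` -/
abbrev T6 : Type := Multiplicative A6 ⋊[mact] St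

/-- translations -/
noncomputable def tra (w : W6) : T6 := SemidirectProduct.inl (Multiplicative.ofAdd (w : A6))

/-- the translation by `e₀` -/
noncomputable def z0 : T6 := tra (Pi.single 0 1)

theorem tra_add (v w : W6) : tra (v + w) = tra v * tra w := by
  unfold tra
  rw [← map_mul]
  rfl

theorem tra_eq_one {w : W6} : tra w = 1 ↔ w ∈ Wp := by
  unfold tra
  rw [← map_one (SemidirectProduct.inl : Multiplicative A6 →* T6),
    SemidirectProduct.inl_injective.eq_iff, ← QuotientAddGroup.eq_zero_iff]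
  rfl

/-- conjugation of translations -/
theorem inr_tra (g : St) (w : W6) : (SemidirectProduct.inr g : T6) * tra w *
    (SemidirectProduct.inr g : T6)⁻¹ =
      tra (w ᵥ* (((g : U6)⁻¹ : U6) : Matrix (Fin 6) (Fin 6) RR)) := by
  unfold tra
  rw [← map_inv, ← SemidirectProduct.inl_aut]
  rfl

end Pool.Agent.Helper784QW
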