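import Pool.Agent.Helper784QW.Grp

/-!
# Membership in `St`, the T-systems of `A ⋊ St`
-/

set_option autoImplicit false

namespace Pool.Agent.Helper784QW

open Helper418 Matrix

theorem vec_single (w : W6) (a b : Fin 6) (r : RR) :
    w ᵥ* Matrix.single a b r = Pi.single b (w a * r) := by
  funext j
  rw [Matrix.vecMul, dotProduct]
  rw [Finset.sum_eq_single a]
  · by_cases h : b = j
    · subst h
      rw [Matrix.single_apply_same, Pi.single_eq_same]
    · rw [Matrix.single_apply_of_ne _ _ _ _ _ (fun h' => h h'.2), Pi.single_eq_of_ne (Ne.symm h),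
        mul_zero]
  · intro i _ hi
    rw [Matrix.single_apply_of_ne _ _ _ _ _ (fun h' => hi h'.1.symm), mul_zero]
  · intro h
    exact absurd (Finset.mem_univ a) h

theorem vec_EE (w : W6) {a b : Fin 6} (hab : a ≠ b) (r : RR) :
    w ᵥ* ((EE a b r : U6) : Matrix (Fin 6) (Fin 6) RR) = w + Pi.single b (w a * r) := by
  rw [EE_val hab, Matrix.vecMul_add, Matrix.vecMul_one, vec_single]

theorem vec_EE_inv (w : W6) {a b : Fin 6} (hab : a ≠ b) (r : RR) :
    w ᵥ* (((EE a b r : U6)⁻¹ : U6) : Matrix (Fin 6) (Fin 6) RR) = w + Pi.single b (w a * -r) := by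
  rw [EE_inv hab, vec_EE w hab]

theorem mem_Wp {w : W6} : w ∈ Wp ↔ w 0 = 0 ∧ w 1 = 0 ∧ w 2 = 0 ∧ ∀ i, w i ∈ Rp := Iff.rfl

theorem Wp_lt {w : W6} (hw : w ∈ Wp) {a : Fin 6} (ha : a < 3) : w a = 0 := by
  obtain ⟨h0, h1, h2, -⟩ := hw
  have : a = 0 ∨ a = 1 ∨ a = 2 := by revert ha; revert a; decide
  rcases this with rfl | rfl | rfl
  · exact h0
  · exact h1
  · exact h2

theorem single_mem_Wp {b : Fin 6} (hb : 3 ≤ b) {r : RR} (hr : r ∈ Rp) :
    (Pi.single b r : W6) ∈ Wp := by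
  have h0 : ∀ c : Fin 6, c < 3 → (Pi.single b r : W6) c = 0 := by
    intro c hc
    apply Pi.single_eq_of_ne
    rintro rfl
    exact absurd hc (not_lt.2 hb)
  refine ⟨h0 0 (by decide), h0 1 (by decide), h0 2 (by decide), fun i => ?_⟩
  by_cases h : i = b
  · subst h
    rw [Pi.single_eq_same]; exact hr
  · rw [Pi.single_eq_of_ne h]; exact Rp.zero_mem

theorem vec_mem_Wp {w : W6} (hw : w ∈ Wp) {a b : Fin 6} {r : RR}
    (h : a < 3 ∨ (3 ≤ b ∧ r ∈ Rp)) : w + Pi.single b (w a * r) ∈ Wp := by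
  rcases h with h | ⟨hb, hr⟩
  · rw [Wp_lt hw h, zero_mul, Pi.single_zero, add_zero]
    exact hw
  · exact Wp.add_mem hw (single_mem_Wp hb (Rp.mul_mem (hw.2.2.2 a) hr))

theorem EE_mem_St {a b : Fin 6} (hab : a ≠ b) {r : RR} (h : a < 3 ∨ (3 ≤ b ∧ r ∈ Rp)) :
    EE a b r ∈ St := by
  intro w hw
  rw [vec_EE w hab, vec_EE_inv w hab]
  refine ⟨vec_mem_Wp hw h, vec_mem_Wp hw ?_⟩
  rcases h with h | ⟨hb, hr⟩
  · exact Or.inl h
  · exact Or.inr ⟨hb, Rp.neg_mem hr⟩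

theorem ofG_mem_Rp {g : Matrix.SpecialLinearGroup (Fin 2) ℤ} (hg : ∀ i j, 0 ≤ g i j) :
    ofG g ∈ Rp := by
  intro h hh i j
  have : ofG g = MonoidAlgebra.single g 1 := rfl
  rw [this, MonoidAlgebra.coeff_single, Finsupp.single_apply] at hh
  by_cases e : g = h
  · subst e; exact hg i j
  · rw [if_neg e] at hh; exact absurd rfl hh

theorem ofG_not_mem_Rp {g : Matrix.SpecialLinearGroup (Fin 2) ℤ} {i j : Fin 2} (hg : g i j < 0) :
    ofG g ∉ Rp := by
  intro h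
  have h1 := h g (by
    have : ofG g = MonoidAlgebra.single g 1 := rfl
    rw [this, MonoidAlgebra.coeff_single, Finsupp.single_apply, if_pos rfl]
    decide) i j
  exact absurd hg (not_lt.2 h1)

theorem r3_mem_Rp (k : Fin 3) : r3 k ∈ Rp := by
  fin_cases k
  · exact Rp.one_mem
  · refine ofG_mem_Rp fun i j => ?_
    show 0 ≤ (!![1, 1; 0, 1] : Matrix (Fin 2) (Fin 2) ℤ) i j
    fin_cases i <;> fin_cases j <;> simp
  · refine ofG_mem_Rp fun i j => ?_
    show 0 ≤ (!![1, 0; 1, 1] : Matrix (Fin 2) (Fin 2) ℤ) i j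
    fin_cases i <;> fin_cases j <;> simp

theorem up_lt (i : Fin 3) : up i < 3 := by revert i; decide

theorem le_lo (i : Fin 3) : 3 ≤ lo i := by revert i; decide

theorem up_ne_succ (i : Fin 3) : up i ≠ up (i + 1) := by revert i; decide

theorem lo_ne_succ (i : Fin 3) : lo i ≠ lo (i + 1) := by revert i; decide

theorem up_ne_three (i : Fin 3) : up i ≠ 3 := by revert i; decide

theorem sB_mem_St (i : (Fin 3 × Fin 5) ⊕ (Fin 3 × Fin 3) ⊕ Unit) : sB i ∈ St := by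
  rcases i with i | i | i
  · exact EE_mem_St (up_ne_succ i.1) (Or.inl (up_lt i.1))
  · exact EE_mem_St (lo_ne_succ i.1) (Or.inr ⟨le_lo _, r3_mem_Rp _⟩)
  · exact EE_mem_St (by decide) (Or.inl (by decide))

theorem kB_mem_St (i : (Fin 3 × Fin 3) ⊕ Fin 3) : kB i ∈ St := by
  rcases i with i | i
  · exact EE_mem_St (lo_ne_succ i.1) (Or.inr ⟨le_lo _, r3_mem_Rp _⟩)
  · exact EE_mem_St (up_ne_three i) (Or.inl (up_lt i))

/-- the generators of `G` and `z0` in `A ⋊ St` -/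
noncomputable def s6 : ((Fin 3 × Fin 5) ⊕ (Fin 3 × Fin 3) ⊕ Unit) ⊕ Unit → T6
  | Sum.inl i => SemidirectProduct.inr ⟨sB i, sB_mem_St i⟩
  | Sum.inr _ => z0

/-- the generators of `K` in `A ⋊ St` -/
noncomputable def k6 (i : (Fin 3 × Fin 3) ⊕ Fin 3) : T6 :=
  SemidirectProduct.inr ⟨kB i, kB_mem_St i⟩

end Pool.Agent.Helper784QW
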