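import Pool.Agent.Helper784QW.Spec

/-!
# From QWEP to a hypertrace (MP_47effe_an)
-/

set_option autoImplicit false

open scoped InnerProductSpace ComplexOrder

namespace Pool.Agent.Helper784QW

open Matrix Pool.Agent.W661.RC Pool.Agent.W683.RC

lemma k12_aux (w w' c : ℂ)
    (h : ∀ z : ℂ, 0 ≤ z * w' + (starRingEnd ℂ) z * w + (starRingEnd ℂ) z * z * c) : w = 0 ∧ w' = 0 := by
  obtain ⟨a, b⟩ := w
  obtain ⟨a', b'⟩ := w'
  obtain ⟨p, q⟩ := c
  have h1 := h 1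
  have h2 := h (-1)
  have h3 := h Complex.I
  have h4 := h (-Complex.I)
  rw [Complex.nonneg_iff] at h1 h2 h3 h4
  simp at h1 h2 h3 h4
  obtain ⟨h1a, h1b⟩ := h1
  obtain ⟨h2a, h2b⟩ := h2
  obtain ⟨h3a, h3b⟩ := h3
  obtain ⟨h4a, h4b⟩ := h4
  have hq : q = 0 := by linarith
  have hb : b' = -b := by linarith
  have ha : a' = a := by linarith
  have hp : 0 ≤ p := by linarith
  subst hq hb ha
  have h5 := h (⟨-(a' / (p + 1)), -(b / (p + 1))⟩)
  rw [Complex.nonneg_iff] at h5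
  have h6 := h5.1
  simp at h6
  have hp1 : 0 < p + 1 := by linarith
  have h7 : 0 ≤ -((a' ^ 2 + b ^ 2) * (p + 2) / (p + 1) ^ 2) := by
    refine le_trans h6 (le_of_eq ?_)
    field_simp
    ring
  have h8 : (a' ^ 2 + b ^ 2) * (p + 2) / (p + 1) ^ 2 ≤ 0 := by linarith
  have h9 : a' ^ 2 + b ^ 2 ≤ 0 := by
    by_contra hcon
    push Not at hcon
    have : 0 < (a' ^ 2 + b ^ 2) * (p + 2) / (p + 1) ^ 2 := by positivity
    linarith
  have ha0 : a' = 0 := by nlinarith [sq_nonneg a', sq_nonneg b]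
  have hb0 : b = 0 := by nlinarith [sq_nonneg a', sq_nonneg b]
  subst ha0 hb0
  constructor
  · apply Complex.ext <;> simp
  · apply Complex.ext <;> simp

section

variable {K : Type} [NormedAddCommGroup K] [InnerProductSpace ℂ K] [CompleteSpace K]
variable {L : Type} [NormedAddCommGroup L] [InnerProductSpace ℂ L] [CompleteSpace L]

lemma k12_mult {B : Type} [CStarAlgebra B] (ι : B →⋆ₐ[ℂ] (K →L[ℂ] K)) (q : B →⋆ₐ[ℂ] (L →L[ℂ] L))
    (Φ : (K →L[ℂ] K) →ₗ[ℂ] (L →L[ℂ] L)) (hcp : IsCP Φ) (hΦ : ∀ b, Φ (ι b) = q b)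
    (S : K →L[ℂ] K) (b : B) (ζ θ : L) :
    ⟪ζ, Φ (S * ι b) θ⟫_ℂ = ⟪ζ, Φ S (q b θ)⟫_ℂ ∧
    ⟪θ, Φ (ι (star b) * star S) ζ⟫_ℂ = ⟪θ, q (star b) (Φ (star S) ζ)⟫_ℂ := by
  have h1 : Φ 1 = 1 := by
    have := hΦ 1
    rw [map_one ι, map_one q] at this
    exact this
  have key := k12_aux (⟪ζ, Φ (S * ι b) θ⟫_ℂ - ⟪ζ, Φ S (q b θ)⟫_ℂ)
    (⟪θ, Φ (ι (star b) * star S) ζ⟫_ℂ - ⟪θ, q (star b) (Φ (star S) ζ)⟫_ℂ)
    ⟪ζ, Φ (S * star S) ζ⟫_ℂ (by
      intro z
      have h := hcp 3 ![ι b, 1, star S] ![θ, -(q b θ), z • ζ]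
      have hb2 : Φ (star (ι b) * ι b) = q (star b) * q b := by
        rw [← map_star, ← map_mul, hΦ, map_mul]
      have hadj : ∀ u v : L, ⟪q b u, v⟫_ℂ = ⟪u, q (star b) v⟫_ℂ := by
        intro u v
        rw [map_star, ContinuousLinearMap.star_eq_adjoint, ContinuousLinearMap.adjoint_inner_right]
      refine le_trans h (le_of_eq ?_)
      simp only [Fin.sum_univ_three, Matrix.cons_val_zero, Matrix.cons_val_one, Matrix.cons_val_two,
        Matrix.head_cons, Matrix.tail_cons, star_one, one_mul, mul_one, star_star]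
      rw [hb2, h1, hΦ, ← map_star ι, hΦ]
      simp only [map_neg, inner_neg_right, inner_neg_left, map_smul, inner_smul_left, inner_smul_right,
        mul_apply_eq_comp, one_apply_eq_self, hadj]
      ring)
  exact ⟨sub_eq_zero.mp key.1, sub_eq_zero.mp key.2⟩

end

/-- TARGET -/
theorem s12 : S12 := by
  intro L _ _ _ M hM η hη htr hq
  obtain ⟨B, instB, q, hwep, hran⟩ := hq
  obtain ⟨K, i1, i2, i3, ι, hinj, hall⟩ := hwep
  obtain ⟨Φ, hcp, hΦ, hmem⟩ := hall L q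
  have hmem' : ∀ T, Φ T ∈ M := by
    intro T
    have := hmem T
    rw [hran, hM] at this
    exact this
  have hqm : ∀ b, q b ∈ M := by
    intro b
    rw [← hran]
    exact ⟨b, rfl⟩
  have hR : ∀ (S : K →L[ℂ] K) (b : B), Φ (S * ι b) = Φ S * q b := by
    intro S b
    refine ContinuousLinearMap.ext fun θ => ?_
    refine ext_inner_left ℂ fun ζ => ?_
    rw [mul_apply_eq_comp]
    exact (k12_mult ι q Φ hcp hΦ S b ζ θ).1
  have hL : ∀ (S : K →L[ℂ] K) (b : B), Φ (ι b * S) = q b * Φ S := by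
    intro S b
    refine ContinuousLinearMap.ext fun ζ => ?_
    refine ext_inner_left ℂ fun θ => ?_
    rw [mul_apply_eq_comp]
    have := (k12_mult ι q Φ hcp hΦ (star S) (star b) ζ θ).2
    rwa [star_star, star_star] at this
  let ψ : (K →L[ℂ] K) →ₗ[ℂ] ℂ :=
    { toFun := fun T => ⟪η, Φ T η⟫_ℂ
      map_add' := fun S T => by
        rw [map_add, _root_.add_apply, inner_add_right]
      map_smul' := fun c T => by
        rw [map_smul, _root_.smul_apply, inner_smul_right]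
        rfl }
  have hψ : ∀ T, ψ T = ⟪η, Φ T η⟫_ℂ := fun T => rfl
  refine ⟨B, instB, q, K, i1, i2, i3, ι, ψ, hran, ?_, ?_, ?_, ?_⟩
  · intro T
    have h := hcp 1 ![T] ![η]
    rw [hψ]
    simpa using h
  · rw [hψ]
    have h1 : Φ 1 = 1 := by
      have := hΦ 1
      rw [map_one ι, map_one q] at this
      exact this
    rw [h1, one_apply_eq_self, inner_self_eq_norm_sq_to_K, hη]
    simp
  · intro b T
    rw [hψ, hψ, hR, hL]
    exact htr _ (hqm b) _ (hmem' T)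
  · intro b
    rw [hψ, hΦ]

end Pool.Agent.Helper784QW
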